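import Mathlib

open scoped BigOperators Kronecker ComplexOrder
open Matrix

namespace Helper611.Dep

/-- The depolarizing channel `Δ_q(X) = q X + (1-q) tr(X) 1/d` on matrices over a finite index
type `ι` with `d` elements. -/
noncomputable def depol {ι : Type} [Fintype ι] [DecidableEq ι] (q : ℝ) (X : Matrix ι ι ℂ) :
    Matrix ι ι ℂ :=
  (q : ℂ) • X + (((1 - q) / (Fintype.card ι : ℝ) : ℝ) : ℂ) • (X.trace • (1 : Matrix ι ι ℂ))

/-- `Φ ⊗ id` : apply `Φ` blockwise on the first tensor factor. -/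
def onFst {m n : Type} (Φ : Matrix m m ℂ → Matrix m m ℂ) (X : Matrix (m × n) (m × n) ℂ) :
    Matrix (m × n) (m × n) ℂ :=
  Matrix.of fun p q => Φ (Matrix.of fun a b => X (a, p.2) (b, q.2)) p.1 q.1

/-- `id ⊗ Ψ` : apply `Ψ` blockwise on the second tensor factor. -/
def onSnd {m n : Type} (Ψ : Matrix n n ℂ → Matrix n n ℂ) (X : Matrix (m × n) (m × n) ℂ) :
    Matrix (m × n) (m × n) ℂ :=
  Matrix.of fun p q => Ψ (Matrix.of fun a b => X (p.1, a) (q.1, b)) p.2 q.2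

/-- The tensor product `Φ ⊗ Ψ = (Φ ⊗ id) ∘ (id ⊗ Ψ)` of two maps on matrices. -/
def tensorMap {m n : Type} (Φ : Matrix m m ℂ → Matrix m m ℂ) (Ψ : Matrix n n ℂ → Matrix n n ℂ)
    (X : Matrix (m × n) (m × n) ℂ) : Matrix (m × n) (m × n) ℂ :=
  onFst Φ (onSnd Ψ X)

/-- Density matrices. -/
def IsState {ι : Type} [Fintype ι] (ρ : Matrix ι ι ℂ) : Prop := ρ.PosSemidef ∧ ρ.trace = 1

/-- The rank one matrix `|ψ><ψ|`. -/
def pureSt {ι : Type} (ψ : ι → ℂ) : Matrix ι ι ℂ := Matrix.vecMulVec ψ (star ψ)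

/-- unit vectors -/
def IsUnitVec {ι : Type} [Fintype ι] (ψ : ι → ℂ) : Prop := ∑ i, ‖ψ i‖ ^ 2 = 1

/-- Unitarily invariant norms on square complex matrices. -/
structure IsUINorm {ι : Type} [Fintype ι] [DecidableEq ι] (N : Matrix ι ι ℂ → ℝ) : Prop where
  add_le : ∀ X Y, N (X + Y) ≤ N X + N Y
  smul : ∀ (c : ℂ) X, N (c • X) = ‖c‖ * N X
  eq_zero : ∀ X, N X = 0 → X = 0
  unitary : ∀ U V X : Matrix ι ι ℂ, U ∈ Matrix.unitaryGroup ι ℂ → V ∈ Matrix.unitaryGroup ι ℂ →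
    N (U * X * V) = N X

section tri
variable {α β γ : Type} [Fintype α] [Fintype β] [Fintype γ]
  [DecidableEq α] [DecidableEq β] [DecidableEq γ]

/-- `P1 X = 1 ⊗ tr_1 X` on three factors. -/
def P1 (X : Matrix ((α × β) × γ) ((α × β) × γ) ℂ) : Matrix ((α × β) × γ) ((α × β) × γ) ℂ :=
  Matrix.of fun x y => if x.1.1 = y.1.1 then ∑ a, X ((a, x.1.2), x.2) ((a, y.1.2), y.2) else 0

/-- trace out the second factor and tensor the identity. -/
def P2 (X : Matrix ((α × β) × γ) ((α × β) × γ) ℂ) : Matrix ((α × β) × γ) ((α × β) × γ) ℂ :=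
  Matrix.of fun x y => if x.1.2 = y.1.2 then ∑ a, X ((x.1.1, a), x.2) ((y.1.1, a), y.2) else 0

/-- trace out the third factor and tensor the identity. -/
def P3 (X : Matrix ((α × β) × γ) ((α × β) × γ) ℂ) : Matrix ((α × β) × γ) ((α × β) × γ) ℂ :=
  Matrix.of fun x y => if x.2 = y.2 then ∑ a, X (x.1, a) (y.1, a) else 0

/-- `∑_S c_S ρ_S ⊗ 1`. -/
noncomputable def comb (c0 c1 c2 c3 c12 c13 c23 c123 : ℝ)
    (X : Matrix ((α × β) × γ) ((α × β) × γ) ℂ) : Matrix ((α × β) × γ) ((α × β) × γ) ℂ :=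
  (c0 : ℂ) • P1 (P2 (P3 X)) + (c1 : ℂ) • P2 (P3 X) + (c2 : ℂ) • P1 (P3 X) + (c3 : ℂ) • P1 (P2 X)
    + (c12 : ℂ) • P3 X + (c13 : ℂ) • P2 X + (c23 : ℂ) • P1 X + (c123 : ℂ) • X

/-- Eigenvalues of the output at a product input, in units `a_i = (1-q_i)/d`, `b_i = q_i`. -/
def lamv (a0 : α) (b0 : β) (g0 : γ) (a1 b1 a2 b2 a3 b3 : ℝ) (z : (α × β) × γ) : ℝ :=
  (if z.1.1 = a0 then a1 + b1 else a1) * (if z.1.2 = b0 then a2 + b2 else a2)
    * (if z.2 = g0 then a3 + b3 else a3)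

end tri

end Helper611.Dep
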