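import Pool.Agent.Helper611.Dep.Def

open scoped BigOperators Kronecker ComplexOrder
open Matrix

namespace Helper611.Dep



section J1
variable {α β γ : Type} [Fintype α] [Fintype β] [Fintype γ]
  [DecidableEq α] [DecidableEq β] [DecidableEq γ]

theorem gen_psd {m n κ A : Type} [Fintype m] [Fintype n] [DecidableEq n] [Fintype κ] [DecidableEq κ]
    [Fintype A] (f : A → n → m) (c : n → κ) {X : Matrix m m ℂ} (h : X.PosSemidef) :
    (Matrix.of fun x y => if c x = c y then ∑ a, X (f a x) (f a y) else 0 :
      Matrix n n ℂ).PosSemidef := by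
  have e : (Matrix.of fun x y => if c x = c y then ∑ a, X (f a x) (f a y) else 0 :
      Matrix n n ℂ) = ∑ k : κ, ∑ a : A,
        (Matrix.diagonal (fun x => if c x = k then (1 : ℂ) else 0)) * X.submatrix (f a) (f a) *
          (Matrix.diagonal (fun x => if c x = k then (1 : ℂ) else 0))ᴴ := by
    ext x y
    simp only [Matrix.sum_apply, Matrix.diagonal_conjTranspose, Matrix.mul_diagonal,
      Matrix.diagonal_mul, Matrix.submatrix_apply, Matrix.of_apply, Pi.star_apply]
    rw [Finset.sum_eq_single (c x)]
    · by_cases hxy : c x = c y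
      · simp [hxy]
      · have hyx : ¬ c y = c x := fun h => hxy h.symm
        simp [hxy, hyx]
    · intro b _ hb
      have : ¬ c x = b := fun h => hb h.symm
      simp [this]
    · intro hh
      exact absurd (Finset.mem_univ _) hh
  rw [e]
  refine Matrix.posSemidef_sum _ fun k _ => Matrix.posSemidef_sum _ fun a _ => ?_
  exact (h.submatrix (f a)).mul_mul_conjTranspose_same _

theorem P1_psd {X : Matrix ((α × β) × γ) ((α × β) × γ) ℂ} (h : X.PosSemidef) :
    (P1 X).PosSemidef := by
  exact gen_psd (fun (a : α) (x : (α × β) × γ) => ((a, x.1.2), x.2)) (fun x => x.1.1) h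

theorem P2_psd {X : Matrix ((α × β) × γ) ((α × β) × γ) ℂ} (h : X.PosSemidef) :
    (P2 X).PosSemidef := by
  exact gen_psd (fun (a : β) (x : (α × β) × γ) => ((x.1.1, a), x.2)) (fun x => x.1.2) h

theorem P3_psd {X : Matrix ((α × β) × γ) ((α × β) × γ) ℂ} (h : X.PosSemidef) :
    (P3 X).PosSemidef := by
  exact gen_psd (fun (a : γ) (x : (α × β) × γ) => (x.1, a)) (fun x => x.2) h
end J1

end Helper611.Dep
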