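import Pool.Agent.Helper611.Dep.Def

open scoped BigOperators Kronecker ComplexOrder
open Matrix

namespace Helper611.Dep



section J10aux

theorem ui_zero {ι : Type} [Fintype ι] [DecidableEq ι] {N : Matrix ι ι ℂ → ℝ}
    (hN : IsUINorm N) : N 0 = 0 := by
  have h := hN.smul 0 0
  simpa using h

theorem ui_neg {ι : Type} [Fintype ι] [DecidableEq ι] {N : Matrix ι ι ℂ → ℝ}
    (hN : IsUINorm N) (X : Matrix ι ι ℂ) : N (-X) = N X := by
  have h := hN.smul (-1) X
  simpa using h

theorem ui_sum {ι : Type} [Fintype ι] [DecidableEq ι] {N : Matrix ι ι ℂ → ℝ}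
    (hN : IsUINorm N) {κ : Type} (s : Finset κ) (f : κ → Matrix ι ι ℂ) :
    N (∑ k ∈ s, f k) ≤ ∑ k ∈ s, N (f k) := by
  classical
  induction s using Finset.induction_on with
  | empty => simp [ui_zero hN]
  | insert a s ha ih =>
    rw [Finset.sum_insert ha, Finset.sum_insert ha]
    exact (hN.add_le _ _).trans (by linarith)

theorem ui_bound {ι : Type} [Fintype ι] [DecidableEq ι] {N : Matrix ι ι ℂ → ℝ}
    (hN : IsUINorm N) (A : Matrix ι ι ℂ) :
    N A ≤ ∑ i, ∑ j, ‖A i j‖ * N (Matrix.single i j 1) := by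
  have h1 : A = ∑ i, ∑ j, A i j • Matrix.single i j (1 : ℂ) := by
    conv_lhs => rw [Matrix.matrix_eq_sum_single A]
    refine Finset.sum_congr rfl fun i _ => Finset.sum_congr rfl fun j _ => ?_
    rw [Matrix.smul_single, smul_eq_mul, mul_one]
  conv_lhs => rw [h1]
  refine (ui_sum hN _ _).trans (Finset.sum_le_sum fun i _ => ?_)
  refine (ui_sum hN _ _).trans (Finset.sum_le_sum fun j _ => ?_)
  rw [hN.smul]

theorem ui_cont {ι : Type} [Fintype ι] [DecidableEq ι] {N : Matrix ι ι ℂ → ℝ}
    (hN : IsUINorm N) : Continuous N := by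
  rw [continuous_iff_continuousAt]
  intro B
  show Filter.Tendsto N (nhds B) (nhds (N B))
  rw [tendsto_iff_norm_sub_tendsto_zero]
  have hg : Continuous (fun A : Matrix ι ι ℂ =>
      ∑ i, ∑ j, ‖(A - B) i j‖ * N (Matrix.single i j 1)) := by
    refine continuous_finset_sum _ fun i _ => continuous_finset_sum _ fun j _ => ?_
    refine Continuous.mul ?_ continuous_const
    refine Continuous.norm ?_
    exact (continuous_apply_apply i j).comp (continuous_id.sub continuous_const)
  have h0 : (∑ i, ∑ j, ‖(B - B) i j‖ * N (Matrix.single i j (1 : ℂ))) = 0 := by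
    simp
  have ht := hg.tendsto B
  rw [h0] at ht
  refine squeeze_zero (fun _ => norm_nonneg _) (fun A => ?_) ht
  rw [Real.norm_eq_abs, abs_le]
  have h1 := ui_bound hN (A - B)
  have h2 := hN.add_le (A - B) B
  have h3 := hN.add_le (-(A - B)) A
  rw [sub_add_cancel] at h2
  rw [ui_neg hN, neg_sub, sub_add_cancel] at h3
  constructor <;> linarith

theorem depol_cont {ι : Type} [Fintype ι] [DecidableEq ι] (f : ℝ → ℝ) (hf : Continuous f)
    (X : ℝ → Matrix ι ι ℂ) (hX : Continuous X) : Continuous fun ε => depol (f ε) (X ε) := by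
  unfold depol
  have h1 : Continuous fun ε => (X ε).trace := hX.matrix_trace
  have h2 : Continuous fun ε => ((f ε : ℝ) : ℂ) := Complex.continuous_ofReal.comp hf
  have h3 : Continuous fun ε => ((((1 - f ε) / (Fintype.card ι : ℝ) : ℝ)) : ℂ) :=
    Complex.continuous_ofReal.comp ((continuous_const.sub hf).div_const _)
  exact (h2.smul hX).add (h3.smul (h1.smul continuous_const))

theorem onFst_cont {m n : Type} (Φ : ℝ → Matrix m m ℂ → Matrix m m ℂ)
    (hΦ : ∀ X : ℝ → Matrix m m ℂ, Continuous X → Continuous fun ε => Φ ε (X ε))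
    (X : ℝ → Matrix (m × n) (m × n) ℂ) (hX : Continuous X) :
    Continuous fun ε => onFst (Φ ε) (X ε) := by
  refine continuous_pi fun p => continuous_pi fun q => ?_
  show Continuous fun ε => Φ ε (Matrix.of fun a b => X ε (a, p.2) (b, q.2)) p.1 q.1
  refine (continuous_apply_apply p.1 q.1).comp (hΦ _ ?_)
  refine continuous_pi fun a => continuous_pi fun b => ?_
  exact (continuous_apply_apply (a, p.2) (b, q.2)).comp hX

theorem onSnd_cont {m n : Type} (Ψ : ℝ → Matrix n n ℂ → Matrix n n ℂ)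
    (hΨ : ∀ X : ℝ → Matrix n n ℂ, Continuous X → Continuous fun ε => Ψ ε (X ε))
    (X : ℝ → Matrix (m × n) (m × n) ℂ) (hX : Continuous X) :
    Continuous fun ε => onSnd (Ψ ε) (X ε) := by
  refine continuous_pi fun p => continuous_pi fun q => ?_
  show Continuous fun ε => Ψ ε (Matrix.of fun a b => X ε (p.1, a) (q.1, b)) p.2 q.2
  refine (continuous_apply_apply p.2 q.2).comp (hΨ _ ?_)
  refine continuous_pi fun a => continuous_pi fun b => ?_
  exact (continuous_apply_apply (p.1, a) (q.1, b)).comp hX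

theorem tensorMap_cont {m n : Type} (Φ : ℝ → Matrix m m ℂ → Matrix m m ℂ)
    (Ψ : ℝ → Matrix n n ℂ → Matrix n n ℂ)
    (hΦ : ∀ X : ℝ → Matrix m m ℂ, Continuous X → Continuous fun ε => Φ ε (X ε))
    (hΨ : ∀ X : ℝ → Matrix n n ℂ, Continuous X → Continuous fun ε => Ψ ε (X ε))
    (X : ℝ → Matrix (m × n) (m × n) ℂ) (hX : Continuous X) :
    Continuous fun ε => tensorMap (Φ ε) (Ψ ε) (X ε) := by
  unfold tensorMap
  exact onFst_cont Φ hΦ _ (onSnd_cont Ψ hΨ X hX)

end J10aux

section J10
variable {α β γ : Type} [Fintype α] [Fintype β] [Fintype γ]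
  [DecidableEq α] [DecidableEq β] [DecidableEq γ]

/-- closure `q_i → 1` by continuity: replace `q` by `(1-ε) q`. -/
theorem closure_q
    (N : Matrix ((α × β) × γ) ((α × β) × γ) ℂ → ℝ) (hN : IsUINorm N)
    (X Y : Matrix ((α × β) × γ) ((α × β) × γ) ℂ)
    (q1 q2 q3 : ℝ)
    (H : ∀ ε : ℝ, 0 < ε → ε < 1 →
      N (tensorMap (tensorMap (depol ((1 - ε) * q1)) (depol ((1 - ε) * q2)))
          (depol ((1 - ε) * q3)) X) ≤
      N (tensorMap (tensorMap (depol ((1 - ε) * q1)) (depol ((1 - ε) * q2)))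
          (depol ((1 - ε) * q3)) Y)) :
    N (tensorMap (tensorMap (depol q1) (depol q2)) (depol q3) X) ≤
      N (tensorMap (tensorMap (depol q1) (depol q2)) (depol q3) Y) := by
  have key : ∀ Z : Matrix ((α × β) × γ) ((α × β) × γ) ℂ, Continuous fun ε : ℝ =>
      N (tensorMap (tensorMap (depol ((1 - ε) * q1)) (depol ((1 - ε) * q2)))
          (depol ((1 - ε) * q3)) Z) := by
    intro Z
    have hc : ∀ q : ℝ, Continuous fun ε : ℝ => (1 - ε) * q := fun q =>
      (continuous_const.sub continuous_id).mul continuous_const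
    refine (ui_cont hN).comp ?_
    refine tensorMap_cont (fun ε => tensorMap (depol ((1 - ε) * q1)) (depol ((1 - ε) * q2)))
      (fun ε => depol ((1 - ε) * q3)) ?_ ?_ (fun _ => Z) continuous_const
    · intro X hX
      exact tensorMap_cont (fun ε => depol ((1 - ε) * q1)) (fun ε => depol ((1 - ε) * q2))
        (fun X hX => depol_cont _ (hc q1) X hX) (fun X hX => depol_cont _ (hc q2) X hX) X hX
    · intro X hX
      exact depol_cont _ (hc q3) X hX
  have hX := (key X).tendsto 0
  have hY := (key Y).tendsto 0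
  simp only [sub_zero, one_mul] at hX hY
  have hX' := hX.mono_left (nhdsWithin_le_nhds (s := Set.Ioi (0 : ℝ)))
  have hY' := hY.mono_left (nhdsWithin_le_nhds (s := Set.Ioi (0 : ℝ)))
  refine le_of_tendsto_of_tendsto hX' hY' ?_
  filter_upwards [Ioo_mem_nhdsGT (zero_lt_one : (0 : ℝ) < 1)] with ε hε
  exact H ε hε.1 hε.2
end J10

end Helper611.Dep
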