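import Pool.Agent.Helper611.Dep.Def

open scoped BigOperators Kronecker ComplexOrder
open Matrix

namespace Helper611.Dep



section J2
variable {α δ : Type} [Fintype α] [Fintype δ] [DecidableEq α] [DecidableEq δ]

/-- Kraus operator -/
noncomputable def KK31199 (e : ℂ) (a b : α) : Matrix (α × δ) (α × δ) ℂ :=
  Matrix.of fun x y => (if x.1 = a then (if y = (b, x.2) then 1 else 0) else 0)
    + e * (if x.1 = b then (if y = (a, x.2) then 1 else 0) else 0)

omit [Fintype α] [Fintype δ] in
lemma KK31199_apply (e : ℂ) (a b : α) (x y : α × δ) : (KK31199 (δ := δ) e a b) x y =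
   (if x.1 = a then (if y = (b, x.2) then 1 else 0) else 0)
    + e * (if x.1 = b then (if y = (a, x.2) then 1 else 0) else 0) := rfl

lemma KK31199_left (e : ℂ) (a b : α) (X : Matrix (α × δ) (α × δ) ℂ) (x z : α × δ) :
    ((KK31199 e a b * X : Matrix (α × δ) (α × δ) ℂ)) x z = (if x.1 = a then X (b, x.2) z else 0)
      + e * (if x.1 = b then X (a, x.2) z else 0) := by
  rw [Matrix.mul_apply]
  simp only [KK31199_apply, add_mul, Finset.sum_add_distrib]
  congr 1
  · by_cases h : x.1 = a
    · simp [h]
    · simp [h]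
  · by_cases h : x.1 = b
    · simp [h, mul_assoc]
    · simp [h]

lemma KK31199_right (e : ℂ) (he : star e = e) (a b : α) (Y : Matrix (α × δ) (α × δ) ℂ) (x z : α × δ) :
    ((Y * (KK31199 e a b)ᴴ : Matrix (α × δ) (α × δ) ℂ)) x z = (if z.1 = a then Y x (b, z.2) else 0)
      + e * (if z.1 = b then Y x (a, z.2) else 0) := by
  rw [Matrix.mul_apply]
  simp only [Matrix.conjTranspose_apply, KK31199_apply, star_add, star_mul', he, mul_add, Finset.sum_add_distrib]
  congr 1
  · by_cases h : z.1 = a
    · simp [h, apply_ite (star : ℂ → ℂ)]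
    · simp [h]
  · by_cases h : z.1 = b
    · simp [h, apply_ite (star : ℂ → ℂ)]
      ring
    · simp [h]

/-- one site step: `X ↦ 1 ⊗ tr_1 X + e * (partial transpose on the first factor of X)` is
completely positive for `e = ± 1`. -/
theorem step_psd {X : Matrix (α × δ) (α × δ) ℂ} (h : X.PosSemidef) (e : ℝ)
    (he : e = 1 ∨ e = -1) :
    (Matrix.of fun x y : α × δ => (if x.1 = y.1 then ∑ a, X (a, x.2) (a, y.2) else 0)
      + (e : ℂ) * X (y.1, x.2) (x.1, y.2)).PosSemidef := by
  have hs : star (e : ℂ) = (e : ℂ) := Complex.conj_ofReal e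
  have he2 : (e : ℂ) * (e : ℂ) = 1 := by
    rcases he with rfl | rfl <;> norm_num
  have key : (Matrix.of fun x y : α × δ => (if x.1 = y.1 then ∑ a, X (a, x.2) (a, y.2) else 0)
      + (e : ℂ) * X (y.1, x.2) (x.1, y.2)) =
      ((1/2 : ℝ) : ℂ) • ∑ p : α × α, KK31199 (e : ℂ) p.1 p.2 * X * (KK31199 (e : ℂ) p.1 p.2)ᴴ := by
    ext x z
    rw [Matrix.smul_apply, Matrix.sum_apply]
    simp only [KK31199_right _ hs, KK31199_left, Matrix.of_apply, Fintype.sum_prod_type]
    have h1 : ∑ a : α, ∑ b : α, ((if z.1 = a then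
        ((if x.1 = a then X (b, x.2) (b, z.2) else 0) + (e:ℂ) * (if x.1 = b then X (a, x.2) (b, z.2) else 0)) else 0)
        + (e:ℂ) * (if z.1 = b then
        ((if x.1 = a then X (b, x.2) (a, z.2) else 0) + (e:ℂ) * (if x.1 = b then X (a, x.2) (a, z.2) else 0)) else 0))
        = 2 * ((if x.1 = z.1 then ∑ a, X (a, x.2) (a, z.2) else 0) + (e : ℂ) * X (z.1, x.2) (x.1, z.2)) := by
      simp only [Finset.sum_add_distrib]
      have e1 : ∑ a : α, ∑ b : α, (if z.1 = a then
          ((if x.1 = a then X (b, x.2) (b, z.2) else 0) + (e:ℂ) * (if x.1 = b then X (a, x.2) (b, z.2) else 0)) else 0)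
          = (if x.1 = z.1 then ∑ a, X (a, x.2) (a, z.2) else 0) + (e : ℂ) * X (z.1, x.2) (x.1, z.2) := by
        rw [Finset.sum_eq_single z.1]
        · simp only [if_true, Finset.sum_add_distrib, ← Finset.mul_sum]
          congr 1
          · by_cases hx : x.1 = z.1
            · simp [hx]
            · simp [hx]
          · simp
        · intro a _ ha
          simp [Ne.symm ha]
        · simp
      have e2 : ∑ a : α, ∑ b : α, ((e:ℂ) * (if z.1 = b then
          ((if x.1 = a then X (b, x.2) (a, z.2) else 0) + (e:ℂ) * (if x.1 = b then X (a, x.2) (a, z.2) else 0)) else 0))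
          = (if x.1 = z.1 then ∑ a, X (a, x.2) (a, z.2) else 0) + (e : ℂ) * X (z.1, x.2) (x.1, z.2) := by
        have e3 : ∀ a : α, ∑ b : α, ((e:ℂ) * (if z.1 = b then
          ((if x.1 = a then X (b, x.2) (a, z.2) else 0) + (e:ℂ) * (if x.1 = b then X (a, x.2) (a, z.2) else 0)) else 0))
          = (if x.1 = z.1 then X (a, x.2) (a, z.2) else 0) + (e:ℂ) * (if x.1 = a then X (z.1, x.2) (a, z.2) else 0) := by
          intro a
          rw [← Finset.mul_sum, Finset.sum_ite_eq]
          simp only [Finset.mem_univ, if_true]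
          by_cases hx : x.1 = z.1
          · simp only [hx, if_true]
            rw [mul_add, ← mul_assoc, he2, one_mul, add_comm]
          · simp only [hx, if_false, mul_zero, add_zero, zero_add]
        simp only [e3, Finset.sum_add_distrib, ← Finset.mul_sum]
        congr 1
        · by_cases hx : x.1 = z.1
          · simp [hx]
          · simp [hx]
        · simp
      rw [← Finset.sum_add_distrib] 
      have e4 : ∀ (f g : α → α → ℂ), (∑ a, (∑ b, f a b + ∑ b, g a b)) = (∑ a, ∑ b, f a b) + ∑ a, ∑ b, g a b := by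
        intro f g; rw [Finset.sum_add_distrib]
      rw [Finset.sum_add_distrib, e1, e2]
      ring
    rw [h1]
    simp only [smul_eq_mul]
    push_cast
    ring
  rw [key]
  apply Matrix.PosSemidef.smul
  · apply Matrix.posSemidef_sum
    intro p _
    exact h.mul_mul_conjTranspose_same _
  · rw [Complex.zero_le_real]; norm_num
end J2

end Helper611.Dep
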