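import Pool.Agent.Helper611.Dep.Def
import Pool.Agent.Helper611.Dep.J2

open scoped BigOperators Kronecker ComplexOrder
open Matrix

namespace Helper611.Dep



section J2
variable {α δ : Type} [Fintype α] [Fintype δ] [DecidableEq α] [DecidableEq δ]


variable {β γ : Type} [Fintype β] [Fintype γ] [DecidableEq β] [DecidableEq γ]

/-- step in the first factor of three -/
noncomputable def stp1 (e : ℝ) (Y : Matrix ((α × β) × γ) ((α × β) × γ) ℂ) :
    Matrix ((α × β) × γ) ((α × β) × γ) ℂ :=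
  Matrix.of fun x y => (if x.1.1 = y.1.1 then ∑ a, Y ((a, x.1.2), x.2) ((a, y.1.2), y.2) else 0)
    + (e : ℂ) * Y ((y.1.1, x.1.2), x.2) ((x.1.1, y.1.2), y.2)

/-- step in the second factor of three -/
noncomputable def stp2 (e : ℝ) (Y : Matrix ((α × β) × γ) ((α × β) × γ) ℂ) :
    Matrix ((α × β) × γ) ((α × β) × γ) ℂ :=
  Matrix.of fun x y => (if x.1.2 = y.1.2 then ∑ b, Y ((x.1.1, b), x.2) ((y.1.1, b), y.2) else 0)
    + (e : ℂ) * Y ((x.1.1, y.1.2), x.2) ((y.1.1, x.1.2), y.2)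

/-- step in the third factor of three -/
noncomputable def stp3 (e : ℝ) (Y : Matrix ((α × β) × γ) ((α × β) × γ) ℂ) :
    Matrix ((α × β) × γ) ((α × β) × γ) ℂ :=
  Matrix.of fun x y => (if x.2 = y.2 then ∑ c, Y (x.1, c) (y.1, c) else 0)
    + (e : ℂ) * Y (x.1, y.2) (y.1, x.2)

theorem stp1_psd {Y : Matrix ((α × β) × γ) ((α × β) × γ) ℂ} (h : Y.PosSemidef) (e : ℝ)
    (he : e = 1 ∨ e = -1) : (stp1 e Y).PosSemidef := by
  have h1 := h.submatrix (fun z : α × (β × γ) => ((z.1, z.2.1), z.2.2))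
  have h2 := step_psd h1 e he
  have h3 := h2.submatrix (fun x : (α × β) × γ => (x.1.1, (x.1.2, x.2)))
  exact h3

theorem stp2_psd {Y : Matrix ((α × β) × γ) ((α × β) × γ) ℂ} (h : Y.PosSemidef) (e : ℝ)
    (he : e = 1 ∨ e = -1) : (stp2 e Y).PosSemidef := by
  have h1 := h.submatrix (fun z : β × (α × γ) => ((z.2.1, z.1), z.2.2))
  have h2 := step_psd h1 e he
  have h3 := h2.submatrix (fun x : (α × β) × γ => (x.1.2, (x.1.1, x.2)))
  exact h3

theorem stp3_psd {Y : Matrix ((α × β) × γ) ((α × β) × γ) ℂ} (h : Y.PosSemidef) (e : ℝ)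
    (he : e = 1 ∨ e = -1) : (stp3 e Y).PosSemidef := by
  have h1 := h.submatrix (fun z : γ × (α × β) => (z.2, z.1))
  have h2 := step_psd h1 e he
  have h3 := h2.submatrix (fun x : (α × β) × γ => (x.2, x.1))
  exact h3

/-- TARGET -/
theorem comb_sign_psd {X : Matrix ((α × β) × γ) ((α × β) × γ) ℂ} (h : X.PosSemidef)
    (e1 e2 e3 : ℝ) (h1 : e1 = 1 ∨ e1 = -1) (h2 : e2 = 1 ∨ e2 = -1) (h3 : e3 = 1 ∨ e3 = -1) :
    (comb 1 e1 e2 e3 (e1 * e2) (e1 * e3) (e2 * e3) (e1 * e2 * e3) X).PosSemidef := by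
  have key : comb 1 e1 e2 e3 (e1 * e2) (e1 * e3) (e2 * e3) (e1 * e2 * e3) X
      = stp1 e1 (stp2 e2 (stp3 e3 Xᵀ)) := by
    ext ⟨⟨x1, x2⟩, x3⟩ ⟨⟨y1, y2⟩, y3⟩
    simp only [comb, stp1, stp2, stp3, P1, P2, P3, Matrix.add_apply, Matrix.smul_apply,
      Matrix.of_apply, Matrix.transpose_apply, smul_eq_mul]
    by_cases c1 : x1 = y1 <;> by_cases c2 : x2 = y2 <;> by_cases c3 : x3 = y3 <;>
      simp only [c1, c2, c3, if_true, if_false, Finset.sum_add_distrib, mul_add, Finset.mul_sum,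
        Finset.sum_const_zero, mul_zero, zero_add, add_zero] <;>
      push_cast <;> simp only [mul_assoc, ← Finset.mul_sum, one_mul, Finset.sum_add_distrib,
        Finset.sum_const_zero, mul_zero, zero_add, add_zero] <;> ring
  rw [key]
  exact stp1_psd (stp2_psd (stp3_psd h.transpose e3 h3) e2 h2) e1 h1
end J2

end Helper611.Dep
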