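import Pool.Agent.Helper611.Dep.Def
import Pool.Agent.Helper611.Dep.J2b

open scoped BigOperators Kronecker ComplexOrder
open Matrix

namespace Helper611.Dep



section J2
variable {α β γ : Type} [Fintype α] [Fintype β] [Fintype γ]
  [DecidableEq α] [DecidableEq β] [DecidableEq γ]


/-- TARGET -/
theorem comb_psd_of_hat {X : Matrix ((α × β) × γ) ((α × β) × γ) ℂ} (h : X.PosSemidef)
    (c0 c1 c2 c3 c12 c13 c23 c123 : ℝ)
    (H : ∀ e1 e2 e3 : ℝ, (e1 = 1 ∨ e1 = -1) → (e2 = 1 ∨ e2 = -1) → (e3 = 1 ∨ e3 = -1) →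
      0 ≤ c0 + c1 * e1 + c2 * e2 + c3 * e3 + c12 * (e1 * e2) + c13 * (e1 * e3) + c23 * (e2 * e3)
        + c123 * (e1 * e2 * e3)) :
    (comb c0 c1 c2 c3 c12 c13 c23 c123 X).PosSemidef := by
  have key : ∀ e1 e2 e3 : ℝ, (e1 = 1 ∨ e1 = -1) → (e2 = 1 ∨ e2 = -1) → (e3 = 1 ∨ e3 = -1) →
      ((((c0 + c1 * e1 + c2 * e2 + c3 * e3 + c12 * (e1 * e2) + c13 * (e1 * e3) + c23 * (e2 * e3)
        + c123 * (e1 * e2 * e3)) / 8 : ℝ) : ℂ) •
        comb 1 e1 e2 e3 (e1 * e2) (e1 * e3) (e2 * e3) (e1 * e2 * e3) X).PosSemidef := by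
    intro e1 e2 e3 h1 h2 h3
    refine (comb_sign_psd h e1 e2 e3 h1 h2 h3).smul ?_
    have := H e1 e2 e3 h1 h2 h3
    exact_mod_cast (by positivity : (0:ℝ) ≤ _ / 8)
  have k1 := key 1 1 1 (Or.inl rfl) (Or.inl rfl) (Or.inl rfl)
  have k2 := key 1 1 (-1) (Or.inl rfl) (Or.inl rfl) (Or.inr rfl)
  have k3 := key 1 (-1) 1 (Or.inl rfl) (Or.inr rfl) (Or.inl rfl)
  have k4 := key 1 (-1) (-1) (Or.inl rfl) (Or.inr rfl) (Or.inr rfl)
  have k5 := key (-1) 1 1 (Or.inr rfl) (Or.inl rfl) (Or.inl rfl)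
  have k6 := key (-1) 1 (-1) (Or.inr rfl) (Or.inl rfl) (Or.inr rfl)
  have k7 := key (-1) (-1) 1 (Or.inr rfl) (Or.inr rfl) (Or.inl rfl)
  have k8 := key (-1) (-1) (-1) (Or.inr rfl) (Or.inr rfl) (Or.inr rfl)
  have hs := ((((((k1.add k2).add k3).add k4).add k5).add k6).add k7).add k8
  convert hs using 1
  simp only [comb]
  generalize P1 (P2 (P3 X)) = M0
  generalize P2 (P3 X) = M1
  generalize P1 (P3 X) = M2
  generalize P1 (P2 X) = M3
  generalize P3 X = M4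
  generalize P2 X = M5
  generalize P1 X = M6
  push_cast
  module
end J2

end Helper611.Dep
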