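import Pool.Agent.Helper611.Dep.Def

open scoped BigOperators Kronecker ComplexOrder
open Matrix

namespace Helper611.Dep



section J3
variable {α β γ : Type} [Fintype α] [Fintype β] [Fintype γ]
  [DecidableEq α] [DecidableEq β] [DecidableEq γ]

theorem one_var_aux {ι : Type} [Fintype ι] [DecidableEq ι] (i0 : ι) (t s : ℝ) (p : ι → ℝ)
    (hp : ∀ i, 0 ≤ p i) (hp1 : ∑ i, p i = 1) :
    ∑ i, max 0 (s - t * p i) ≤ ∑ i, max 0 (s - (if i = i0 then t else 0)) := by
  have h1 : ∀ i, max 0 (s - t * p i) ≤ p i * max 0 (s - t) + (1 - p i) * max 0 s := by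
    intro i
    have hpi : p i ≤ 1 := by
      rw [← hp1]
      exact Finset.single_le_sum (fun j _ => hp j) (Finset.mem_univ i)
    have h0 := hp i
    have h2 : 0 ≤ 1 - p i := sub_nonneg.2 hpi
    apply max_le
    · exact add_nonneg (mul_nonneg h0 (le_max_left _ _)) (mul_nonneg h2 (le_max_left _ _))
    · have a1 := mul_le_mul_of_nonneg_left (le_max_right 0 (s - t)) h0
      have a2 := mul_le_mul_of_nonneg_left (le_max_right 0 s) h2
      linarith
  have h3 : ∑ i, (p i * max 0 (s - t) + (1 - p i) * max 0 s) =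
      max 0 (s - t) + ((Fintype.card ι : ℝ) - 1) * max 0 s := by
    rw [Finset.sum_add_distrib, ← Finset.sum_mul, ← Finset.sum_mul, hp1,
      Finset.sum_sub_distrib, hp1]
    simp
  have h4 : ∑ i, max 0 (s - (if i = i0 then t else 0)) =
      max 0 (s - t) + ((Fintype.card ι : ℝ) - 1) * max 0 s := by
    have h5 : ∀ i, max 0 (s - (if i = i0 then t else 0)) =
        max 0 s + (if i = i0 then (max 0 (s - t) - max 0 s) else 0) := by
      intro i
      split_ifs <;> simp
    rw [Finset.sum_congr rfl fun i _ => h5 i, Finset.sum_add_distrib, Finset.sum_ite_eq']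
    simp
    ring
  rw [h4, ← h3]
  exact Finset.sum_le_sum fun i _ => h1 i

/-- scalar Jensen part: probability vectors p q r. -/
theorem commuting_scalar (a0 : α) (b0 : β) (g0 : γ) (t1 t2 t3 s : ℝ)
    (p : α → ℝ) (q : β → ℝ) (r : γ → ℝ)
    (hp : ∀ i, 0 ≤ p i) (hq : ∀ i, 0 ≤ q i) (hr : ∀ i, 0 ≤ r i)
    (hp1 : ∑ i, p i = 1) (hq1 : ∑ i, q i = 1) (hr1 : ∑ i, r i = 1) :
    ∑ z : (α × β) × γ, max 0 (s - (1 + t1 * p z.1.1 + t2 * q z.1.2 + t3 * r z.2)) ≤
    ∑ z : (α × β) × γ, max 0 (s - (1 + (if z.1.1 = a0 then t1 else 0)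
      + (if z.1.2 = b0 then t2 else 0) + (if z.2 = g0 then t3 else 0))) := by
  simp only [Fintype.sum_prod_type]
  have e1 : ∀ a b, ∑ c, max 0 (s - (1 + t1 * p a + t2 * q b + t3 * r c)) ≤
      ∑ c, max 0 (s - (1 + t1 * p a + t2 * q b + (if c = g0 then t3 else 0))) := by
    intro a b
    have h := one_var_aux g0 t3 (s - 1 - t1 * p a - t2 * q b) r hr hr1
    refine (le_of_eq ?_).trans (h.trans (le_of_eq ?_))
    · refine Finset.sum_congr rfl fun c _ => ?_
      congr 1; ring
    · refine Finset.sum_congr rfl fun c _ => ?_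
      congr 1; ring
  have e2 : ∀ a c, ∑ b, max 0 (s - (1 + t1 * p a + t2 * q b + (if c = g0 then t3 else 0))) ≤
      ∑ b, max 0 (s - (1 + t1 * p a + (if b = b0 then t2 else 0)
        + (if c = g0 then t3 else 0))) := by
    intro a c
    have h := one_var_aux b0 t2 (s - 1 - t1 * p a - (if c = g0 then t3 else 0)) q hq hq1
    refine (le_of_eq ?_).trans (h.trans (le_of_eq ?_))
    · refine Finset.sum_congr rfl fun b _ => ?_
      congr 1; ring
    · refine Finset.sum_congr rfl fun b _ => ?_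
      congr 1; ring
  have e3 : ∀ b c, ∑ a, max 0 (s - (1 + t1 * p a + (if b = b0 then t2 else 0)
        + (if c = g0 then t3 else 0))) ≤
      ∑ a, max 0 (s - (1 + (if a = a0 then t1 else 0) + (if b = b0 then t2 else 0)
        + (if c = g0 then t3 else 0))) := by
    intro b c
    have h := one_var_aux a0 t1 (s - 1 - (if b = b0 then t2 else 0) -
      (if c = g0 then t3 else 0)) p hp hp1
    refine (le_of_eq ?_).trans (h.trans (le_of_eq ?_))
    · refine Finset.sum_congr rfl fun a _ => ?_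
      congr 1; ring
    · refine Finset.sum_congr rfl fun a _ => ?_
      congr 1; ring
  calc ∑ a, ∑ b, ∑ c, max 0 (s - (1 + t1 * p a + t2 * q b + t3 * r c))
      ≤ ∑ a, ∑ b, ∑ c, max 0 (s - (1 + t1 * p a + t2 * q b + (if c = g0 then t3 else 0))) :=
        Finset.sum_le_sum fun a _ => Finset.sum_le_sum fun b _ => e1 a b
    _ = ∑ a, ∑ c, ∑ b, max 0 (s - (1 + t1 * p a + t2 * q b + (if c = g0 then t3 else 0))) :=
        Finset.sum_congr rfl fun a _ => Finset.sum_comm
    _ ≤ ∑ a, ∑ c, ∑ b, max 0 (s - (1 + t1 * p a + (if b = b0 then t2 else 0)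
        + (if c = g0 then t3 else 0))) :=
        Finset.sum_le_sum fun a _ => Finset.sum_le_sum fun c _ => e2 a c
    _ = ∑ c, ∑ b, ∑ a, max 0 (s - (1 + t1 * p a + (if b = b0 then t2 else 0)
        + (if c = g0 then t3 else 0))) := by
        rw [Finset.sum_comm]
        exact Finset.sum_congr rfl fun c _ => Finset.sum_comm
    _ ≤ ∑ c, ∑ b, ∑ a, max 0 (s - (1 + (if a = a0 then t1 else 0) + (if b = b0 then t2 else 0)
        + (if c = g0 then t3 else 0))) :=
        Finset.sum_le_sum fun c _ => Finset.sum_le_sum fun b _ => e3 b c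
    _ = ∑ a, ∑ b, ∑ c, max 0 (s - (1 + (if a = a0 then t1 else 0) + (if b = b0 then t2 else 0)
        + (if c = g0 then t3 else 0))) := by
        rw [Finset.sum_comm]
        have : ∀ b, ∑ c, ∑ a, max 0 (s - (1 + (if a = a0 then t1 else 0)
            + (if b = b0 then t2 else 0) + (if c = g0 then t3 else 0))) =
            ∑ a, ∑ c, max 0 (s - (1 + (if a = a0 then t1 else 0)
            + (if b = b0 then t2 else 0) + (if c = g0 then t3 else 0))) :=
          fun b => Finset.sum_comm
        rw [Finset.sum_congr rfl fun b _ => this b, Finset.sum_comm]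
end J3

end Helper611.Dep
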