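import Pool.Agent.Helper611.Dep.Def

open scoped BigOperators Kronecker ComplexOrder
open Matrix

namespace Helper611.Dep



section J3
variable {α β γ : Type} [Fintype α] [Fintype β] [Fintype γ]
  [DecidableEq α] [DecidableEq β] [DecidableEq γ]

theorem md31204_diag {ι : Type} [Fintype ι] [DecidableEq ι] {ρ : Matrix ι ι ℂ}
    (h : ρ.PosSemidef) (htr : ρ.trace = 1) :
    ∃ U ∈ Matrix.unitaryGroup ι ℂ, ∃ p : ι → ℝ, (∀ i, 0 ≤ p i) ∧ (∑ i, p i = 1) ∧
      ρ = U * Matrix.diagonal (fun i => ((p i : ℝ) : ℂ)) * Uᴴ := by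
  refine ⟨h.isHermitian.eigenvectorUnitary, h.isHermitian.eigenvectorUnitary.2,
    h.isHermitian.eigenvalues, h.eigenvalues_nonneg, ?_, ?_⟩
  · have h1 := h.isHermitian.trace_eq_sum_eigenvalues
    rw [htr] at h1
    have h2 : ((∑ i, h.isHermitian.eigenvalues i : ℝ) : ℂ) = 1 := by
      push_cast
      exact h1.symm
    exact_mod_cast h2
  · have h1 := h.isHermitian.spectral_theorem
    rw [Unitary.conjStarAlgAut_apply] at h1
    exact h1

/-- first marginal -/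
noncomputable def md31204_r1 (X : Matrix ((α × β) × γ) ((α × β) × γ) ℂ) : Matrix α α ℂ :=
  ∑ b : β, ∑ c : γ, X.submatrix (fun x => ((x, b), c)) (fun x => ((x, b), c))

/-- second marginal -/
noncomputable def md31204_r2 (X : Matrix ((α × β) × γ) ((α × β) × γ) ℂ) : Matrix β β ℂ :=
  ∑ a : α, ∑ c : γ, X.submatrix (fun x => ((a, x), c)) (fun x => ((a, x), c))

/-- third marginal -/
noncomputable def md31204_r3 (X : Matrix ((α × β) × γ) ((α × β) × γ) ℂ) : Matrix γ γ ℂ :=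
  ∑ a : α, ∑ b : β, X.submatrix (fun x => ((a, b), x)) (fun x => ((a, b), x))

theorem md31204_r1_apply (X : Matrix ((α × β) × γ) ((α × β) × γ) ℂ) (x y : α) :
    md31204_r1 X x y = ∑ b : β, ∑ c : γ, X ((x, b), c) ((y, b), c) := by
  unfold md31204_r1
  simp only [Matrix.sum_apply, Matrix.submatrix_apply]

theorem md31204_r2_apply (X : Matrix ((α × β) × γ) ((α × β) × γ) ℂ) (x y : β) :
    md31204_r2 X x y = ∑ a : α, ∑ c : γ, X ((a, x), c) ((a, y), c) := by
  unfold md31204_r2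
  simp only [Matrix.sum_apply, Matrix.submatrix_apply]

theorem md31204_r3_apply (X : Matrix ((α × β) × γ) ((α × β) × γ) ℂ) (x y : γ) :
    md31204_r3 X x y = ∑ a : α, ∑ b : β, X ((a, b), x) ((a, b), y) := by
  unfold md31204_r3
  simp only [Matrix.sum_apply, Matrix.submatrix_apply]

theorem md31204_trace (X : Matrix ((α × β) × γ) ((α × β) × γ) ℂ) :
    X.trace = ∑ a : α, ∑ b : β, ∑ c : γ, X ((a, b), c) ((a, b), c) := by
  unfold Matrix.trace
  rw [Fintype.sum_prod_type, Fintype.sum_prod_type]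
  rfl

theorem md31204_t1 (X : Matrix ((α × β) × γ) ((α × β) × γ) ℂ) :
    (md31204_r1 X).trace = X.trace := by
  rw [md31204_trace]
  unfold Matrix.trace
  refine Finset.sum_congr rfl fun a _ => ?_
  rw [Matrix.diag_apply, md31204_r1_apply]

theorem md31204_t2 (X : Matrix ((α × β) × γ) ((α × β) × γ) ℂ) :
    (md31204_r2 X).trace = X.trace := by
  rw [md31204_trace, Finset.sum_comm]
  unfold Matrix.trace
  refine Finset.sum_congr rfl fun b _ => ?_
  rw [Matrix.diag_apply, md31204_r2_apply]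

theorem md31204_t3 (X : Matrix ((α × β) × γ) ((α × β) × γ) ℂ) :
    (md31204_r3 X).trace = X.trace := by
  rw [md31204_trace]
  unfold Matrix.trace
  simp only [Matrix.diag_apply, md31204_r3_apply]
  rw [Finset.sum_comm]
  refine Finset.sum_congr rfl fun a _ => ?_
  rw [Finset.sum_comm]

theorem md31204_P23 (X : Matrix ((α × β) × γ) ((α × β) × γ) ℂ) :
    P2 (P3 X) = (md31204_r1 X ⊗ₖ (1 : Matrix β β ℂ)) ⊗ₖ (1 : Matrix γ γ ℂ) := by
  ext x y
  rw [Matrix.kronecker_apply, Matrix.kronecker_apply, md31204_r1_apply]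
  simp only [P2, P3, Matrix.of_apply, Matrix.one_apply]
  by_cases h1 : x.1.2 = y.1.2
  · by_cases h2 : x.2 = y.2
    · simp [h1, h2]
    · simp [h1, h2]
  · simp [h1]

theorem md31204_P13 (X : Matrix ((α × β) × γ) ((α × β) × γ) ℂ) :
    P1 (P3 X) = ((1 : Matrix α α ℂ) ⊗ₖ md31204_r2 X) ⊗ₖ (1 : Matrix γ γ ℂ) := by
  ext x y
  rw [Matrix.kronecker_apply, Matrix.kronecker_apply, md31204_r2_apply]
  simp only [P1, P3, Matrix.of_apply, Matrix.one_apply]
  by_cases h1 : x.1.1 = y.1.1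
  · by_cases h2 : x.2 = y.2
    · simp [h1, h2]
    · simp [h1, h2]
  · simp [h1]

theorem md31204_P12 (X : Matrix ((α × β) × γ) ((α × β) × γ) ℂ) :
    P1 (P2 X) = ((1 : Matrix α α ℂ) ⊗ₖ (1 : Matrix β β ℂ)) ⊗ₖ md31204_r3 X := by
  ext x y
  rw [Matrix.kronecker_apply, Matrix.kronecker_apply, md31204_r3_apply]
  simp only [P1, P2, Matrix.of_apply, Matrix.one_apply]
  by_cases h1 : x.1.1 = y.1.1
  · by_cases h2 : x.1.2 = y.1.2
    · simp [h1, h2]
    · simp [h1, h2]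
  · simp [h1]

theorem md31204_P123 (X : Matrix ((α × β) × γ) ((α × β) × γ) ℂ) (htr : X.trace = 1) :
    P1 (P2 (P3 X)) = 1 := by
  ext x y
  rw [md31204_P23]
  rw [← md31204_t1] at htr
  unfold Matrix.trace at htr
  simp only [Matrix.diag_apply] at htr
  simp only [P1, Matrix.of_apply, Matrix.kronecker_apply, Matrix.one_apply]
  rw [← Finset.sum_mul, ← Finset.sum_mul, htr]
  have hxy : x = y ↔ x.1.1 = y.1.1 ∧ x.1.2 = y.1.2 ∧ x.2 = y.2 := by
    rw [Prod.ext_iff, Prod.ext_iff, and_assoc]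
  by_cases h1 : x.1.1 = y.1.1
  · by_cases h2 : x.1.2 = y.1.2
    · by_cases h3 : x.2 = y.2
      · rw [if_pos (hxy.2 ⟨h1, h2, h3⟩)]
        simp [h1, h2, h3]
      · rw [if_neg fun h => h3 (hxy.1 h).2.2]
        simp [h3]
    · rw [if_neg fun h => h2 (hxy.1 h).2.1]
      simp [h2]
  · rw [if_neg fun h => h1 (hxy.1 h).1]
    simp [h1]

/-- the three one-site marginals are simultaneously diagonal in a product basis. -/
theorem marginals_diag {X : Matrix ((α × β) × γ) ((α × β) × γ) ℂ} (h : X.PosSemidef)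
    (htr : X.trace = 1) :
    ∃ W ∈ Matrix.unitaryGroup ((α × β) × γ) ℂ, ∃ (p : α → ℝ) (q : β → ℝ) (r : γ → ℝ),
      (∀ i, 0 ≤ p i) ∧ (∀ i, 0 ≤ q i) ∧ (∀ i, 0 ≤ r i) ∧
      (∑ i, p i = 1) ∧ (∑ i, q i = 1) ∧ (∑ i, r i = 1) ∧
      P1 (P2 (P3 X)) = 1 ∧
      P2 (P3 X) = W * Matrix.diagonal (fun z => ((p z.1.1 : ℝ) : ℂ)) * Wᴴ ∧
      P1 (P3 X) = W * Matrix.diagonal (fun z => ((q z.1.2 : ℝ) : ℂ)) * Wᴴ ∧
      P1 (P2 X) = W * Matrix.diagonal (fun z => ((r z.2 : ℝ) : ℂ)) * Wᴴ := by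
  have hp1 : (md31204_r1 X).PosSemidef :=
    Matrix.posSemidef_sum _ fun b _ => Matrix.posSemidef_sum _ fun c _ => h.submatrix _
  have hp2 : (md31204_r2 X).PosSemidef :=
    Matrix.posSemidef_sum _ fun b _ => Matrix.posSemidef_sum _ fun c _ => h.submatrix _
  have hp3 : (md31204_r3 X).PosSemidef :=
    Matrix.posSemidef_sum _ fun b _ => Matrix.posSemidef_sum _ fun c _ => h.submatrix _
  obtain ⟨U1, hU1, p, hp0, hps, hpd⟩ := md31204_diag hp1 ((md31204_t1 X).trans htr)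
  obtain ⟨U2, hU2, q, hq0, hqs, hqd⟩ := md31204_diag hp2 ((md31204_t2 X).trans htr)
  obtain ⟨U3, hU3, r, hr0, hrs, hrd⟩ := md31204_diag hp3 ((md31204_t3 X).trans htr)
  have u1 : U1 * U1ᴴ = 1 := Matrix.mem_unitaryGroup_iff.1 hU1
  have u2 : U2 * U2ᴴ = 1 := Matrix.mem_unitaryGroup_iff.1 hU2
  have u3 : U3 * U3ᴴ = 1 := Matrix.mem_unitaryGroup_iff.1 hU3
  refine ⟨(U1 ⊗ₖ U2) ⊗ₖ U3,
    Matrix.kronecker_mem_unitary (Matrix.kronecker_mem_unitary hU1 hU2) hU3, p, q, r,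
    hp0, hq0, hr0, hps, hqs, hrs, md31204_P123 X htr, ?_, ?_, ?_⟩
  · have e : Matrix.diagonal (fun z : (α × β) × γ => ((p z.1.1 : ℝ) : ℂ)) =
        (Matrix.diagonal (fun i => ((p i : ℝ) : ℂ)) ⊗ₖ (1 : Matrix β β ℂ)) ⊗ₖ
          (1 : Matrix γ γ ℂ) := by
      rw [← Matrix.diagonal_one, ← Matrix.diagonal_one, Matrix.diagonal_kronecker_diagonal,
        Matrix.diagonal_kronecker_diagonal]
      simp
    rw [e, md31204_P23, Matrix.conjTranspose_kronecker, Matrix.conjTranspose_kronecker,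
      ← Matrix.mul_kronecker_mul, ← Matrix.mul_kronecker_mul, ← Matrix.mul_kronecker_mul,
      ← Matrix.mul_kronecker_mul, mul_one, mul_one, u2, u3, ← hpd]
  · have e : Matrix.diagonal (fun z : (α × β) × γ => ((q z.1.2 : ℝ) : ℂ)) =
        ((1 : Matrix α α ℂ) ⊗ₖ Matrix.diagonal (fun i => ((q i : ℝ) : ℂ))) ⊗ₖ
          (1 : Matrix γ γ ℂ) := by
      rw [← Matrix.diagonal_one, ← Matrix.diagonal_one, Matrix.diagonal_kronecker_diagonal,
        Matrix.diagonal_kronecker_diagonal]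
      simp
    rw [e, md31204_P13, Matrix.conjTranspose_kronecker, Matrix.conjTranspose_kronecker,
      ← Matrix.mul_kronecker_mul, ← Matrix.mul_kronecker_mul, ← Matrix.mul_kronecker_mul,
      ← Matrix.mul_kronecker_mul, mul_one, mul_one, u1, u3, ← hqd]
  · have e : Matrix.diagonal (fun z : (α × β) × γ => ((r z.2 : ℝ) : ℂ)) =
        ((1 : Matrix α α ℂ) ⊗ₖ (1 : Matrix β β ℂ)) ⊗ₖ
          Matrix.diagonal (fun i => ((r i : ℝ) : ℂ)) := by
      rw [← Matrix.diagonal_one, ← Matrix.diagonal_one, Matrix.diagonal_kronecker_diagonal,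
        Matrix.diagonal_kronecker_diagonal]
      simp
    rw [e, md31204_P12, Matrix.conjTranspose_kronecker, Matrix.conjTranspose_kronecker,
      ← Matrix.mul_kronecker_mul, ← Matrix.mul_kronecker_mul, ← Matrix.mul_kronecker_mul,
      ← Matrix.mul_kronecker_mul, mul_one, mul_one, u1, u2, ← hrd]
end J3

end Helper611.Dep
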