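import Pool.Agent.Helper611.Dep.Def

open scoped BigOperators Kronecker ComplexOrder
open Matrix

namespace Helper611.Dep



theorem sSL_x3a (t1 t2 t3 s : ℝ) (h1 : 0 ≤ t1) (h12 : t1 ≤ t2) (h23 : t2 ≤ t3) (hm : t1 ≤ 1) (hc : t1 + t2 < t3) (hd : t3 ≤ t1 + t2 + t1 * t2)
    (hs : s = 1 + t3) :
    (0 ≤ max 0 ((1 + t1) * (1 + t2) * (1 + t3) - s) - max 0 ((1 + t1) * (1 + t2) - s)
        - max 0 ((1 + t1) * (1 + t3) - s) - max 0 ((1 + t2) * (1 + t3) - s)
        + max 0 (1 + t1 - s) + max 0 (1 + t2 - s) + max 0 (1 + t3 - s) - max 0 (1 - s) ∧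
     0 ≤ 8 * max 0 (s - 1) - 4 * (max 0 (s - (1 + t1)) + max 0 (s - (1 + t2)) + max 0 (s - (1 + t3)))
        + 2 * (max 0 (s - (1 + t1) * (1 + t2)) + max 0 (s - (1 + t1) * (1 + t3))
          + max 0 (s - (1 + t2) * (1 + t3))) - max 0 (s - (1 + t1) * (1 + t2) * (1 + t3))) := by
  have h2 : 0 ≤ t2 := h1.trans h12
  have h3 : 0 ≤ t3 := h2.trans h23
  have p12 : 0 ≤ t1 * t2 := mul_nonneg h1 h2
  have p13 : 0 ≤ t1 * t3 := mul_nonneg h1 h3
  have p23 : 0 ≤ t2 * t3 := mul_nonneg h2 h3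
  have p123 : 0 ≤ t1 * t2 * t3 := mul_nonneg p12 h3
  have q1 : 0 ≤ t1 * (t3 - t2) := mul_nonneg h1 (sub_nonneg.2 h23)
  have q2 : 0 ≤ (t2 - t1) * t3 := mul_nonneg (sub_nonneg.2 h12) h3
  have q3 : 0 ≤ t2 * (t3 - t1) := mul_nonneg h2 (by linarith)
  have q4 : 0 ≤ (1 - t1) * t2 := mul_nonneg (sub_nonneg.2 hm) h2
  have q5 : 0 ≤ (1 - t1) * t3 := mul_nonneg (sub_nonneg.2 hm) h3
  have e0 : max 0 ((1 + t1) * (1 + t2) * (1 + t3) - s) = (1 + t1) * (1 + t2) * (1 + t3) - s := max_eq_right (by rw [hs]; linarith)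
  have e1 : max 0 ((1 + t1) * (1 + t2) - s) = (1 + t1) * (1 + t2) - s := max_eq_right (by rw [hs]; linarith)
  have e2 : max 0 ((1 + t1) * (1 + t3) - s) = (1 + t1) * (1 + t3) - s := max_eq_right (by rw [hs]; linarith)
  have e3 : max 0 ((1 + t2) * (1 + t3) - s) = (1 + t2) * (1 + t3) - s := max_eq_right (by rw [hs]; linarith)
  have e4 : max 0 (1 + t1 - s) = 0 := max_eq_left (by rw [hs]; linarith)
  have e5 : max 0 (1 + t2 - s) = 0 := max_eq_left (by rw [hs]; linarith)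
  have e6 : max 0 (1 + t3 - s) = 0 := max_eq_left (by rw [hs]; linarith)
  have e7 : max 0 (1 - s) = 0 := max_eq_left (by rw [hs]; linarith)
  have e8 : max 0 (s - 1) = s - 1 := max_eq_right (by rw [hs]; linarith)
  have e9 : max 0 (s - (1 + t1)) = s - (1 + t1) := max_eq_right (by rw [hs]; linarith)
  have e10 : max 0 (s - (1 + t2)) = s - (1 + t2) := max_eq_right (by rw [hs]; linarith)
  have e11 : max 0 (s - (1 + t3)) = 0 := max_eq_left (by rw [hs]; linarith)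
  have e12 : max 0 (s - (1 + t1) * (1 + t2)) = 0 := max_eq_left (by rw [hs]; linarith)
  have e13 : max 0 (s - (1 + t1) * (1 + t3)) = 0 := max_eq_left (by rw [hs]; linarith)
  have e14 : max 0 (s - (1 + t2) * (1 + t3)) = 0 := max_eq_left (by rw [hs]; linarith)
  have e15 : max 0 (s - (1 + t1) * (1 + t2) * (1 + t3)) = 0 := max_eq_left (by rw [hs]; linarith)
  rw [e0, e1, e2, e3, e4, e5, e6, e7, e8, e9, e10, e11, e12, e13, e14, e15]
  rw [hs]
  constructor <;> nlinarith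

theorem sSL_x3b (t1 t2 t3 s : ℝ) (h1 : 0 ≤ t1) (h12 : t1 ≤ t2) (h23 : t2 ≤ t3) (hm : t1 ≤ 1) (hc : t1 + t2 + t1 * t2 < t3)
    (hs : s = 1 + t3) :
    (0 ≤ max 0 ((1 + t1) * (1 + t2) * (1 + t3) - s) - max 0 ((1 + t1) * (1 + t2) - s)
        - max 0 ((1 + t1) * (1 + t3) - s) - max 0 ((1 + t2) * (1 + t3) - s)
        + max 0 (1 + t1 - s) + max 0 (1 + t2 - s) + max 0 (1 + t3 - s) - max 0 (1 - s) ∧
     0 ≤ 8 * max 0 (s - 1) - 4 * (max 0 (s - (1 + t1)) + max 0 (s - (1 + t2)) + max 0 (s - (1 + t3)))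
        + 2 * (max 0 (s - (1 + t1) * (1 + t2)) + max 0 (s - (1 + t1) * (1 + t3))
          + max 0 (s - (1 + t2) * (1 + t3))) - max 0 (s - (1 + t1) * (1 + t2) * (1 + t3))) := by
  have h2 : 0 ≤ t2 := h1.trans h12
  have h3 : 0 ≤ t3 := h2.trans h23
  have p12 : 0 ≤ t1 * t2 := mul_nonneg h1 h2
  have p13 : 0 ≤ t1 * t3 := mul_nonneg h1 h3
  have p23 : 0 ≤ t2 * t3 := mul_nonneg h2 h3
  have p123 : 0 ≤ t1 * t2 * t3 := mul_nonneg p12 h3
  have q1 : 0 ≤ t1 * (t3 - t2) := mul_nonneg h1 (sub_nonneg.2 h23)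
  have q2 : 0 ≤ (t2 - t1) * t3 := mul_nonneg (sub_nonneg.2 h12) h3
  have q3 : 0 ≤ t2 * (t3 - t1) := mul_nonneg h2 (by linarith)
  have q4 : 0 ≤ (1 - t1) * t2 := mul_nonneg (sub_nonneg.2 hm) h2
  have q5 : 0 ≤ (1 - t1) * t3 := mul_nonneg (sub_nonneg.2 hm) h3
  have e0 : max 0 ((1 + t1) * (1 + t2) * (1 + t3) - s) = (1 + t1) * (1 + t2) * (1 + t3) - s := max_eq_right (by rw [hs]; linarith)
  have e1 : max 0 ((1 + t1) * (1 + t2) - s) = 0 := max_eq_left (by rw [hs]; linarith)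
  have e2 : max 0 ((1 + t1) * (1 + t3) - s) = (1 + t1) * (1 + t3) - s := max_eq_right (by rw [hs]; linarith)
  have e3 : max 0 ((1 + t2) * (1 + t3) - s) = (1 + t2) * (1 + t3) - s := max_eq_right (by rw [hs]; linarith)
  have e4 : max 0 (1 + t1 - s) = 0 := max_eq_left (by rw [hs]; linarith)
  have e5 : max 0 (1 + t2 - s) = 0 := max_eq_left (by rw [hs]; linarith)
  have e6 : max 0 (1 + t3 - s) = 0 := max_eq_left (by rw [hs]; linarith)
  have e7 : max 0 (1 - s) = 0 := max_eq_left (by rw [hs]; linarith)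
  have e8 : max 0 (s - 1) = s - 1 := max_eq_right (by rw [hs]; linarith)
  have e9 : max 0 (s - (1 + t1)) = s - (1 + t1) := max_eq_right (by rw [hs]; linarith)
  have e10 : max 0 (s - (1 + t2)) = s - (1 + t2) := max_eq_right (by rw [hs]; linarith)
  have e11 : max 0 (s - (1 + t3)) = 0 := max_eq_left (by rw [hs]; linarith)
  have e12 : max 0 (s - (1 + t1) * (1 + t2)) = s - (1 + t1) * (1 + t2) := max_eq_right (by rw [hs]; linarith)
  have e13 : max 0 (s - (1 + t1) * (1 + t3)) = 0 := max_eq_left (by rw [hs]; linarith)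
  have e14 : max 0 (s - (1 + t2) * (1 + t3)) = 0 := max_eq_left (by rw [hs]; linarith)
  have e15 : max 0 (s - (1 + t1) * (1 + t2) * (1 + t3)) = 0 := max_eq_left (by rw [hs]; linarith)
  rw [e0, e1, e2, e3, e4, e5, e6, e7, e8, e9, e10, e11, e12, e13, e14, e15]
  rw [hs]
  constructor <;> nlinarith

theorem sSL_x12a (t1 t2 t3 s : ℝ) (h1 : 0 ≤ t1) (h12 : t1 ≤ t2) (h23 : t2 ≤ t3) (hm : t1 ≤ 1) (hc : t3 ≤ t1 + t2 + t1 * t2)
    (hs : s = (1 + t1) * (1 + t2)) :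
    (0 ≤ max 0 ((1 + t1) * (1 + t2) * (1 + t3) - s) - max 0 ((1 + t1) * (1 + t2) - s)
        - max 0 ((1 + t1) * (1 + t3) - s) - max 0 ((1 + t2) * (1 + t3) - s)
        + max 0 (1 + t1 - s) + max 0 (1 + t2 - s) + max 0 (1 + t3 - s) - max 0 (1 - s) ∧
     0 ≤ 8 * max 0 (s - 1) - 4 * (max 0 (s - (1 + t1)) + max 0 (s - (1 + t2)) + max 0 (s - (1 + t3)))
        + 2 * (max 0 (s - (1 + t1) * (1 + t2)) + max 0 (s - (1 + t1) * (1 + t3))
          + max 0 (s - (1 + t2) * (1 + t3))) - max 0 (s - (1 + t1) * (1 + t2) * (1 + t3))) := by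
  have h2 : 0 ≤ t2 := h1.trans h12
  have h3 : 0 ≤ t3 := h2.trans h23
  have p12 : 0 ≤ t1 * t2 := mul_nonneg h1 h2
  have p13 : 0 ≤ t1 * t3 := mul_nonneg h1 h3
  have p23 : 0 ≤ t2 * t3 := mul_nonneg h2 h3
  have p123 : 0 ≤ t1 * t2 * t3 := mul_nonneg p12 h3
  have q1 : 0 ≤ t1 * (t3 - t2) := mul_nonneg h1 (sub_nonneg.2 h23)
  have q2 : 0 ≤ (t2 - t1) * t3 := mul_nonneg (sub_nonneg.2 h12) h3
  have q3 : 0 ≤ t2 * (t3 - t1) := mul_nonneg h2 (by linarith)
  have q4 : 0 ≤ (1 - t1) * t2 := mul_nonneg (sub_nonneg.2 hm) h2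
  have q5 : 0 ≤ (1 - t1) * t3 := mul_nonneg (sub_nonneg.2 hm) h3
  have e0 : max 0 ((1 + t1) * (1 + t2) * (1 + t3) - s) = (1 + t1) * (1 + t2) * (1 + t3) - s := max_eq_right (by rw [hs]; linarith)
  have e1 : max 0 ((1 + t1) * (1 + t2) - s) = 0 := max_eq_left (by rw [hs]; linarith)
  have e2 : max 0 ((1 + t1) * (1 + t3) - s) = (1 + t1) * (1 + t3) - s := max_eq_right (by rw [hs]; linarith)
  have e3 : max 0 ((1 + t2) * (1 + t3) - s) = (1 + t2) * (1 + t3) - s := max_eq_right (by rw [hs]; linarith)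
  have e4 : max 0 (1 + t1 - s) = 0 := max_eq_left (by rw [hs]; linarith)
  have e5 : max 0 (1 + t2 - s) = 0 := max_eq_left (by rw [hs]; linarith)
  have e6 : max 0 (1 + t3 - s) = 0 := max_eq_left (by rw [hs]; linarith)
  have e7 : max 0 (1 - s) = 0 := max_eq_left (by rw [hs]; linarith)
  have e8 : max 0 (s - 1) = s - 1 := max_eq_right (by rw [hs]; linarith)
  have e9 : max 0 (s - (1 + t1)) = s - (1 + t1) := max_eq_right (by rw [hs]; linarith)
  have e10 : max 0 (s - (1 + t2)) = s - (1 + t2) := max_eq_right (by rw [hs]; linarith)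
  have e11 : max 0 (s - (1 + t3)) = s - (1 + t3) := max_eq_right (by rw [hs]; linarith)
  have e12 : max 0 (s - (1 + t1) * (1 + t2)) = 0 := max_eq_left (by rw [hs]; linarith)
  have e13 : max 0 (s - (1 + t1) * (1 + t3)) = 0 := max_eq_left (by rw [hs]; linarith)
  have e14 : max 0 (s - (1 + t2) * (1 + t3)) = 0 := max_eq_left (by rw [hs]; linarith)
  have e15 : max 0 (s - (1 + t1) * (1 + t2) * (1 + t3)) = 0 := max_eq_left (by rw [hs]; linarith)
  rw [e0, e1, e2, e3, e4, e5, e6, e7, e8, e9, e10, e11, e12, e13, e14, e15]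
  rw [hs]
  constructor <;> nlinarith

theorem sSL_x12b (t1 t2 t3 s : ℝ) (h1 : 0 ≤ t1) (h12 : t1 ≤ t2) (h23 : t2 ≤ t3) (hm : t1 ≤ 1) (hc : t1 + t2 + t1 * t2 < t3)
    (hs : s = (1 + t1) * (1 + t2)) :
    (0 ≤ max 0 ((1 + t1) * (1 + t2) * (1 + t3) - s) - max 0 ((1 + t1) * (1 + t2) - s)
        - max 0 ((1 + t1) * (1 + t3) - s) - max 0 ((1 + t2) * (1 + t3) - s)
        + max 0 (1 + t1 - s) + max 0 (1 + t2 - s) + max 0 (1 + t3 - s) - max 0 (1 - s) ∧
     0 ≤ 8 * max 0 (s - 1) - 4 * (max 0 (s - (1 + t1)) + max 0 (s - (1 + t2)) + max 0 (s - (1 + t3)))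
        + 2 * (max 0 (s - (1 + t1) * (1 + t2)) + max 0 (s - (1 + t1) * (1 + t3))
          + max 0 (s - (1 + t2) * (1 + t3))) - max 0 (s - (1 + t1) * (1 + t2) * (1 + t3))) := by
  have h2 : 0 ≤ t2 := h1.trans h12
  have h3 : 0 ≤ t3 := h2.trans h23
  have p12 : 0 ≤ t1 * t2 := mul_nonneg h1 h2
  have p13 : 0 ≤ t1 * t3 := mul_nonneg h1 h3
  have p23 : 0 ≤ t2 * t3 := mul_nonneg h2 h3
  have p123 : 0 ≤ t1 * t2 * t3 := mul_nonneg p12 h3
  have q1 : 0 ≤ t1 * (t3 - t2) := mul_nonneg h1 (sub_nonneg.2 h23)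
  have q2 : 0 ≤ (t2 - t1) * t3 := mul_nonneg (sub_nonneg.2 h12) h3
  have q3 : 0 ≤ t2 * (t3 - t1) := mul_nonneg h2 (by linarith)
  have q4 : 0 ≤ (1 - t1) * t2 := mul_nonneg (sub_nonneg.2 hm) h2
  have q5 : 0 ≤ (1 - t1) * t3 := mul_nonneg (sub_nonneg.2 hm) h3
  have e0 : max 0 ((1 + t1) * (1 + t2) * (1 + t3) - s) = (1 + t1) * (1 + t2) * (1 + t3) - s := max_eq_right (by rw [hs]; linarith)
  have e1 : max 0 ((1 + t1) * (1 + t2) - s) = 0 := max_eq_left (by rw [hs]; linarith)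
  have e2 : max 0 ((1 + t1) * (1 + t3) - s) = (1 + t1) * (1 + t3) - s := max_eq_right (by rw [hs]; linarith)
  have e3 : max 0 ((1 + t2) * (1 + t3) - s) = (1 + t2) * (1 + t3) - s := max_eq_right (by rw [hs]; linarith)
  have e4 : max 0 (1 + t1 - s) = 0 := max_eq_left (by rw [hs]; linarith)
  have e5 : max 0 (1 + t2 - s) = 0 := max_eq_left (by rw [hs]; linarith)
  have e6 : max 0 (1 + t3 - s) = 1 + t3 - s := max_eq_right (by rw [hs]; linarith)
  have e7 : max 0 (1 - s) = 0 := max_eq_left (by rw [hs]; linarith)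
  have e8 : max 0 (s - 1) = s - 1 := max_eq_right (by rw [hs]; linarith)
  have e9 : max 0 (s - (1 + t1)) = s - (1 + t1) := max_eq_right (by rw [hs]; linarith)
  have e10 : max 0 (s - (1 + t2)) = s - (1 + t2) := max_eq_right (by rw [hs]; linarith)
  have e11 : max 0 (s - (1 + t3)) = 0 := max_eq_left (by rw [hs]; linarith)
  have e12 : max 0 (s - (1 + t1) * (1 + t2)) = 0 := max_eq_left (by rw [hs]; linarith)
  have e13 : max 0 (s - (1 + t1) * (1 + t3)) = 0 := max_eq_left (by rw [hs]; linarith)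
  have e14 : max 0 (s - (1 + t2) * (1 + t3)) = 0 := max_eq_left (by rw [hs]; linarith)
  have e15 : max 0 (s - (1 + t1) * (1 + t2) * (1 + t3)) = 0 := max_eq_left (by rw [hs]; linarith)
  rw [e0, e1, e2, e3, e4, e5, e6, e7, e8, e9, e10, e11, e12, e13, e14, e15]
  rw [hs]
  constructor <;> nlinarith

theorem sSL_x13 (t1 t2 t3 s : ℝ) (h1 : 0 ≤ t1) (h12 : t1 ≤ t2) (h23 : t2 ≤ t3) (hm : t1 ≤ 1) 
    (hs : s = (1 + t1) * (1 + t3)) :
    (0 ≤ max 0 ((1 + t1) * (1 + t2) * (1 + t3) - s) - max 0 ((1 + t1) * (1 + t2) - s)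
        - max 0 ((1 + t1) * (1 + t3) - s) - max 0 ((1 + t2) * (1 + t3) - s)
        + max 0 (1 + t1 - s) + max 0 (1 + t2 - s) + max 0 (1 + t3 - s) - max 0 (1 - s) ∧
     0 ≤ 8 * max 0 (s - 1) - 4 * (max 0 (s - (1 + t1)) + max 0 (s - (1 + t2)) + max 0 (s - (1 + t3)))
        + 2 * (max 0 (s - (1 + t1) * (1 + t2)) + max 0 (s - (1 + t1) * (1 + t3))
          + max 0 (s - (1 + t2) * (1 + t3))) - max 0 (s - (1 + t1) * (1 + t2) * (1 + t3))) := by
  have h2 : 0 ≤ t2 := h1.trans h12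
  have h3 : 0 ≤ t3 := h2.trans h23
  have p12 : 0 ≤ t1 * t2 := mul_nonneg h1 h2
  have p13 : 0 ≤ t1 * t3 := mul_nonneg h1 h3
  have p23 : 0 ≤ t2 * t3 := mul_nonneg h2 h3
  have p123 : 0 ≤ t1 * t2 * t3 := mul_nonneg p12 h3
  have q1 : 0 ≤ t1 * (t3 - t2) := mul_nonneg h1 (sub_nonneg.2 h23)
  have q2 : 0 ≤ (t2 - t1) * t3 := mul_nonneg (sub_nonneg.2 h12) h3
  have q3 : 0 ≤ t2 * (t3 - t1) := mul_nonneg h2 (by linarith)
  have q4 : 0 ≤ (1 - t1) * t2 := mul_nonneg (sub_nonneg.2 hm) h2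
  have q5 : 0 ≤ (1 - t1) * t3 := mul_nonneg (sub_nonneg.2 hm) h3
  have e0 : max 0 ((1 + t1) * (1 + t2) * (1 + t3) - s) = (1 + t1) * (1 + t2) * (1 + t3) - s := max_eq_right (by rw [hs]; linarith)
  have e1 : max 0 ((1 + t1) * (1 + t2) - s) = 0 := max_eq_left (by rw [hs]; linarith)
  have e2 : max 0 ((1 + t1) * (1 + t3) - s) = 0 := max_eq_left (by rw [hs]; linarith)
  have e3 : max 0 ((1 + t2) * (1 + t3) - s) = (1 + t2) * (1 + t3) - s := max_eq_right (by rw [hs]; linarith)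
  have e4 : max 0 (1 + t1 - s) = 0 := max_eq_left (by rw [hs]; linarith)
  have e5 : max 0 (1 + t2 - s) = 0 := max_eq_left (by rw [hs]; linarith)
  have e6 : max 0 (1 + t3 - s) = 0 := max_eq_left (by rw [hs]; linarith)
  have e7 : max 0 (1 - s) = 0 := max_eq_left (by rw [hs]; linarith)
  have e8 : max 0 (s - 1) = s - 1 := max_eq_right (by rw [hs]; linarith)
  have e9 : max 0 (s - (1 + t1)) = s - (1 + t1) := max_eq_right (by rw [hs]; linarith)
  have e10 : max 0 (s - (1 + t2)) = s - (1 + t2) := max_eq_right (by rw [hs]; linarith)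
  have e11 : max 0 (s - (1 + t3)) = s - (1 + t3) := max_eq_right (by rw [hs]; linarith)
  have e12 : max 0 (s - (1 + t1) * (1 + t2)) = s - (1 + t1) * (1 + t2) := max_eq_right (by rw [hs]; linarith)
  have e13 : max 0 (s - (1 + t1) * (1 + t3)) = 0 := max_eq_left (by rw [hs]; linarith)
  have e14 : max 0 (s - (1 + t2) * (1 + t3)) = 0 := max_eq_left (by rw [hs]; linarith)
  have e15 : max 0 (s - (1 + t1) * (1 + t2) * (1 + t3)) = 0 := max_eq_left (by rw [hs]; linarith)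
  rw [e0, e1, e2, e3, e4, e5, e6, e7, e8, e9, e10, e11, e12, e13, e14, e15]
  rw [hs]
  constructor <;> nlinarith

theorem sSL_x23 (t1 t2 t3 s : ℝ) (h1 : 0 ≤ t1) (h12 : t1 ≤ t2) (h23 : t2 ≤ t3) (hm : t1 ≤ 1) 
    (hs : s = (1 + t2) * (1 + t3)) :
    (0 ≤ max 0 ((1 + t1) * (1 + t2) * (1 + t3) - s) - max 0 ((1 + t1) * (1 + t2) - s)
        - max 0 ((1 + t1) * (1 + t3) - s) - max 0 ((1 + t2) * (1 + t3) - s)
        + max 0 (1 + t1 - s) + max 0 (1 + t2 - s) + max 0 (1 + t3 - s) - max 0 (1 - s) ∧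
     0 ≤ 8 * max 0 (s - 1) - 4 * (max 0 (s - (1 + t1)) + max 0 (s - (1 + t2)) + max 0 (s - (1 + t3)))
        + 2 * (max 0 (s - (1 + t1) * (1 + t2)) + max 0 (s - (1 + t1) * (1 + t3))
          + max 0 (s - (1 + t2) * (1 + t3))) - max 0 (s - (1 + t1) * (1 + t2) * (1 + t3))) := by
  have h2 : 0 ≤ t2 := h1.trans h12
  have h3 : 0 ≤ t3 := h2.trans h23
  have p12 : 0 ≤ t1 * t2 := mul_nonneg h1 h2
  have p13 : 0 ≤ t1 * t3 := mul_nonneg h1 h3
  have p23 : 0 ≤ t2 * t3 := mul_nonneg h2 h3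
  have p123 : 0 ≤ t1 * t2 * t3 := mul_nonneg p12 h3
  have q1 : 0 ≤ t1 * (t3 - t2) := mul_nonneg h1 (sub_nonneg.2 h23)
  have q2 : 0 ≤ (t2 - t1) * t3 := mul_nonneg (sub_nonneg.2 h12) h3
  have q3 : 0 ≤ t2 * (t3 - t1) := mul_nonneg h2 (by linarith)
  have q4 : 0 ≤ (1 - t1) * t2 := mul_nonneg (sub_nonneg.2 hm) h2
  have q5 : 0 ≤ (1 - t1) * t3 := mul_nonneg (sub_nonneg.2 hm) h3
  have e0 : max 0 ((1 + t1) * (1 + t2) * (1 + t3) - s) = (1 + t1) * (1 + t2) * (1 + t3) - s := max_eq_right (by rw [hs]; linarith)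
  have e1 : max 0 ((1 + t1) * (1 + t2) - s) = 0 := max_eq_left (by rw [hs]; linarith)
  have e2 : max 0 ((1 + t1) * (1 + t3) - s) = 0 := max_eq_left (by rw [hs]; linarith)
  have e3 : max 0 ((1 + t2) * (1 + t3) - s) = 0 := max_eq_left (by rw [hs]; linarith)
  have e4 : max 0 (1 + t1 - s) = 0 := max_eq_left (by rw [hs]; linarith)
  have e5 : max 0 (1 + t2 - s) = 0 := max_eq_left (by rw [hs]; linarith)
  have e6 : max 0 (1 + t3 - s) = 0 := max_eq_left (by rw [hs]; linarith)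
  have e7 : max 0 (1 - s) = 0 := max_eq_left (by rw [hs]; linarith)
  have e8 : max 0 (s - 1) = s - 1 := max_eq_right (by rw [hs]; linarith)
  have e9 : max 0 (s - (1 + t1)) = s - (1 + t1) := max_eq_right (by rw [hs]; linarith)
  have e10 : max 0 (s - (1 + t2)) = s - (1 + t2) := max_eq_right (by rw [hs]; linarith)
  have e11 : max 0 (s - (1 + t3)) = s - (1 + t3) := max_eq_right (by rw [hs]; linarith)
  have e12 : max 0 (s - (1 + t1) * (1 + t2)) = s - (1 + t1) * (1 + t2) := max_eq_right (by rw [hs]; linarith)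
  have e13 : max 0 (s - (1 + t1) * (1 + t3)) = s - (1 + t1) * (1 + t3) := max_eq_right (by rw [hs]; linarith)
  have e14 : max 0 (s - (1 + t2) * (1 + t3)) = 0 := max_eq_left (by rw [hs]; linarith)
  have e15 : max 0 (s - (1 + t1) * (1 + t2) * (1 + t3)) = 0 := max_eq_left (by rw [hs]; linarith)
  rw [e0, e1, e2, e3, e4, e5, e6, e7, e8, e9, e10, e11, e12, e13, e14, e15]
  rw [hs]
  constructor <;> nlinarith

theorem sSL_x123 (t1 t2 t3 s : ℝ) (h1 : 0 ≤ t1) (h12 : t1 ≤ t2) (h23 : t2 ≤ t3) (hm : t1 ≤ 1) 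
    (hs : s = (1 + t1) * (1 + t2) * (1 + t3)) :
    (0 ≤ max 0 ((1 + t1) * (1 + t2) * (1 + t3) - s) - max 0 ((1 + t1) * (1 + t2) - s)
        - max 0 ((1 + t1) * (1 + t3) - s) - max 0 ((1 + t2) * (1 + t3) - s)
        + max 0 (1 + t1 - s) + max 0 (1 + t2 - s) + max 0 (1 + t3 - s) - max 0 (1 - s) ∧
     0 ≤ 8 * max 0 (s - 1) - 4 * (max 0 (s - (1 + t1)) + max 0 (s - (1 + t2)) + max 0 (s - (1 + t3)))
        + 2 * (max 0 (s - (1 + t1) * (1 + t2)) + max 0 (s - (1 + t1) * (1 + t3))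
          + max 0 (s - (1 + t2) * (1 + t3))) - max 0 (s - (1 + t1) * (1 + t2) * (1 + t3))) := by
  have h2 : 0 ≤ t2 := h1.trans h12
  have h3 : 0 ≤ t3 := h2.trans h23
  have p12 : 0 ≤ t1 * t2 := mul_nonneg h1 h2
  have p13 : 0 ≤ t1 * t3 := mul_nonneg h1 h3
  have p23 : 0 ≤ t2 * t3 := mul_nonneg h2 h3
  have p123 : 0 ≤ t1 * t2 * t3 := mul_nonneg p12 h3
  have q1 : 0 ≤ t1 * (t3 - t2) := mul_nonneg h1 (sub_nonneg.2 h23)
  have q2 : 0 ≤ (t2 - t1) * t3 := mul_nonneg (sub_nonneg.2 h12) h3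
  have q3 : 0 ≤ t2 * (t3 - t1) := mul_nonneg h2 (by linarith)
  have q4 : 0 ≤ (1 - t1) * t2 := mul_nonneg (sub_nonneg.2 hm) h2
  have q5 : 0 ≤ (1 - t1) * t3 := mul_nonneg (sub_nonneg.2 hm) h3
  have e0 : max 0 ((1 + t1) * (1 + t2) * (1 + t3) - s) = 0 := max_eq_left (by rw [hs]; linarith)
  have e1 : max 0 ((1 + t1) * (1 + t2) - s) = 0 := max_eq_left (by rw [hs]; linarith)
  have e2 : max 0 ((1 + t1) * (1 + t3) - s) = 0 := max_eq_left (by rw [hs]; linarith)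
  have e3 : max 0 ((1 + t2) * (1 + t3) - s) = 0 := max_eq_left (by rw [hs]; linarith)
  have e4 : max 0 (1 + t1 - s) = 0 := max_eq_left (by rw [hs]; linarith)
  have e5 : max 0 (1 + t2 - s) = 0 := max_eq_left (by rw [hs]; linarith)
  have e6 : max 0 (1 + t3 - s) = 0 := max_eq_left (by rw [hs]; linarith)
  have e7 : max 0 (1 - s) = 0 := max_eq_left (by rw [hs]; linarith)
  have e8 : max 0 (s - 1) = s - 1 := max_eq_right (by rw [hs]; linarith)
  have e9 : max 0 (s - (1 + t1)) = s - (1 + t1) := max_eq_right (by rw [hs]; linarith)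
  have e10 : max 0 (s - (1 + t2)) = s - (1 + t2) := max_eq_right (by rw [hs]; linarith)
  have e11 : max 0 (s - (1 + t3)) = s - (1 + t3) := max_eq_right (by rw [hs]; linarith)
  have e12 : max 0 (s - (1 + t1) * (1 + t2)) = s - (1 + t1) * (1 + t2) := max_eq_right (by rw [hs]; linarith)
  have e13 : max 0 (s - (1 + t1) * (1 + t3)) = s - (1 + t1) * (1 + t3) := max_eq_right (by rw [hs]; linarith)
  have e14 : max 0 (s - (1 + t2) * (1 + t3)) = s - (1 + t2) * (1 + t3) := max_eq_right (by rw [hs]; linarith)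
  have e15 : max 0 (s - (1 + t1) * (1 + t2) * (1 + t3)) = 0 := max_eq_left (by rw [hs]; linarith)
  rw [e0, e1, e2, e3, e4, e5, e6, e7, e8, e9, e10, e11, e12, e13, e14, e15]
  rw [hs]
  constructor <;> nlinarith

theorem sSL_sorted (t1 t2 t3 s : ℝ) (h1 : 0 ≤ t1) (h12 : t1 ≤ t2) (h23 : t2 ≤ t3)
    (hm : t1 ≤ 1)
    (hs : s = 1 ∨ s = 1 + t1 ∨ s = 1 + t2 ∨ s = 1 + t3 ∨ s = (1 + t1) * (1 + t2) ∨
      s = (1 + t1) * (1 + t3) ∨ s = (1 + t2) * (1 + t3) ∨ s = (1 + t1) * (1 + t2) * (1 + t3)) :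
    (s ≤ 1 + t1 + t2 ∧ s ≤ 1 + t1 + t3 ∧ s ≤ 1 + t2 + t3) ∨
    (0 ≤ max 0 ((1 + t1) * (1 + t2) * (1 + t3) - s) - max 0 ((1 + t1) * (1 + t2) - s)
        - max 0 ((1 + t1) * (1 + t3) - s) - max 0 ((1 + t2) * (1 + t3) - s)
        + max 0 (1 + t1 - s) + max 0 (1 + t2 - s) + max 0 (1 + t3 - s) - max 0 (1 - s) ∧
     0 ≤ 8 * max 0 (s - 1) - 4 * (max 0 (s - (1 + t1)) + max 0 (s - (1 + t2)) + max 0 (s - (1 + t3)))
        + 2 * (max 0 (s - (1 + t1) * (1 + t2)) + max 0 (s - (1 + t1) * (1 + t3))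
          + max 0 (s - (1 + t2) * (1 + t3))) - max 0 (s - (1 + t1) * (1 + t2) * (1 + t3))) := by
  rcases hs with hs | hs | hs | hs | hs | hs | hs | hs
  · left; refine ⟨?_, ?_, ?_⟩ <;> linarith
  · left; refine ⟨?_, ?_, ?_⟩ <;> linarith
  · left; refine ⟨?_, ?_, ?_⟩ <;> linarith
  · by_cases hc : t3 ≤ t1 + t2
    · left; refine ⟨?_, ?_, ?_⟩ <;> linarith
    · push Not at hc
      right
      by_cases hd : t3 ≤ t1 + t2 + t1 * t2
      · exact sSL_x3a t1 t2 t3 s h1 h12 h23 hm hc hd hs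
      · push Not at hd
        exact sSL_x3b t1 t2 t3 s h1 h12 h23 hm hd hs
  · right
    by_cases hd : t3 ≤ t1 + t2 + t1 * t2
    · exact sSL_x12a t1 t2 t3 s h1 h12 h23 hm hd hs
    · push Not at hd
      exact sSL_x12b t1 t2 t3 s h1 h12 h23 hm hd hs
  · right
    exact sSL_x13 t1 t2 t3 s h1 h12 h23 hm hs
  · right
    exact sSL_x23 t1 t2 t3 s h1 h12 h23 hm hs
  · right
    exact sSL_x123 t1 t2 t3 s h1 h12 h23 hm hs

theorem scalar_SL (t1 t2 t3 s : ℝ) (h1 : 0 ≤ t1) (h2 : 0 ≤ t2) (h3 : 0 ≤ t3)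
    (hm : t1 ≤ 1 ∨ t2 ≤ 1 ∨ t3 ≤ 1)
    (hs : s = 1 ∨ s = 1 + t1 ∨ s = 1 + t2 ∨ s = 1 + t3 ∨ s = (1 + t1) * (1 + t2) ∨
      s = (1 + t1) * (1 + t3) ∨ s = (1 + t2) * (1 + t3) ∨ s = (1 + t1) * (1 + t2) * (1 + t3)) :
    (s ≤ 1 + t1 + t2 ∧ s ≤ 1 + t1 + t3 ∧ s ≤ 1 + t2 + t3) ∨
    (0 ≤ max 0 ((1 + t1) * (1 + t2) * (1 + t3) - s) - max 0 ((1 + t1) * (1 + t2) - s)
        - max 0 ((1 + t1) * (1 + t3) - s) - max 0 ((1 + t2) * (1 + t3) - s)
        + max 0 (1 + t1 - s) + max 0 (1 + t2 - s) + max 0 (1 + t3 - s) - max 0 (1 - s) ∧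
     0 ≤ 8 * max 0 (s - 1) - 4 * (max 0 (s - (1 + t1)) + max 0 (s - (1 + t2)) + max 0 (s - (1 + t3)))
        + 2 * (max 0 (s - (1 + t1) * (1 + t2)) + max 0 (s - (1 + t1) * (1 + t3))
          + max 0 (s - (1 + t2) * (1 + t3))) - max 0 (s - (1 + t1) * (1 + t2) * (1 + t3))) := by
  have key : ∀ (a b c : ℝ), 0 ≤ a → a ≤ b → b ≤ c → a ≤ 1 →
      (s = 1 ∨ s = 1 + a ∨ s = 1 + b ∨ s = 1 + c ∨ s = (1 + a) * (1 + b) ∨
      s = (1 + a) * (1 + c) ∨ s = (1 + b) * (1 + c) ∨ s = (1 + a) * (1 + b) * (1 + c)) → _ :=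
    fun a b c ha hab hbc ham hh => sSL_sorted a b c s ha hab hbc ham hh
  rcases le_total t1 t2 with a12 | a12
  · rcases le_total t2 t3 with a23 | a23
    · -- t1 ≤ t2 ≤ t3
      exact key t1 t2 t3 h1 a12 a23 (by rcases hm with h | h | h <;> linarith) hs
    · rcases le_total t1 t3 with a13 | a13
      · -- t1 ≤ t3 ≤ t2
        have hr := key t1 t3 t2 h1 a13 a23 (by rcases hm with h | h | h <;> linarith)
          (by rcases hs with h | h | h | h | h | h | h | h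
              · exact Or.inl h
              · exact Or.inr (Or.inl h)
              · exact Or.inr (Or.inr (Or.inr (Or.inl h)))
              · exact Or.inr (Or.inr (Or.inl h))
              · exact Or.inr (Or.inr (Or.inr (Or.inr (Or.inr (Or.inl h)))))
              · exact Or.inr (Or.inr (Or.inr (Or.inr (Or.inl h))))
              · exact Or.inr (Or.inr (Or.inr (Or.inr (Or.inr (Or.inr (Or.inl (by rw [h]; ring)))))))
              · exact Or.inr (Or.inr (Or.inr (Or.inr (Or.inr (Or.inr (Or.inr (by rw [h]; ring))))))))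
        have c1 : (1 + t1) * (1 + t3) * (1 + t2) = (1 + t1) * (1 + t2) * (1 + t3) := by ring
        have c2 : (1 + t3) * (1 + t2) = (1 + t2) * (1 + t3) := by ring
        rw [c1, c2] at hr
        rcases hr with ⟨r1, r2, r3⟩ | ⟨r1, r2⟩
        · left; refine ⟨?_, ?_, ?_⟩ <;> linarith
        · right; constructor <;> linarith
      · -- t3 ≤ t1 ≤ t2
        have hr := key t3 t1 t2 h3 a13 a12 (by rcases hm with h | h | h <;> linarith)
          (by rcases hs with h | h | h | h | h | h | h | h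
              · exact Or.inl h
              · exact Or.inr (Or.inr (Or.inl h))
              · exact Or.inr (Or.inr (Or.inr (Or.inl h)))
              · exact Or.inr (Or.inl h)
              · exact Or.inr (Or.inr (Or.inr (Or.inr (Or.inr (Or.inr (Or.inl h))))))
              · exact Or.inr (Or.inr (Or.inr (Or.inr (Or.inl (by rw [h]; ring)))))
              · exact Or.inr (Or.inr (Or.inr (Or.inr (Or.inr (Or.inl (by rw [h]; ring))))))
              · exact Or.inr (Or.inr (Or.inr (Or.inr (Or.inr (Or.inr (Or.inr (by rw [h]; ring))))))))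
        have c1 : (1 + t3) * (1 + t1) * (1 + t2) = (1 + t1) * (1 + t2) * (1 + t3) := by ring
        have c2 : (1 + t3) * (1 + t2) = (1 + t2) * (1 + t3) := by ring
        have c3 : (1 + t3) * (1 + t1) = (1 + t1) * (1 + t3) := by ring
        rw [c1, c2, c3] at hr
        rcases hr with ⟨r1, r2, r3⟩ | ⟨r1, r2⟩
        · left; refine ⟨?_, ?_, ?_⟩ <;> linarith
        · right; constructor <;> linarith
  · rcases le_total t1 t3 with a13 | a13
    · -- t2 ≤ t1 ≤ t3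
      have hr := key t2 t1 t3 h2 a12 a13 (by rcases hm with h | h | h <;> linarith)
          (by rcases hs with h | h | h | h | h | h | h | h
              · exact Or.inl h
              · exact Or.inr (Or.inr (Or.inl h))
              · exact Or.inr (Or.inl h)
              · exact Or.inr (Or.inr (Or.inr (Or.inl h)))
              · exact Or.inr (Or.inr (Or.inr (Or.inr (Or.inl (by rw [h]; ring)))))
              · exact Or.inr (Or.inr (Or.inr (Or.inr (Or.inr (Or.inr (Or.inl h))))))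
              · exact Or.inr (Or.inr (Or.inr (Or.inr (Or.inr (Or.inl h)))))
              · exact Or.inr (Or.inr (Or.inr (Or.inr (Or.inr (Or.inr (Or.inr (by rw [h]; ring))))))))
      have c1 : (1 + t2) * (1 + t1) = (1 + t1) * (1 + t2) := by ring
      rw [c1] at hr
      rcases hr with ⟨r1, r2, r3⟩ | ⟨r1, r2⟩
      · left; refine ⟨?_, ?_, ?_⟩ <;> linarith
      · right; constructor <;> linarith
    · rcases le_total t2 t3 with a23 | a23
      · -- t2 ≤ t3 ≤ t1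
        have hr := key t2 t3 t1 h2 a23 a13 (by rcases hm with h | h | h <;> linarith)
          (by rcases hs with h | h | h | h | h | h | h | h
              · exact Or.inl h
              · exact Or.inr (Or.inr (Or.inr (Or.inl h)))
              · exact Or.inr (Or.inl h)
              · exact Or.inr (Or.inr (Or.inl h))
              · exact Or.inr (Or.inr (Or.inr (Or.inr (Or.inr (Or.inl (by rw [h]; ring))))))
              · exact Or.inr (Or.inr (Or.inr (Or.inr (Or.inr (Or.inr (Or.inl (by rw [h]; ring)))))))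
              · exact Or.inr (Or.inr (Or.inr (Or.inr (Or.inl h))))
              · exact Or.inr (Or.inr (Or.inr (Or.inr (Or.inr (Or.inr (Or.inr (by rw [h]; ring))))))))
        have c1 : (1 + t2) * (1 + t3) * (1 + t1) = (1 + t1) * (1 + t2) * (1 + t3) := by ring
        have c2 : (1 + t2) * (1 + t1) = (1 + t1) * (1 + t2) := by ring
        have c3 : (1 + t3) * (1 + t1) = (1 + t1) * (1 + t3) := by ring
        rw [c1, c2, c3] at hr
        rcases hr with ⟨r1, r2, r3⟩ | ⟨r1, r2⟩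
        · left; refine ⟨?_, ?_, ?_⟩ <;> linarith
        · right; constructor <;> linarith
      · -- t3 ≤ t2 ≤ t1
        have hr := key t3 t2 t1 h3 a23 a12 (by rcases hm with h | h | h <;> linarith)
          (by rcases hs with h | h | h | h | h | h | h | h
              · exact Or.inl h
              · exact Or.inr (Or.inr (Or.inr (Or.inl h)))
              · exact Or.inr (Or.inr (Or.inl h))
              · exact Or.inr (Or.inl h)
              · exact Or.inr (Or.inr (Or.inr (Or.inr (Or.inr (Or.inr (Or.inl (by rw [h]; ring)))))))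
              · exact Or.inr (Or.inr (Or.inr (Or.inr (Or.inr (Or.inl (by rw [h]; ring))))))
              · exact Or.inr (Or.inr (Or.inr (Or.inr (Or.inl (by rw [h]; ring)))))
              · exact Or.inr (Or.inr (Or.inr (Or.inr (Or.inr (Or.inr (Or.inr (by rw [h]; ring))))))))
        have c1 : (1 + t3) * (1 + t2) * (1 + t1) = (1 + t1) * (1 + t2) * (1 + t3) := by ring
        have c2 : (1 + t3) * (1 + t2) = (1 + t2) * (1 + t3) := by ring
        have c3 : (1 + t3) * (1 + t1) = (1 + t1) * (1 + t3) := by ring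
        have c4 : (1 + t2) * (1 + t1) = (1 + t1) * (1 + t2) := by ring
        rw [c1, c2, c3, c4] at hr
        rcases hr with ⟨r1, r2, r3⟩ | ⟨r1, r2⟩
        · left; refine ⟨?_, ?_, ?_⟩ <;> linarith
        · right; constructor <;> linarith

end Helper611.Dep
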