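import Pool.Agent.Helper611.Dep.Def

open scoped BigOperators Kronecker ComplexOrder
open Matrix

namespace Helper611.Dep



theorem maj_step (n N : ℕ) (hN : N < n) (f : Fin n → ℝ) :
    ∑ j : Fin n, (if (j : ℕ) < N + 1 then f j else 0) =
      (∑ j : Fin n, if (j : ℕ) < N then f j else 0) + f ⟨N, hN⟩ := by
  have h1 : f ⟨N, hN⟩ = ∑ j : Fin n, if j = ⟨N, hN⟩ then f j else 0 := by
    rw [Finset.sum_ite_eq', if_pos (Finset.mem_univ _)]
  rw [h1, ← Finset.sum_add_distrib]
  refine Finset.sum_congr rfl fun j _ => ?_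
  have h2 : (j = ⟨N, hN⟩) ↔ (j : ℕ) = N := by rw [Fin.ext_iff]
  simp only [h2]
  split_ifs <;> first | omega | simp

theorem maj_abel (n : ℕ) (a u : Fin n → ℝ) (ha : Antitone a)
    (hU : ∀ k : ℕ, k < n → ∑ j : Fin n, (if (j : ℕ) < k + 1 then u j else 0) ≤ 0)
    (hn : ∑ j, u j = 0) : ∑ j, a j * u j ≤ 0 := by
  have key : ∀ (N : ℕ) (hN : N < n), ∑ j : Fin n, (if (j : ℕ) < N + 1 then a j * u j else 0) ≤
      a ⟨N, hN⟩ * ∑ j : Fin n, (if (j : ℕ) < N + 1 then u j else 0) := by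
    intro N
    induction N with
    | zero =>
      intro hN
      rw [maj_step n 0 hN (fun j => a j * u j), maj_step n 0 hN u]
      simp
    | succ N ih =>
      intro hN
      rw [maj_step n (N + 1) hN (fun j => a j * u j), maj_step n (N + 1) hN u, mul_add]
      have h1 := ih (by omega)
      have h2 : a ⟨N + 1, hN⟩ ≤ a ⟨N, by omega⟩ := ha (by
        rw [Fin.le_def]; show N ≤ N + 1; omega)
      have h3 := hU N (by omega)
      have h4 := mul_le_mul_of_nonpos_right h2 h3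
      linarith
  rcases Nat.eq_zero_or_pos n with h0 | h0
  · subst h0; simp
  · have h1 := key (n - 1) (by omega)
    have h2 : n - 1 + 1 = n := by omega
    rw [h2] at h1
    have h3 : ∀ f : Fin n → ℝ, ∑ j : Fin n, (if (j : ℕ) < n then f j else 0) = ∑ j, f j := by
      intro f
      exact Finset.sum_congr rfl fun j _ => if_pos j.2
    rw [h3, h3, hn, mul_zero] at h1
    exact h1

theorem maj_sort {ι : Type} [Fintype ι] (f : ι → ℝ) :
    ∃ e : Fin (Fintype.card ι) ≃ ι, Antitone (fun j => f (e j)) := by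
  let e0 := (Fintype.equivFin ι).symm
  refine ⟨(Tuple.sort (fun j => -f (e0 j))).trans e0, ?_⟩
  intro i j hij
  have := Tuple.monotone_sort (fun j => -f (e0 j)) hij
  simp only [Function.comp] at this
  show f (e0 _) ≤ f (e0 _)
  linarith

theorem maj_comb {ι : Type} [Fintype ι] [DecidableEq ι] (h m Lam : ι → ℝ)
    (htr : ∑ i, m i = ∑ i, Lam i)
    (H : ∀ i, ∀ T : Finset ι, ∑ x ∈ T, (m x - Lam i) ≤ ∑ z, max 0 (Lam z - Lam i)) :
    ∃ σ : ι ≃ ι, ∑ i, h i * m i ≤ ∑ i, h i * Lam (σ i) := by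
  obtain ⟨e, he⟩ := maj_sort h
  obtain ⟨e', he'⟩ := maj_sort Lam
  refine ⟨e.symm.trans e', ?_⟩
  have h1 : ∑ j, h (e j) * (m (e j) - Lam (e' j)) ≤ 0 := by
    refine maj_abel _ (fun j => h (e j)) (fun j => m (e j) - Lam (e' j)) he ?_ ?_
    · intro k hk
      set s := Lam (e' ⟨k, hk⟩) with hs
      have h2 := H (e' ⟨k, hk⟩) (Finset.univ.filter fun x => ((e.symm x : Fin _) : ℕ) < k + 1)
      rw [Finset.sum_filter, ← Equiv.sum_comp e, ← Equiv.sum_comp e' (fun z => max 0 _)] at h2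
      simp only [Equiv.symm_apply_apply] at h2
      rw [← hs] at h2
      have h3 : ∑ j : Fin (Fintype.card ι), max 0 (Lam (e' j) - s) =
          ∑ j : Fin (Fintype.card ι), if (j : ℕ) < k + 1 then (Lam (e' j) - s) else 0 := by
        refine Finset.sum_congr rfl fun j _ => ?_
        split_ifs with hj
        · have : s ≤ Lam (e' j) := he' (by rw [Fin.le_def]; show (j : ℕ) ≤ k; omega)
          exact max_eq_right (by linarith)
        · have : Lam (e' j) ≤ s := he' (by rw [Fin.le_def]; show k ≤ (j : ℕ); omega)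
          exact max_eq_left (by linarith)
      rw [h3, ← sub_nonpos, ← Finset.sum_sub_distrib] at h2
      refine le_of_eq_of_le (Finset.sum_congr rfl fun j _ => ?_) h2
      split_ifs <;> ring
    · rw [Finset.sum_sub_distrib, Equiv.sum_comp e m, Equiv.sum_comp e' Lam, htr, sub_self]
  have h4 : ∑ j, h (e j) * (m (e j) - Lam (e' j)) =
      ∑ i, h i * m i - ∑ i, h i * Lam ((e.symm.trans e') i) := by
    rw [← Equiv.sum_comp e (fun i => h i * m i),
      ← Equiv.sum_comp e (fun i => h i * Lam ((e.symm.trans e') i)), ← Finset.sum_sub_distrib]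
    refine Finset.sum_congr rfl fun j _ => ?_
    simp only [Equiv.trans_apply, Equiv.symm_apply_apply]
    ring
  linarith


theorem trace_le_of_thresholds {ι : Type} [Fintype ι] [DecidableEq ι]
    (X : Matrix ι ι ℂ) (hX : X.IsHermitian) (Lam : ι → ℝ) (htr : X.trace.re = ∑ i, Lam i)
    (H : ∀ i, ∃ Y : Matrix ι ι ℂ, Y.PosSemidef ∧
      (Y - (X - ((Lam i : ℝ) : ℂ) • (1 : Matrix ι ι ℂ))).PosSemidef ∧
      Y.trace.re ≤ ∑ z, max 0 (Lam z - Lam i))
    (K : Matrix ι ι ℂ) (hK : K.IsHermitian) :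
    ∃ V ∈ Matrix.unitaryGroup ι ℂ, (K * X).trace.re ≤
      (K * (V * Matrix.diagonal (fun i => ((Lam i : ℝ) : ℂ)) * Vᴴ)).trace.re := by
  set U : Matrix ι ι ℂ := (hK.eigenvectorUnitary : Matrix ι ι ℂ) with hU
  set h : ι → ℝ := hK.eigenvalues with hh
  have hUU : Uᴴ * U = 1 := Matrix.mem_unitaryGroup_iff'.1 hK.eigenvectorUnitary.2
  have hUU' : U * Uᴴ = 1 := Matrix.mem_unitaryGroup_iff.1 hK.eigenvectorUnitary.2
  have hKs : K = U * Matrix.diagonal (fun i => ((h i : ℝ) : ℂ)) * Uᴴ := by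
    have := hK.spectral_theorem
    rw [Unitary.conjStarAlgAut_apply] at this
    exact this
  set m : ι → ℝ := fun i => ((Uᴴ * X * U) i i).re with hm
  have htrU : ∀ Z : Matrix ι ι ℂ, (Uᴴ * Z * U).trace = Z.trace := by
    intro Z
    rw [Matrix.mul_assoc, Matrix.trace_mul_comm, Matrix.mul_assoc, hUU', Matrix.mul_one]
  have htr' : ∀ Z : Matrix ι ι ℂ, (K * Z).trace.re = ∑ i, h i * ((Uᴴ * Z * U) i i).re := by
    intro Z
    have e1 : (K * Z).trace = (Matrix.diagonal (fun i => ((h i : ℝ) : ℂ)) * (Uᴴ * Z * U)).trace := by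
      rw [hKs, Matrix.mul_assoc, Matrix.mul_assoc, Matrix.trace_mul_comm, Matrix.mul_assoc]
    rw [e1, Matrix.trace, Complex.re_sum]
    refine Finset.sum_congr rfl fun i _ => ?_
    rw [Matrix.diag_apply, Matrix.diagonal_mul, Complex.re_ofReal_mul]
  have hmtr : ∑ i, m i = ∑ i, Lam i := by
    rw [← htr, ← htrU X, Matrix.trace, Complex.re_sum]
    rfl
  have hH : ∀ i, ∀ T : Finset ι, ∑ x ∈ T, (m x - Lam i) ≤ ∑ z, max 0 (Lam z - Lam i) := by
    intro i T
    obtain ⟨Y, hY1, hY2, hY3⟩ := H i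
    have p1 : ∀ x, 0 ≤ ((Uᴴ * Y * U) x x).re := fun x =>
      (Complex.nonneg_iff.1 ((hY1.conjTranspose_mul_mul_same U).diag_nonneg (i := x))).1
    have p2 : ∀ x, m x - Lam i ≤ ((Uᴴ * Y * U) x x).re := by
      intro x
      have h1 := (Complex.nonneg_iff.1 ((hY2.conjTranspose_mul_mul_same U).diag_nonneg (i := x))).1
      have e2 : Uᴴ * (Y - (X - ((Lam i : ℝ) : ℂ) • (1 : Matrix ι ι ℂ))) * U =
          Uᴴ * Y * U - (Uᴴ * X * U - ((Lam i : ℝ) : ℂ) • (1 : Matrix ι ι ℂ)) := by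
        rw [Matrix.mul_sub, Matrix.mul_sub, Matrix.sub_mul, Matrix.sub_mul, Matrix.mul_smul,
          Matrix.mul_one, Matrix.smul_mul, hUU]
      rw [e2] at h1
      simp only [Matrix.sub_apply, Matrix.smul_apply, Matrix.one_apply_eq, smul_eq_mul, mul_one,
        Complex.sub_re, Complex.ofReal_re] at h1
      show ((Uᴴ * X * U) x x).re - Lam i ≤ _
      linarith
    calc ∑ x ∈ T, (m x - Lam i) ≤ ∑ x ∈ T, ((Uᴴ * Y * U) x x).re :=
          Finset.sum_le_sum fun x _ => p2 x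
      _ ≤ ∑ x, ((Uᴴ * Y * U) x x).re :=
          Finset.sum_le_univ_sum_of_nonneg p1
      _ = Y.trace.re := by
          rw [← htrU Y, Matrix.trace, Complex.re_sum]; rfl
      _ ≤ _ := hY3
  obtain ⟨σ, hσ⟩ := maj_comb h m Lam hmtr hH
  have hVmul : ∀ f : ι → ℂ, U.submatrix id σ.symm * Matrix.diagonal f * (U.submatrix id σ.symm)ᴴ =
      U * Matrix.diagonal (fun i => f (σ i)) * Uᴴ := by
    intro f
    ext x y
    rw [Matrix.mul_apply, Matrix.mul_apply, ← Equiv.sum_comp σ]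
    refine Finset.sum_congr rfl fun j _ => ?_
    rw [Matrix.mul_diagonal, Matrix.mul_diagonal, Matrix.conjTranspose_apply,
      Matrix.conjTranspose_apply, Matrix.submatrix_apply, Matrix.submatrix_apply,
      Equiv.symm_apply_apply]
    rfl
  refine ⟨U.submatrix id σ.symm, ?_, ?_⟩
  · rw [Matrix.mem_unitaryGroup_iff]
    have := hVmul (fun _ => 1)
    rw [Matrix.diagonal_one, Matrix.mul_one, Matrix.mul_one, hUU'] at this
    exact this
  · rw [htr', htr', hVmul]
    have e3 : Uᴴ * (U * Matrix.diagonal (fun i => ((Lam (σ i) : ℝ) : ℂ)) * Uᴴ) * U =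
        Matrix.diagonal (fun i => ((Lam (σ i) : ℝ) : ℂ)) := by
      rw [Matrix.mul_assoc, Matrix.mul_assoc, Matrix.mul_assoc, hUU, Matrix.mul_one,
        ← Matrix.mul_assoc, hUU, Matrix.one_mul]
    rw [e3]
    refine hσ.trans (le_of_eq ?_)
    refine Finset.sum_congr rfl fun i _ => ?_
    rw [Matrix.diagonal_apply_eq, Complex.ofReal_re]
end Helper611.Dep
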