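import Pool.Agent.Helper611.Dep.Def

open scoped BigOperators Kronecker ComplexOrder
open Matrix

namespace Helper611.Dep



theorem h319_single (ι : Type) [Fintype ι] [DecidableEq ι] (g : Matrix ι ι ℂ →ₗ[ℝ] ℝ)
    (i j : ι) (z : ℂ) :
    g (Matrix.single i j z) = z.re * g (Matrix.single i j 1) + z.im * g (Matrix.single i j Complex.I) := by
  have h : Matrix.single i j z = z.re • Matrix.single i j (1 : ℂ) +
      z.im • Matrix.single i j Complex.I := by
    rw [Matrix.smul_single, Matrix.smul_single, ← Matrix.single_add]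
    congr 1
    apply Complex.ext <;> simp
  rw [h, map_add, map_smul, map_smul, smul_eq_mul, smul_eq_mul]

theorem h319_repr (ι : Type) [Fintype ι] [DecidableEq ι] (g : Matrix ι ι ℂ →ₗ[ℝ] ℝ) :
    ∃ M : Matrix ι ι ℂ, ∀ Z, (M * Z).trace.re = g Z := by
  refine ⟨Matrix.of fun j i => (g (Matrix.single i j 1) : ℂ) -
    Complex.I * (g (Matrix.single i j Complex.I) : ℂ), fun Z => ?_⟩
  conv_rhs => rw [Matrix.matrix_eq_sum_single Z]
  have h1 : g (∑ i, ∑ j, Matrix.single i j (Z i j)) = ∑ i, ∑ j,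
      ((Z i j).re * g (Matrix.single i j 1) + (Z i j).im * g (Matrix.single i j Complex.I)) := by
    rw [map_sum]
    refine Finset.sum_congr rfl fun i _ => ?_
    rw [map_sum]
    exact Finset.sum_congr rfl fun j _ => h319_single ι g i j (Z i j)
  rw [h1, Matrix.trace, Complex.re_sum]
  have h2 : ∀ j : ι, (Matrix.diag ((Matrix.of fun j i => (g (Matrix.single i j 1) : ℂ) -
      Complex.I * (g (Matrix.single i j Complex.I) : ℂ)) * Z) j).re =
      ∑ i, ((Z i j).re * g (Matrix.single i j 1) + (Z i j).im * g (Matrix.single i j Complex.I)) := by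
    intro j
    rw [Matrix.diag_apply, Matrix.mul_apply, Complex.re_sum]
    refine Finset.sum_congr rfl fun i _ => ?_
    rw [Matrix.of_apply]
    simp [Complex.mul_re, Complex.sub_re, Complex.sub_im, Complex.mul_im]
    ring
  rw [Finset.sum_congr rfl fun j _ => h2 j, Finset.sum_comm]

theorem h319_herm (ι : Type) [Fintype ι] [DecidableEq ι] (g : Matrix ι ι ℂ →ₗ[ℝ] ℝ) :
    ∃ K : Matrix ι ι ℂ, K.IsHermitian ∧ ∀ Z : Matrix ι ι ℂ, Z.IsHermitian →
      (K * Z).trace.re = g Z := by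
  obtain ⟨M, hM⟩ := h319_repr ι g
  refine ⟨(1/2 : ℂ) • (M + Mᴴ), ?_, fun Z hZ => ?_⟩
  · rw [Matrix.IsHermitian, Matrix.conjTranspose_smul, Matrix.conjTranspose_add,
      Matrix.conjTranspose_conjTranspose, add_comm]
    congr 1
    simp
  · have h1 : (Mᴴ * Z).trace = star ((M * Z).trace) := by
      rw [← Matrix.trace_conjTranspose, Matrix.conjTranspose_mul, hZ.eq, Matrix.trace_mul_comm]
    rw [Matrix.smul_mul, Matrix.trace_smul, add_mul, Matrix.trace_add, h1, ← hM Z]
    simp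
    ring

theorem norm_le_of_trace {ι : Type} [Fintype ι] [DecidableEq ι]
    (N : Matrix ι ι ℂ → ℝ) (hN : IsUINorm N) (X : Matrix ι ι ℂ) (hX : X.IsHermitian)
    (Lam : ι → ℝ)
    (H : ∀ K : Matrix ι ι ℂ, K.IsHermitian → ∃ V ∈ Matrix.unitaryGroup ι ℂ,
      (K * X).trace.re ≤ (K * (V * Matrix.diagonal (fun i => ((Lam i : ℝ) : ℂ)) * Vᴴ)).trace.re) :
    N X ≤ N (Matrix.diagonal (fun i => ((Lam i : ℝ) : ℂ))) := by
  have hcs : ∀ (c : ℝ) (Z : Matrix ι ι ℂ), c • Z = (c : ℂ) • Z := by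
    intro c Z
    ext i j
    simp
  have hsm : ∀ (c : ℝ) (Z : Matrix ι ι ℂ), N (c • Z) = |c| * N Z := by
    intro c Z
    rw [hcs, hN.smul, Complex.norm_real, Real.norm_eq_abs]
  have hN0 : N 0 = 0 := by
    have h := hsm 0 0
    rw [zero_smul, abs_zero, zero_mul] at h
    exact h
  have hnn : ∀ Z, 0 ≤ N Z := by
    intro Z
    have h1 := hN.add_le Z ((-1 : ℝ) • Z)
    rw [hsm, abs_neg, abs_one, one_mul, neg_one_smul, add_neg_cancel, hN0] at h1
    linarith
  by_cases hX0 : X = 0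
  · rw [hX0, hN0]
    exact hnn _
  obtain ⟨g, hg1, hg2⟩ := exists_extension_of_le_sublinear
    (LinearPMap.mkSpanSingleton (K := ℝ) X (N X) hX0) N
    (fun c hc Z => by rw [hsm, abs_of_pos hc]) hN.add_le (by
      rintro ⟨z, hz⟩
      obtain ⟨c, rfl⟩ := Submodule.mem_span_singleton.1 hz
      have h3 : (LinearPMap.mkSpanSingleton (K := ℝ) X (N X) hX0) ⟨c • X, hz⟩ = c * N X :=
        LinearPMap.mkSpanSingleton'_apply X (N X) _ c hz
      refine h3.trans_le ?_
      show c * N X ≤ N (c • X)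
      rw [hsm]
      exact mul_le_mul_of_nonneg_right (le_abs_self c) (hnn X))
  have hgX : g X = N X := by
    have hz : X ∈ (LinearPMap.mkSpanSingleton (K := ℝ) (L := ℝ) (σ := RingHom.id ℝ) X (N X) hX0).domain :=
      Submodule.mem_span_singleton_self X
    have h := hg1 ⟨X, hz⟩
    have h2 : (LinearPMap.mkSpanSingleton (K := ℝ) (L := ℝ) (σ := RingHom.id ℝ) X (N X) hX0)
        ⟨X, hz⟩ = N X :=
      LinearPMap.mkSpanSingleton'_apply_self X (N X) _ _
    rw [h2] at h
    exact h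
  obtain ⟨K, hK, hKZ⟩ := h319_herm ι g
  obtain ⟨V, hV, hVle⟩ := H K hK
  have hD : (V * Matrix.diagonal (fun i => ((Lam i : ℝ) : ℂ)) * Vᴴ).IsHermitian := by
    rw [Matrix.IsHermitian, Matrix.conjTranspose_mul, Matrix.conjTranspose_mul,
      Matrix.conjTranspose_conjTranspose, Matrix.diagonal_conjTranspose, mul_assoc]
    congr 3
    funext i
    simp
  rw [hKZ X hX, hKZ _ hD, hgX] at hVle
  refine hVle.trans ((hg2 _).trans (le_of_eq ?_))
  refine hN.unitary V Vᴴ _ hV ?_
  rw [← Matrix.star_eq_conjTranspose]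
  exact Unitary.star_mem hV

end Helper611.Dep
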