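import Pool.Agent.Helper611.Dep.Def

open scoped BigOperators Kronecker ComplexOrder
open Matrix

namespace Helper611.Dep



section J6
variable {α β γ : Type} [Fintype α] [Fintype β] [Fintype γ]
  [DecidableEq α] [DecidableEq β] [DecidableEq γ]

theorem prod_out_unitary {ι : Type} [Fintype ι] [DecidableEq ι] (ψ : ι → ℂ)
    (h : IsUnitVec ψ) (a0 : ι) :
    ∃ U ∈ Matrix.unitaryGroup ι ℂ, ∀ i, U i a0 = ψ i := by
  have hv : Orthonormal ℂ (Set.restrict ({a0} : Set ι)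
      (fun _ : ι => (WithLp.toLp 2 ψ : EuclideanSpace ℂ ι))) := by
    constructor
    · intro i
      have : ‖(WithLp.toLp 2 ψ : EuclideanSpace ℂ ι)‖ = 1 := by
        rw [EuclideanSpace.norm_eq]
        have h' : ∑ i, ‖ψ i‖ ^ 2 = 1 := h
        show Real.sqrt (∑ i, ‖ψ i‖ ^ 2) = 1
        rw [h', Real.sqrt_one]
      exact this
    · intro i j hij
      exact absurd (Subsingleton.elim i j) hij
  obtain ⟨b, hb⟩ := hv.exists_orthonormalBasis_extension_of_card_eq (by simp)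
  refine ⟨(EuclideanSpace.basisFun ι ℂ).toBasis.toMatrix b,
    (EuclideanSpace.basisFun ι ℂ).toMatrix_orthonormalBasis_mem_unitary b, ?_⟩
  intro i
  rw [Module.Basis.toMatrix_apply, hb a0 (Set.mem_singleton a0)]
  simp

theorem prod_out_diag {ι : Type} [Fintype ι] [DecidableEq ι] (ψ : ι → ℂ)
    (h : IsUnitVec ψ) (a0 : ι) (q : ℝ) :
    ∃ U ∈ Matrix.unitaryGroup ι ℂ,
      depol q (pureSt ψ) = U * Matrix.diagonal (fun i => (((if i = a0 then
        (1 - q) / (Fintype.card ι : ℝ) + q else (1 - q) / (Fintype.card ι : ℝ) : ℝ)) : ℂ)) *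
        Uᴴ := by
  obtain ⟨U, hU, hc⟩ := prod_out_unitary ψ h a0
  refine ⟨U, hU, ?_⟩
  have hUU : U * Uᴴ = 1 := by
    have := Matrix.mem_unitaryGroup_iff.1 hU
    exact this
  have htr : (pureSt ψ).trace = 1 := by
    have h' : ∑ i, ‖ψ i‖ ^ 2 = 1 := h
    have : (pureSt ψ).trace = ∑ i, ((‖ψ i‖ ^ 2 : ℝ) : ℂ) := by
      unfold pureSt Matrix.trace
      refine Finset.sum_congr rfl fun i _ => ?_
      rw [Matrix.diag_apply, Matrix.vecMulVec_apply, Pi.star_apply]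
      have := RCLike.mul_conj (K := ℂ) (ψ i)
      rw [Complex.star_def]
      rw [Complex.mul_conj, Complex.normSq_eq_norm_sq]
    rw [this, ← Complex.ofReal_sum, h']
    simp
  have hD : Matrix.diagonal (fun i => (((if i = a0 then
        (1 - q) / (Fintype.card ι : ℝ) + q else (1 - q) / (Fintype.card ι : ℝ) : ℝ)) : ℂ)) =
      (q : ℂ) • Matrix.diagonal (fun i => if i = a0 then (1 : ℂ) else 0) +
      (((1 - q) / (Fintype.card ι : ℝ) : ℝ) : ℂ) • (1 : Matrix ι ι ℂ) := by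
    ext i j
    by_cases hij : i = j
    · subst hij
      by_cases hi : i = a0
      · simp [hi]; ring
      · simp [hi]
    · simp [hij]
  have hE : U * Matrix.diagonal (fun i => if i = a0 then (1 : ℂ) else 0) * Uᴴ = pureSt ψ := by
    ext i j
    rw [Matrix.mul_apply]
    simp only [Matrix.mul_diagonal, Matrix.conjTranspose_apply]
    rw [Finset.sum_eq_single a0]
    · simp [hc, pureSt, Matrix.vecMulVec_apply]
    · intro b _ hb
      simp [hb]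
    · simp
  rw [hD, Matrix.mul_add, Matrix.add_mul, Matrix.mul_smul, Matrix.smul_mul, hE,
    Matrix.mul_smul, Matrix.smul_mul, Matrix.mul_one, hUU]
  unfold depol
  rw [htr, one_smul]

theorem prod_out_depol_smul {ι : Type} [Fintype ι] [DecidableEq ι] (q : ℝ) (c : ℂ)
    (X : Matrix ι ι ℂ) : depol q (c • X) = c • depol q X := by
  unfold depol
  rw [Matrix.trace_smul, smul_add, smul_comm c, smul_assoc, smul_comm c ((((1 - q) / (Fintype.card ι : ℝ) : ℝ)) : ℂ)]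

theorem prod_out_tensor {m n : Type} (Φ : Matrix m m ℂ → Matrix m m ℂ)
    (Ψ : Matrix n n ℂ → Matrix n n ℂ)
    (hΦ : ∀ (c : ℂ) X, Φ (c • X) = c • Φ X) (hΨ : ∀ (c : ℂ) X, Ψ (c • X) = c • Ψ X)
    (A : Matrix m m ℂ) (B : Matrix n n ℂ) :
    tensorMap Φ Ψ (A ⊗ₖ B) = Φ A ⊗ₖ Ψ B := by
  ext p q
  have h1 : onSnd Ψ (A ⊗ₖ B) = A ⊗ₖ Ψ B := by
    ext x y
    have : (Matrix.of fun a b => (A ⊗ₖ B) (x.1, a) (y.1, b)) = A x.1 y.1 • B := by
      ext a b
      simp [Matrix.kroneckerMap_apply]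
    show Ψ (Matrix.of fun a b => (A ⊗ₖ B) (x.1, a) (y.1, b)) x.2 y.2 = _
    rw [this, hΨ]
    simp [Matrix.kroneckerMap_apply]
  unfold tensorMap
  rw [h1]
  have : (Matrix.of fun a b => (A ⊗ₖ Ψ B) (a, p.2) (b, q.2)) = Ψ B p.2 q.2 • A := by
    ext a b
    simp [Matrix.kroneckerMap_apply, mul_comm]
  show Φ (Matrix.of fun a b => (A ⊗ₖ Ψ B) (a, p.2) (b, q.2)) p.1 q.1 = _
  rw [this, hΦ]
  simp [Matrix.kroneckerMap_apply, mul_comm]

theorem prod_out_tensor_smul {m n : Type} (Φ : Matrix m m ℂ → Matrix m m ℂ)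
    (Ψ : Matrix n n ℂ → Matrix n n ℂ)
    (hΦ : ∀ (c : ℂ) X, Φ (c • X) = c • Φ X) (hΨ : ∀ (c : ℂ) X, Ψ (c • X) = c • Ψ X)
    (c : ℂ) (X : Matrix (m × n) (m × n) ℂ) :
    tensorMap Φ Ψ (c • X) = c • tensorMap Φ Ψ X := by
  have h1 : onSnd Ψ (c • X) = c • onSnd Ψ X := by
    ext x y
    have : (Matrix.of fun a b => (c • X) (x.1, a) (y.1, b)) =
        c • (Matrix.of fun a b => X (x.1, a) (y.1, b)) := by
      ext a b
      simp
    show Ψ (Matrix.of fun a b => (c • X) (x.1, a) (y.1, b)) x.2 y.2 =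
      c • Ψ (Matrix.of fun a b => X (x.1, a) (y.1, b)) x.2 y.2
    rw [this, hΨ]
    rfl
  unfold tensorMap
  rw [h1]
  ext x y
  have : (Matrix.of fun a b => (c • onSnd Ψ X) (a, x.2) (b, y.2)) =
      c • (Matrix.of fun a b => (onSnd Ψ X) (a, x.2) (b, y.2)) := by
    ext a b
    simp
  show Φ (Matrix.of fun a b => (c • onSnd Ψ X) (a, x.2) (b, y.2)) x.1 y.1 =
      c • Φ (Matrix.of fun a b => (onSnd Ψ X) (a, x.2) (b, y.2)) x.1 y.1
  rw [this, hΦ]
  rfl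

theorem prod_out_kron_unitary {m n : Type} [Fintype m] [Fintype n] [DecidableEq m]
    [DecidableEq n] {U : Matrix m m ℂ} {V : Matrix n n ℂ}
    (hU : U ∈ Matrix.unitaryGroup m ℂ) (hV : V ∈ Matrix.unitaryGroup n ℂ) :
    U ⊗ₖ V ∈ Matrix.unitaryGroup (m × n) ℂ := Matrix.kronecker_mem_unitary hU hV

theorem prod_out_kron_conj {m n : Type} [Fintype m] [Fintype n] [DecidableEq m]
    [DecidableEq n] (U D : Matrix m m ℂ) (V E : Matrix n n ℂ) :
    (U * D * Uᴴ) ⊗ₖ (V * E * Vᴴ) = (U ⊗ₖ V) * (D ⊗ₖ E) * (U ⊗ₖ V)ᴴ := by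
  rw [Matrix.conjTranspose_kronecker, Matrix.mul_kronecker_mul, Matrix.mul_kronecker_mul]

theorem prod_out (a0 : α) (b0 : β) (g0 : γ) (q1 q2 q3 : ℝ)
    (ψ1 : α → ℂ) (ψ2 : β → ℂ) (ψ3 : γ → ℂ)
    (h1 : IsUnitVec ψ1) (h2 : IsUnitVec ψ2) (h3 : IsUnitVec ψ3) :
    ∃ V ∈ Matrix.unitaryGroup ((α × β) × γ) ℂ,
      tensorMap (tensorMap (depol q1) (depol q2)) (depol q3)
        ((pureSt ψ1 ⊗ₖ pureSt ψ2) ⊗ₖ pureSt ψ3) =
      V * Matrix.diagonal (fun z => ((lamv a0 b0 g0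
        ((1 - q1) / (Fintype.card α : ℝ)) q1 ((1 - q2) / (Fintype.card β : ℝ)) q2
        ((1 - q3) / (Fintype.card γ : ℝ)) q3 z : ℝ) : ℂ)) * Vᴴ := by
  obtain ⟨U1, hU1, e1⟩ := prod_out_diag ψ1 h1 a0 q1
  obtain ⟨U2, hU2, e2⟩ := prod_out_diag ψ2 h2 b0 q2
  obtain ⟨U3, hU3, e3⟩ := prod_out_diag ψ3 h3 g0 q3
  refine ⟨(U1 ⊗ₖ U2) ⊗ₖ U3, prod_out_kron_unitary (prod_out_kron_unitary hU1 hU2) hU3, ?_⟩
  rw [prod_out_tensor _ _ (prod_out_tensor_smul _ _ (prod_out_depol_smul q1)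
    (prod_out_depol_smul q2)) (prod_out_depol_smul q3),
    prod_out_tensor _ _ (prod_out_depol_smul q1) (prod_out_depol_smul q2), e1, e2, e3,
    prod_out_kron_conj, prod_out_kron_conj, Matrix.diagonal_kronecker_diagonal,
    Matrix.diagonal_kronecker_diagonal]
  congr 3
  funext z
  unfold lamv
  push_cast
  rfl
end J6

end Helper611.Dep
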