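import Pool.Agent.Helper611.Dep.Def

open scoped BigOperators Kronecker ComplexOrder
open Matrix

namespace Helper611.Dep



section J7
variable {α β γ : Type} [Fintype α] [Fintype β] [Fintype γ]
  [DecidableEq α] [DecidableEq β] [DecidableEq γ]

theorem depol_apply899 {ι : Type} [Fintype ι] [DecidableEq ι] (q a : ℝ)
    (h : a = (1 - q) / (Fintype.card ι : ℝ)) (M : Matrix ι ι ℂ) (i j : ι) :
    depol q M i j = (q : ℂ) * M i j + (a : ℂ) * (if i = j then ∑ k, M k k else 0) := by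
  subst h
  simp only [depol, Matrix.add_apply, Matrix.smul_apply, smul_eq_mul, Matrix.one_apply,
    Matrix.trace, Matrix.diag_apply, mul_ite, mul_one, mul_zero]

omit [Fintype β] [Fintype γ] [DecidableEq β] [DecidableEq γ] in
theorem P1_lin899 (c d : ℂ) (X Y : Matrix ((α × β) × γ) ((α × β) × γ) ℂ) :
    P1 (c • X + d • Y) = c • P1 X + d • P1 Y := by
  ext x y
  simp only [P1, Matrix.add_apply, Matrix.smul_apply, Matrix.of_apply, smul_eq_mul,
    Finset.sum_add_distrib, ← Finset.mul_sum]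
  split_ifs <;> ring

omit [Fintype α] [Fintype γ] [DecidableEq α] [DecidableEq γ] in
theorem P2_lin899 (c d : ℂ) (X Y : Matrix ((α × β) × γ) ((α × β) × γ) ℂ) :
    P2 (c • X + d • Y) = c • P2 X + d • P2 Y := by
  ext x y
  simp only [P2, Matrix.add_apply, Matrix.smul_apply, Matrix.of_apply, smul_eq_mul,
    Finset.sum_add_distrib, ← Finset.mul_sum]
  split_ifs <;> ring

theorem tensorMap_eq_comb (q1 q2 q3 : ℝ) (X : Matrix ((α × β) × γ) ((α × β) × γ) ℂ)
    (a1 a2 a3 : ℝ) (h1 : a1 = (1 - q1) / (Fintype.card α : ℝ))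
    (h2 : a2 = (1 - q2) / (Fintype.card β : ℝ)) (h3 : a3 = (1 - q3) / (Fintype.card γ : ℝ)) :
    tensorMap (tensorMap (depol q1) (depol q2)) (depol q3) X =
      comb (a1 * a2 * a3) (q1 * a2 * a3) (a1 * q2 * a3) (a1 * a2 * q3)
        (q1 * q2 * a3) (q1 * a2 * q3) (a1 * q2 * q3) (q1 * q2 * q3) X := by
  have e3 : ∀ X : Matrix ((α × β) × γ) ((α × β) × γ) ℂ,
      onSnd (depol q3) X = (q3 : ℂ) • X + (a3 : ℂ) • P3 X := by
    intro X
    ext x y
    simp only [onSnd, Matrix.of_apply, depol_apply899 q3 a3 h3, P3, Matrix.add_apply,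
      Matrix.smul_apply, smul_eq_mul]
  have e2 : ∀ (W : Matrix ((α × β) × γ) ((α × β) × γ) ℂ) (x y : γ) (p p' : α × β),
      onSnd (depol q2) (Matrix.of fun a b => W (a, x) (b, y)) p p' =
        ((q2 : ℂ) • W + (a2 : ℂ) • P2 W) (p, x) (p', y) := by
    intro W x y p p'
    simp only [onSnd, Matrix.of_apply, depol_apply899 q2 a2 h2, P2, Matrix.add_apply,
      Matrix.smul_apply, smul_eq_mul]
  have e1 : ∀ W : Matrix ((α × β) × γ) ((α × β) × γ) ℂ,
      onFst (tensorMap (depol q1) (depol q2)) W =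
        (q1 : ℂ) • ((q2 : ℂ) • W + (a2 : ℂ) • P2 W) +
          (a1 : ℂ) • P1 ((q2 : ℂ) • W + (a2 : ℂ) • P2 W) := by
    intro W
    ext x y
    rw [Matrix.add_apply, Matrix.smul_apply, Matrix.smul_apply, P1, Matrix.of_apply]
    change (onFst (depol q1) (onSnd (depol q2) (Matrix.of fun a b => W (a, x.2) (b, y.2)))) x.1 y.1
      = _
    rw [onFst, Matrix.of_apply, depol_apply899 q1 a1 h1]
    simp only [Matrix.of_apply, e2, smul_eq_mul]
  rw [tensorMap, e3, e1, P1_lin899, P2_lin899, P1_lin899, P1_lin899]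
  unfold comb
  push_cast
  module
end J7

end Helper611.Dep
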