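import Pool.Agent.Helper611.Dep.Def

open scoped BigOperators Kronecker ComplexOrder
open Matrix

namespace Helper611.Dep



section J8
variable {α β : Type} [Fintype α] [Fintype β] [DecidableEq α] [DecidableEq β]

omit [Fintype α] [Fintype β] [DecidableEq α] [DecidableEq β] in
theorem two_of_three_tm (Φ : Matrix (α × β) (α × β) ℂ → Matrix (α × β) (α × β) ℂ)
    (Y : Matrix (α × β) (α × β) ℂ) :
    (tensorMap Φ (depol (ι := Unit) 0) (Y.submatrix Prod.fst Prod.fst)).submatrix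
      (fun p => (p, ())) (fun p => (p, ())) = Φ Y := by
  have hd : ∀ X : Matrix Unit Unit ℂ, depol (ι := Unit) 0 X = X := by
    intro X
    ext a b
    simp [depol, Matrix.trace]
  have h1 : onSnd (depol (ι := Unit) 0) (Y.submatrix Prod.fst Prod.fst) =
      (Y.submatrix Prod.fst Prod.fst : Matrix ((α × β) × Unit) ((α × β) × Unit) ℂ) := by
    ext p q
    simp only [onSnd, Matrix.of_apply, hd]
  unfold tensorMap
  rw [h1]
  ext p q
  rfl

/-- the norm on `(α × β) × Unit` -/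
theorem two_of_three_norm (N : Matrix (α × β) (α × β) ℂ → ℝ) (hN : IsUINorm N) :
    IsUINorm (fun Y : Matrix ((α × β) × Unit) ((α × β) × Unit) ℂ =>
      N (Y.submatrix (fun p => (p, ())) (fun p => (p, ())))) where
  add_le X Y := by
    rw [Matrix.submatrix_add]
    exact hN.add_le _ _
  smul c X := by
    rw [Matrix.submatrix_smul]
    exact hN.smul _ _
  eq_zero X hX := by
    have h := hN.eq_zero _ hX
    ext p q
    obtain ⟨p1, ⟨⟩⟩ := p
    obtain ⟨q1, ⟨⟩⟩ := q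
    exact congrFun (congrFun h p1) q1
  unitary U V X hU hV := by
    let e : (α × β) ≃ (α × β) × Unit := (Equiv.prodPUnit (α × β)).symm
    have hsub : ∀ W : Matrix ((α × β) × Unit) ((α × β) × Unit) ℂ,
        W.submatrix (fun p => (p, ())) (fun p => (p, ())) = W.submatrix e e := fun W => rfl
    have hun : ∀ W ∈ Matrix.unitaryGroup ((α × β) × Unit) ℂ,
        W.submatrix e e ∈ Matrix.unitaryGroup (α × β) ℂ := by
      intro W hW
      rw [Matrix.mem_unitaryGroup_iff] at hW ⊢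
      have e1 : star (W.submatrix e e) = (star W).submatrix e e := by
        ext a b
        rfl
      rw [e1, Matrix.submatrix_mul_equiv, hW, Matrix.submatrix_one_equiv]
    show N _ = N _
    rw [hsub, hsub, ← Matrix.submatrix_mul_equiv (U * X) V e e e,
      ← Matrix.submatrix_mul_equiv U X e e e]
    exact hN.unitary _ _ _ (hun U hU) (hun V hV)

/-- reduction of two factors to three factors with a trivial third factor `Unit`. -/
theorem two_of_three
    (T3 : ∀ (N : Matrix ((α × β) × Unit) ((α × β) × Unit) ℂ → ℝ), IsUINorm N →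
      ∀ ρ : Matrix ((α × β) × Unit) ((α × β) × Unit) ℂ, IsState ρ →
      ∀ (ψ1 : α → ℂ) (ψ2 : β → ℂ) (ψ3 : Unit → ℂ), IsUnitVec ψ1 → IsUnitVec ψ2 → IsUnitVec ψ3 →
      ∀ q1 q2 q3 : ℝ, 0 ≤ q1 → q1 ≤ 1 → 0 ≤ q2 → q2 ≤ 1 → 0 ≤ q3 → q3 ≤ 1 →
        (q1 * (Fintype.card α + 1) ≤ 1 ∨ q2 * (Fintype.card β + 1) ≤ 1 ∨
          q3 * (Fintype.card Unit + 1) ≤ 1) →
      N (tensorMap (tensorMap (depol q1) (depol q2)) (depol q3) ρ) ≤
        N (tensorMap (tensorMap (depol q1) (depol q2)) (depol q3)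
          ((pureSt ψ1 ⊗ₖ pureSt ψ2) ⊗ₖ pureSt ψ3)))
    (N : Matrix (α × β) (α × β) ℂ → ℝ) (hN : IsUINorm N)
    (ρ : Matrix (α × β) (α × β) ℂ) (hρ : IsState ρ)
    (ψ1 : α → ℂ) (ψ2 : β → ℂ) (h1 : IsUnitVec ψ1) (h2 : IsUnitVec ψ2)
    (q1 q2 : ℝ) (hq1 : 0 ≤ q1) (hq1' : q1 ≤ 1) (hq2 : 0 ≤ q2) (hq2' : q2 ≤ 1) :
    N (tensorMap (depol q1) (depol q2) ρ) ≤
      N (tensorMap (depol q1) (depol q2) (pureSt ψ1 ⊗ₖ pureSt ψ2)) := by
  have hst : IsState (ρ.submatrix Prod.fst Prod.fst : Matrix ((α × β) × Unit) ((α × β) × Unit) ℂ) := by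
    refine ⟨hρ.1.submatrix _, ?_⟩
    rw [← hρ.2]
    unfold Matrix.trace
    rw [Fintype.sum_prod_type]
    simp
  have hu : IsUnitVec (fun _ : Unit => (1 : ℂ)) := by
    simp [IsUnitVec]
  have h := T3 _ (two_of_three_norm N hN) _ hst ψ1 ψ2 (fun _ => 1) h1 h2 hu q1 q2 0 hq1 hq1' hq2 hq2'
    le_rfl zero_le_one (Or.inr (Or.inr (by simp)))
  have hk : ((pureSt ψ1 ⊗ₖ pureSt ψ2) ⊗ₖ pureSt (fun _ : Unit => (1 : ℂ))) =
      ((pureSt ψ1 ⊗ₖ pureSt ψ2).submatrix Prod.fst Prod.fst :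
        Matrix ((α × β) × Unit) ((α × β) × Unit) ℂ) := by
    ext p q
    simp [pureSt, Matrix.kroneckerMap_apply, Matrix.vecMulVec_apply]
  rw [hk] at h
  simp only [two_of_three_tm] at h
  exact h
end J8

end Helper611.Dep
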