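import Pool.Agent.Helper611.Dep.Def

open scoped BigOperators Kronecker ComplexOrder
open Matrix

namespace Helper611.Dep



section J9
variable {α β γ : Type} [Fintype α] [Fintype β] [Fintype γ]
  [DecidableEq α] [DecidableEq β] [DecidableEq γ]

theorem trace_P1 (X : Matrix ((α × β) × γ) ((α × β) × γ) ℂ) :
    (P1 X).trace = (Fintype.card α : ℂ) * X.trace := by
  simp only [Matrix.trace, Matrix.diag_apply, P1, Matrix.of_apply, if_true]
  simp only [Fintype.sum_prod_type]
  rw [Finset.sum_const, Finset.card_univ, nsmul_eq_mul]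
  congr 1
  have h : ∀ b : β, ∑ g : γ, ∑ a : α, X ((a, b), g) ((a, b), g)
      = ∑ a : α, ∑ g : γ, X ((a, b), g) ((a, b), g) := fun b => Finset.sum_comm
  simp only [h]
  exact Finset.sum_comm

theorem trace_P2 (X : Matrix ((α × β) × γ) ((α × β) × γ) ℂ) :
    (P2 X).trace = (Fintype.card β : ℂ) * X.trace := by
  simp only [Matrix.trace, Matrix.diag_apply, P2, Matrix.of_apply, if_true]
  simp only [Fintype.sum_prod_type]
  simp only [Finset.sum_const, Finset.card_univ, nsmul_eq_mul]
  rw [Finset.mul_sum]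
  refine Finset.sum_congr rfl fun b _ => ?_
  congr 1
  rw [Finset.sum_comm]

theorem trace_P3 (X : Matrix ((α × β) × γ) ((α × β) × γ) ℂ) :
    (P3 X).trace = (Fintype.card γ : ℂ) * X.trace := by
  simp only [Matrix.trace, Matrix.diag_apply, P3, Matrix.of_apply, if_true]
  simp only [Fintype.sum_prod_type]
  simp only [Finset.sum_const, Finset.card_univ, nsmul_eq_mul]
  rw [Finset.mul_sum]
  refine Finset.sum_congr rfl fun b _ => ?_
  rw [Finset.mul_sum]

theorem trace_comb (a0 : α) (b0 : β) (g0 : γ) (c0 c1 c2 c3 c12 c13 c23 c123 : ℝ)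
    {X : Matrix ((α × β) × γ) ((α × β) × γ) ℂ} (htr : X.trace = 1) :
    (comb c0 c1 c2 c3 c12 c13 c23 c123 X).trace =
      ((∑ z : (α × β) × γ, (c0 + (if z.1.1 = a0 then c1 else 0) + (if z.1.2 = b0 then c2 else 0)
        + (if z.2 = g0 then c3 else 0)
        + (if z.1.1 = a0 then (if z.1.2 = b0 then c12 else 0) else 0)
        + (if z.1.1 = a0 then (if z.2 = g0 then c13 else 0) else 0)
        + (if z.1.2 = b0 then (if z.2 = g0 then c23 else 0) else 0)
        + (if z.1.1 = a0 then (if z.1.2 = b0 then (if z.2 = g0 then c123 else 0) else 0) else 0)) : ℝ) : ℂ) := by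
  have h1 : (comb c0 c1 c2 c3 c12 c13 c23 c123 X).trace
      = (c0 : ℂ) * ((Fintype.card α : ℂ) * ((Fintype.card β : ℂ) * (Fintype.card γ : ℂ)))
        + (c1 : ℂ) * ((Fintype.card β : ℂ) * (Fintype.card γ : ℂ))
        + (c2 : ℂ) * ((Fintype.card α : ℂ) * (Fintype.card γ : ℂ))
        + (c3 : ℂ) * ((Fintype.card α : ℂ) * (Fintype.card β : ℂ))
        + (c12 : ℂ) * (Fintype.card γ : ℂ) + (c13 : ℂ) * (Fintype.card β : ℂ)
        + (c23 : ℂ) * (Fintype.card α : ℂ) + (c123 : ℂ) := by
    simp only [comb, Matrix.trace_add, Matrix.trace_smul, trace_P1, trace_P2, trace_P3, htr,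
      smul_eq_mul, mul_one]
  have e1 : ∀ (c : ℝ), ∑ x : α, (if x = a0 then c else 0) = c := by intro c; simp
  have e2 : ∀ (c : ℝ), ∑ x : β, (if x = b0 then c else 0) = c := by intro c; simp
  have e3 : ∀ (c : ℝ), ∑ x : γ, (if x = g0 then c else 0) = c := by intro c; simp
  have s1 : ∑ z : (α × β) × γ, (if z.1.1 = a0 then c1 else 0)
      = c1 * ((Fintype.card β : ℝ) * (Fintype.card γ : ℝ)) := by
    rw [Fintype.sum_prod_type, Fintype.sum_prod_type]
    change ∑ x : α, ∑ y : β, ∑ w : γ, (if x = a0 then c1 else 0) = _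
    simp only [Finset.sum_const, Finset.card_univ, nsmul_eq_mul, ← Finset.mul_sum, e1]
    ring
  have s2 : ∑ z : (α × β) × γ, (if z.1.2 = b0 then c2 else 0)
      = c2 * ((Fintype.card α : ℝ) * (Fintype.card γ : ℝ)) := by
    rw [Fintype.sum_prod_type, Fintype.sum_prod_type]
    change ∑ x : α, ∑ y : β, ∑ w : γ, (if y = b0 then c2 else 0) = _
    simp only [Finset.sum_const, Finset.card_univ, nsmul_eq_mul, ← Finset.mul_sum, e2]
    ring
  have s3 : ∑ z : (α × β) × γ, (if z.2 = g0 then c3 else 0)
      = c3 * ((Fintype.card α : ℝ) * (Fintype.card β : ℝ)) := by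
    rw [Fintype.sum_prod_type, Fintype.sum_prod_type]
    change ∑ x : α, ∑ y : β, ∑ w : γ, (if w = g0 then c3 else 0) = _
    simp only [Finset.sum_const, Finset.card_univ, nsmul_eq_mul, ← Finset.mul_sum, e3]
    ring
  have s12 : ∑ z : (α × β) × γ, (if z.1.1 = a0 then (if z.1.2 = b0 then c12 else 0) else 0)
      = c12 * (Fintype.card γ : ℝ) := by
    rw [Fintype.sum_prod_type, Fintype.sum_prod_type]
    change ∑ x : α, ∑ y : β, ∑ w : γ, (if x = a0 then (if y = b0 then c12 else 0) else 0) = _
    simp only [Finset.sum_const, Finset.card_univ, nsmul_eq_mul, ← Finset.mul_sum]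
    have : ∀ x : α, ∑ y : β, (if x = a0 then (if y = b0 then c12 else 0) else 0)
        = if x = a0 then c12 else 0 := by
      intro x; split_ifs with h
      · exact e2 c12
      · simp
    simp only [this, e1]
    ring
  have s13 : ∑ z : (α × β) × γ, (if z.1.1 = a0 then (if z.2 = g0 then c13 else 0) else 0)
      = c13 * (Fintype.card β : ℝ) := by
    rw [Fintype.sum_prod_type, Fintype.sum_prod_type]
    change ∑ x : α, ∑ y : β, ∑ w : γ, (if x = a0 then (if w = g0 then c13 else 0) else 0) = _
    have : ∀ x : α, ∑ y : γ, (if x = a0 then (if y = g0 then c13 else 0) else 0)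
        = if x = a0 then c13 else 0 := by
      intro x; split_ifs with h
      · exact e3 c13
      · simp
    simp only [this, Finset.sum_const, Finset.card_univ, nsmul_eq_mul, ← Finset.mul_sum, e1]
    ring
  have s23 : ∑ z : (α × β) × γ, (if z.1.2 = b0 then (if z.2 = g0 then c23 else 0) else 0)
      = c23 * (Fintype.card α : ℝ) := by
    rw [Fintype.sum_prod_type, Fintype.sum_prod_type]
    change ∑ x : α, ∑ y : β, ∑ w : γ, (if y = b0 then (if w = g0 then c23 else 0) else 0) = _
    have : ∀ x : β, ∑ y : γ, (if x = b0 then (if y = g0 then c23 else 0) else 0)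
        = if x = b0 then c23 else 0 := by
      intro x; split_ifs with h
      · exact e3 c23
      · simp
    simp only [this, Finset.sum_const, Finset.card_univ, nsmul_eq_mul, e2]
    ring
  have s123 : ∑ z : (α × β) × γ, (if z.1.1 = a0 then (if z.1.2 = b0 then (if z.2 = g0 then c123 else 0) else 0) else 0)
      = c123 := by
    rw [Fintype.sum_prod_type, Fintype.sum_prod_type]
    change ∑ x : α, ∑ y : β, ∑ w : γ, (if x = a0 then (if y = b0 then (if w = g0 then c123 else 0) else 0) else 0) = _
    have h3 : ∀ (x : α) (y : β), ∑ w : γ, (if x = a0 then (if y = b0 then (if w = g0 then c123 else 0) else 0) else 0)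
        = if x = a0 then (if y = b0 then c123 else 0) else 0 := by
      intro x y; split_ifs with h h'
      · exact e3 c123
      · simp
      · simp
    have h2 : ∀ x : α, ∑ y : β, (if x = a0 then (if y = b0 then c123 else 0) else 0)
        = if x = a0 then c123 else 0 := by
      intro x; split_ifs with h
      · exact e2 c123
      · simp
    simp only [h3, h2, e1]
  have s0 : ∑ _z : (α × β) × γ, c0
      = c0 * ((Fintype.card α : ℝ) * ((Fintype.card β : ℝ) * (Fintype.card γ : ℝ))) := by
    rw [Finset.sum_const, Finset.card_univ, nsmul_eq_mul, Fintype.card_prod, Fintype.card_prod]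
    push_cast
    ring
  rw [h1]
  simp only [Finset.sum_add_distrib, s0, s1, s2, s3, s12, s13, s23, s123]
  push_cast
  ring
end J9

end Helper611.Dep
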