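import Pool.Agent.Helper611.Dep.Def

open scoped BigOperators Kronecker ComplexOrder
open Matrix

namespace Helper611.Dep



section K1
variable {α β γ : Type} [Fintype α] [Fintype β] [Fintype γ]
  [DecidableEq α] [DecidableEq β] [DecidableEq γ]

theorem P1_add' (X Y : Matrix ((α × β) × γ) ((α × β) × γ) ℂ) : P1 (X + Y) = P1 X + P1 Y := by
  ext x y
  simp only [P1, Matrix.of_apply, Matrix.add_apply]
  split_ifs
  · rw [Finset.sum_add_distrib]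
  · simp

theorem P2_add' (X Y : Matrix ((α × β) × γ) ((α × β) × γ) ℂ) : P2 (X + Y) = P2 X + P2 Y := by
  ext x y
  simp only [P2, Matrix.of_apply, Matrix.add_apply]
  split_ifs
  · rw [Finset.sum_add_distrib]
  · simp

theorem P3_add' (X Y : Matrix ((α × β) × γ) ((α × β) × γ) ℂ) : P3 (X + Y) = P3 X + P3 Y := by
  ext x y
  simp only [P3, Matrix.of_apply, Matrix.add_apply]
  split_ifs
  · rw [Finset.sum_add_distrib]
  · simp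

theorem P1_kron (A : Matrix α α ℂ) (B : Matrix β β ℂ) (C : Matrix γ γ ℂ) :
    P1 ((A ⊗ₖ B) ⊗ₖ C) = A.trace • (((1 : Matrix α α ℂ) ⊗ₖ B) ⊗ₖ C) := by
  ext x y
  obtain ⟨⟨x1, x2⟩, x3⟩ := x
  obtain ⟨⟨y1, y2⟩, y3⟩ := y
  simp only [P1, Matrix.of_apply, Matrix.smul_apply, Matrix.kroneckerMap_apply, Matrix.one_apply,
    Matrix.trace, Matrix.diag_apply, smul_eq_mul]
  split_ifs
  · rw [Finset.sum_mul]
    exact Finset.sum_congr rfl fun i _ => by ring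
  · simp

theorem P2_kron (A : Matrix α α ℂ) (B : Matrix β β ℂ) (C : Matrix γ γ ℂ) :
    P2 ((A ⊗ₖ B) ⊗ₖ C) = B.trace • ((A ⊗ₖ (1 : Matrix β β ℂ)) ⊗ₖ C) := by
  ext x y
  obtain ⟨⟨x1, x2⟩, x3⟩ := x
  obtain ⟨⟨y1, y2⟩, y3⟩ := y
  simp only [P2, Matrix.of_apply, Matrix.smul_apply, Matrix.kroneckerMap_apply, Matrix.one_apply,
    Matrix.trace, Matrix.diag_apply, smul_eq_mul]
  split_ifs
  · rw [Finset.sum_mul]
    exact Finset.sum_congr rfl fun i _ => by ring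
  · simp

theorem P3_kron (A : Matrix α α ℂ) (B : Matrix β β ℂ) (C : Matrix γ γ ℂ) :
    P3 ((A ⊗ₖ B) ⊗ₖ C) = C.trace • ((A ⊗ₖ B) ⊗ₖ (1 : Matrix γ γ ℂ)) := by
  ext x y
  obtain ⟨⟨x1, x2⟩, x3⟩ := x
  obtain ⟨⟨y1, y2⟩, y3⟩ := y
  simp only [P3, Matrix.of_apply, Matrix.smul_apply, Matrix.kroneckerMap_apply, Matrix.one_apply,
    Matrix.trace, Matrix.diag_apply, smul_eq_mul]
  split_ifs
  · rw [Finset.sum_mul]
    exact Finset.sum_congr rfl fun i _ => by ring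
  · simp

theorem single_kron3 (x y : (α × β) × γ) (c : ℂ) :
    Matrix.single x y c = ((Matrix.single x.1.1 y.1.1 c) ⊗ₖ (Matrix.single x.1.2 y.1.2 (1:ℂ))) ⊗ₖ
      (Matrix.single x.2 y.2 (1:ℂ)) := by
  ext u v
  obtain ⟨⟨x1, x2⟩, x3⟩ := x
  obtain ⟨⟨y1, y2⟩, y3⟩ := y
  obtain ⟨⟨u1, u2⟩, u3⟩ := u
  obtain ⟨⟨v1, v2⟩, v3⟩ := v
  simp only [Matrix.kronecker_apply, Matrix.single_apply, Prod.mk.injEq]
  by_cases ha : x1 = u1 <;> by_cases hb : x2 = u2 <;> by_cases hc : x3 = u3 <;>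
    by_cases ha' : y1 = v1 <;> by_cases hb' : y2 = v2 <;> by_cases hc' : y3 = v3 <;>
    simp [ha, hb, hc, ha', hb', hc']

theorem tr_conj_unitary {ι : Type} [Fintype ι] [DecidableEq ι] (U A : Matrix ι ι ℂ)
    (h : U ∈ Matrix.unitaryGroup ι ℂ) : (U * A * Uᴴ).trace = A.trace := by
  have h' : Uᴴ * U = 1 := by
    have := Matrix.mem_unitaryGroup_iff'.mp h
    rwa [Matrix.star_eq_conjTranspose] at this
  rw [Matrix.trace_mul_comm, ← Matrix.mul_assoc, h', Matrix.one_mul]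

theorem one_conj_unitary {ι : Type} [Fintype ι] [DecidableEq ι] (U : Matrix ι ι ℂ)
    (h : U ∈ Matrix.unitaryGroup ι ℂ) : U * 1 * Uᴴ = 1 := by
  have h' : U * Uᴴ = 1 := by
    have := Matrix.mem_unitaryGroup_iff.mp h
    rwa [Matrix.star_eq_conjTranspose] at this
  rw [Matrix.mul_one, h']

theorem kron3_conj (U1 A : Matrix α α ℂ) (U2 B : Matrix β β ℂ) (U3 C : Matrix γ γ ℂ) :
    ((U1 ⊗ₖ U2) ⊗ₖ U3) * ((A ⊗ₖ B) ⊗ₖ C) * ((U1 ⊗ₖ U2) ⊗ₖ U3)ᴴ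
      = ((U1 * A * U1ᴴ) ⊗ₖ (U2 * B * U2ᴴ)) ⊗ₖ (U3 * C * U3ᴴ) := by
  rw [Matrix.conjTranspose_kronecker, Matrix.conjTranspose_kronecker, ← Matrix.mul_kronecker_mul,
    ← Matrix.mul_kronecker_mul, ← Matrix.mul_kronecker_mul, ← Matrix.mul_kronecker_mul]

/-- covariance of the partial-trace maps under product unitaries -/
theorem P_cov (U1 : Matrix α α ℂ) (U2 : Matrix β β ℂ) (U3 : Matrix γ γ ℂ)
    (h1 : U1 ∈ Matrix.unitaryGroup α ℂ) (h2 : U2 ∈ Matrix.unitaryGroup β ℂ)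
    (h3 : U3 ∈ Matrix.unitaryGroup γ ℂ) (X : Matrix ((α × β) × γ) ((α × β) × γ) ℂ) :
    P1 (((U1 ⊗ₖ U2) ⊗ₖ U3) * X * ((U1 ⊗ₖ U2) ⊗ₖ U3)ᴴ) =
        ((U1 ⊗ₖ U2) ⊗ₖ U3) * P1 X * ((U1 ⊗ₖ U2) ⊗ₖ U3)ᴴ ∧
    P2 (((U1 ⊗ₖ U2) ⊗ₖ U3) * X * ((U1 ⊗ₖ U2) ⊗ₖ U3)ᴴ) =
        ((U1 ⊗ₖ U2) ⊗ₖ U3) * P2 X * ((U1 ⊗ₖ U2) ⊗ₖ U3)ᴴ ∧
    P3 (((U1 ⊗ₖ U2) ⊗ₖ U3) * X * ((U1 ⊗ₖ U2) ⊗ₖ U3)ᴴ) =
        ((U1 ⊗ₖ U2) ⊗ₖ U3) * P3 X * ((U1 ⊗ₖ U2) ⊗ₖ U3)ᴴ := by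
  have hz1 : P1 (0 : Matrix ((α × β) × γ) ((α × β) × γ) ℂ) = 0 := by
    have := P1_add' (0 : Matrix ((α × β) × γ) ((α × β) × γ) ℂ) 0
    simpa using this
  have hz2 : P2 (0 : Matrix ((α × β) × γ) ((α × β) × γ) ℂ) = 0 := by
    have := P2_add' (0 : Matrix ((α × β) × γ) ((α × β) × γ) ℂ) 0
    simpa using this
  have hz3 : P3 (0 : Matrix ((α × β) × γ) ((α × β) × γ) ℂ) = 0 := by
    have := P3_add' (0 : Matrix ((α × β) × γ) ((α × β) × γ) ℂ) 0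
    simpa using this
  induction X using Matrix.induction_on' with
  | h_zero =>
    simp only [Matrix.mul_zero, Matrix.zero_mul, hz1, hz2, hz3, and_self]
  | h_add p q hp hq =>
    simp only [Matrix.mul_add, Matrix.add_mul, P1_add', P2_add', P3_add', hp.1, hp.2.1, hp.2.2,
      hq.1, hq.2.1, hq.2.2, and_self]
  | h_std_basis i j x =>
    rw [single_kron3 i j x, kron3_conj]
    refine ⟨?_, ?_, ?_⟩
    · rw [P1_kron, P1_kron, Matrix.mul_smul, Matrix.smul_mul, kron3_conj,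
        tr_conj_unitary _ _ h1, one_conj_unitary _ h1]
    · rw [P2_kron, P2_kron, Matrix.mul_smul, Matrix.smul_mul, kron3_conj,
        tr_conj_unitary _ _ h2, one_conj_unitary _ h2]
    · rw [P3_kron, P3_kron, Matrix.mul_smul, Matrix.smul_mul, kron3_conj,
        tr_conj_unitary _ _ h3, one_conj_unitary _ h3]
end K1

end Helper611.Dep
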