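import Pool.Agent.Helper611.Dep.Def

open scoped BigOperators Kronecker ComplexOrder
open Matrix

namespace Helper611.Dep




/-- diagonalisation of a qubit state -/
theorem qubit_diag (r : Matrix (Fin 2) (Fin 2) ℂ) (h : r.PosSemidef) (htr : r.trace = 1) :
    ∃ U ∈ Matrix.unitaryGroup (Fin 2) ℂ, ∃ e : ℝ, 0 ≤ e ∧ e ≤ 1 / 2 ∧
      U * r * Uᴴ = Matrix.diagonal (fun i : Fin 2 => ((if i = 0 then 1 - e else e : ℝ) : ℂ)) := by
  have hH := h.1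
  set V : Matrix (Fin 2) (Fin 2) ℂ := (hH.eigenvectorUnitary : Matrix (Fin 2) (Fin 2) ℂ) with hV
  have hVm : V ∈ Matrix.unitaryGroup (Fin 2) ℂ := hH.eigenvectorUnitary.2
  have hV1 : Vᴴ * V = 1 := Matrix.mem_unitaryGroup_iff'.mp hVm
  have hV2 : V * Vᴴ = 1 := Matrix.mem_unitaryGroup_iff.mp hVm
  have hsp : r = V * diagonal (fun i => (hH.eigenvalues i : ℂ)) * Vᴴ := by
    have := hH.spectral_theorem
    rw [Unitary.conjStarAlgAut_apply] at this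
    exact this
  have hd : Vᴴ * r * V = diagonal (fun i => (hH.eigenvalues i : ℂ)) := by
    conv_lhs => rw [hsp]
    have : Vᴴ * (V * diagonal (fun i => (hH.eigenvalues i : ℂ)) * Vᴴ) * V =
        (Vᴴ * V) * diagonal (fun i => (hH.eigenvalues i : ℂ)) * (Vᴴ * V) := by
      simp only [Matrix.mul_assoc]
    rw [this, hV1, Matrix.one_mul, Matrix.mul_one]
  have hn0 := h.eigenvalues_nonneg 0
  have hn1 := h.eigenvalues_nonneg 1
  have hs : hH.eigenvalues 0 + hH.eigenvalues 1 = 1 := by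
    have := hH.trace_eq_sum_eigenvalues
    rw [htr, Fin.sum_univ_two] at this
    have h3 : ((hH.eigenvalues 0 + hH.eigenvalues 1 : ℝ) : ℂ) = ((1 : ℝ) : ℂ) := by
      push_cast
      exact this.symm
    exact_mod_cast h3
  have hVh : Vᴴ ∈ Matrix.unitaryGroup (Fin 2) ℂ := by
    rw [Matrix.mem_unitaryGroup_iff]
    show Vᴴ * (Vᴴ)ᴴ = 1
    rw [Matrix.conjTranspose_conjTranspose]; exact hV1
  by_cases hc : hH.eigenvalues 1 ≤ 1 / 2
  · refine ⟨Vᴴ, hVh, hH.eigenvalues 1, hn1, hc, ?_⟩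
    rw [Matrix.conjTranspose_conjTranspose, hd]
    ext i j
    fin_cases i <;> fin_cases j <;> simp [Matrix.diagonal]
    rw [← Complex.ofReal_one, ← Complex.ofReal_sub]
    congr 1
    linarith
  · have hc0 : hH.eigenvalues 0 ≤ 1 / 2 := by
      have := not_le.mp hc
      linarith
    set S : Matrix (Fin 2) (Fin 2) ℂ := !![0, 1; 1, 0] with hS
    have hSh : Sᴴ = S := by
      ext i j
      fin_cases i <;> fin_cases j <;> simp [S, Matrix.conjTranspose_apply]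
    have hSS : S * S = 1 := by
      ext i j
      fin_cases i <;> fin_cases j <;> simp [S, Matrix.mul_apply, Fin.sum_univ_two]
    refine ⟨S * Vᴴ, ?_, hH.eigenvalues 0, hn0, hc0, ?_⟩
    · apply Submonoid.mul_mem _ _ hVh
      rw [Matrix.mem_unitaryGroup_iff]
      show S * Sᴴ = 1
      rw [hSh, hSS]
    · rw [Matrix.conjTranspose_mul, Matrix.conjTranspose_conjTranspose, hSh]
      have : S * Vᴴ * r * (V * S) = S * (Vᴴ * r * V) * S := by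
        simp only [Matrix.mul_assoc]
      rw [this, hd]
      ext i j
      fin_cases i <;> fin_cases j <;>
        simp [S, Matrix.mul_apply, Fin.sum_univ_two, Matrix.diagonal, Matrix.vecHead,
          Matrix.vecTail]
      rw [← Complex.ofReal_one, ← Complex.ofReal_sub]
      congr 1
      linarith

theorem trace_conj {κ : Type} [Fintype κ] (W X K : Matrix κ κ ℂ) :
    (W * X * Wᴴ * K).trace = (X * (Wᴴ * K * W)).trace := by
  rw [show W * X * Wᴴ * K = W * (X * (Wᴴ * K)) by simp only [Matrix.mul_assoc],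
    Matrix.trace_mul_comm]
  simp only [Matrix.mul_assoc]

/-- marginals -/
noncomputable def R1 (X : Matrix ((Fin 2 × Fin 2) × Fin 2) ((Fin 2 × Fin 2) × Fin 2) ℂ) :
    Matrix (Fin 2) (Fin 2) ℂ :=
  ∑ a : Fin 2, ∑ c : Fin 2, X.submatrix (fun i => ((i, a), c)) (fun i => ((i, a), c))

noncomputable def R2 (X : Matrix ((Fin 2 × Fin 2) × Fin 2) ((Fin 2 × Fin 2) × Fin 2) ℂ) :
    Matrix (Fin 2) (Fin 2) ℂ :=
  ∑ a : Fin 2, ∑ c : Fin 2, X.submatrix (fun i => ((a, i), c)) (fun i => ((a, i), c))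

noncomputable def R3 (X : Matrix ((Fin 2 × Fin 2) × Fin 2) ((Fin 2 × Fin 2) × Fin 2) ℂ) :
    Matrix (Fin 2) (Fin 2) ℂ :=
  ∑ a : Fin 2, ∑ c : Fin 2, X.submatrix (fun i => ((a, c), i)) (fun i => ((a, c), i))

theorem R1_psd {X : Matrix ((Fin 2 × Fin 2) × Fin 2) ((Fin 2 × Fin 2) × Fin 2) ℂ}
    (h : X.PosSemidef) : (R1 X).PosSemidef :=
  posSemidef_sum _ fun _ _ => posSemidef_sum _ fun _ _ => h.submatrix _

theorem R2_psd {X : Matrix ((Fin 2 × Fin 2) × Fin 2) ((Fin 2 × Fin 2) × Fin 2) ℂ}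
    (h : X.PosSemidef) : (R2 X).PosSemidef :=
  posSemidef_sum _ fun _ _ => posSemidef_sum _ fun _ _ => h.submatrix _

theorem R3_psd {X : Matrix ((Fin 2 × Fin 2) × Fin 2) ((Fin 2 × Fin 2) × Fin 2) ℂ}
    (h : X.PosSemidef) : (R3 X).PosSemidef :=
  posSemidef_sum _ fun _ _ => posSemidef_sum _ fun _ _ => h.submatrix _

theorem R1_tr (X : Matrix ((Fin 2 × Fin 2) × Fin 2) ((Fin 2 × Fin 2) × Fin 2) ℂ)
    (M : Matrix (Fin 2) (Fin 2) ℂ) :
    (R1 X * M).trace = (X * ((M ⊗ₖ (1 : Matrix (Fin 2) (Fin 2) ℂ)) ⊗ₖ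
      (1 : Matrix (Fin 2) (Fin 2) ℂ))).trace := by
  simp [R1, Matrix.trace, Matrix.mul_apply, Fintype.sum_prod_type, Fin.sum_univ_two,
    Matrix.one_apply]
  ring

theorem R2_tr (X : Matrix ((Fin 2 × Fin 2) × Fin 2) ((Fin 2 × Fin 2) × Fin 2) ℂ)
    (M : Matrix (Fin 2) (Fin 2) ℂ) :
    (R2 X * M).trace = (X * (((1 : Matrix (Fin 2) (Fin 2) ℂ) ⊗ₖ M) ⊗ₖ
      (1 : Matrix (Fin 2) (Fin 2) ℂ))).trace := by
  simp [R2, Matrix.trace, Matrix.mul_apply, Fintype.sum_prod_type, Fin.sum_univ_two,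
    Matrix.one_apply]
  ring

theorem R3_tr (X : Matrix ((Fin 2 × Fin 2) × Fin 2) ((Fin 2 × Fin 2) × Fin 2) ℂ)
    (M : Matrix (Fin 2) (Fin 2) ℂ) :
    (R3 X * M).trace = (X * (((1 : Matrix (Fin 2) (Fin 2) ℂ) ⊗ₖ
      (1 : Matrix (Fin 2) (Fin 2) ℂ)) ⊗ₖ M)).trace := by
  simp [R3, Matrix.trace, Matrix.mul_apply, Fintype.sum_prod_type, Fin.sum_univ_two,
    Matrix.one_apply]
  ring

theorem R1_cov (X : Matrix ((Fin 2 × Fin 2) × Fin 2) ((Fin 2 × Fin 2) × Fin 2) ℂ)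
    {U1 U2 U3 : Matrix (Fin 2) (Fin 2) ℂ} (h2 : U2ᴴ * U2 = 1) (h3 : U3ᴴ * U3 = 1) :
    R1 (((U1 ⊗ₖ U2) ⊗ₖ U3) * X * ((U1 ⊗ₖ U2) ⊗ₖ U3)ᴴ) = U1 * R1 X * U1ᴴ := by
  rw [Matrix.ext_iff_trace_mul_right]
  intro M
  rw [R1_tr, trace_conj, trace_conj, R1_tr]
  rw [Matrix.conjTranspose_kronecker, Matrix.conjTranspose_kronecker,
    ← Matrix.mul_kronecker_mul, ← Matrix.mul_kronecker_mul, ← Matrix.mul_kronecker_mul,
    ← Matrix.mul_kronecker_mul, Matrix.mul_one, Matrix.mul_one, h2, h3]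

theorem R2_cov (X : Matrix ((Fin 2 × Fin 2) × Fin 2) ((Fin 2 × Fin 2) × Fin 2) ℂ)
    {U1 U2 U3 : Matrix (Fin 2) (Fin 2) ℂ} (h1 : U1ᴴ * U1 = 1) (h3 : U3ᴴ * U3 = 1) :
    R2 (((U1 ⊗ₖ U2) ⊗ₖ U3) * X * ((U1 ⊗ₖ U2) ⊗ₖ U3)ᴴ) = U2 * R2 X * U2ᴴ := by
  rw [Matrix.ext_iff_trace_mul_right]
  intro M
  rw [R2_tr, trace_conj, trace_conj, R2_tr]
  rw [Matrix.conjTranspose_kronecker, Matrix.conjTranspose_kronecker,
    ← Matrix.mul_kronecker_mul, ← Matrix.mul_kronecker_mul, ← Matrix.mul_kronecker_mul,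
    ← Matrix.mul_kronecker_mul, Matrix.mul_one, Matrix.mul_one, h1, h3]

theorem R3_cov (X : Matrix ((Fin 2 × Fin 2) × Fin 2) ((Fin 2 × Fin 2) × Fin 2) ℂ)
    {U1 U2 U3 : Matrix (Fin 2) (Fin 2) ℂ} (h1 : U1ᴴ * U1 = 1) (h2 : U2ᴴ * U2 = 1) :
    R3 (((U1 ⊗ₖ U2) ⊗ₖ U3) * X * ((U1 ⊗ₖ U2) ⊗ₖ U3)ᴴ) = U3 * R3 X * U3ᴴ := by
  rw [Matrix.ext_iff_trace_mul_right]
  intro M
  rw [R3_tr, trace_conj, trace_conj, R3_tr]
  rw [Matrix.conjTranspose_kronecker, Matrix.conjTranspose_kronecker,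
    ← Matrix.mul_kronecker_mul, ← Matrix.mul_kronecker_mul, ← Matrix.mul_kronecker_mul,
    ← Matrix.mul_kronecker_mul, Matrix.mul_one, Matrix.mul_one, h1, h2]

theorem P23_eq (Y : Matrix ((Fin 2 × Fin 2) × Fin 2) ((Fin 2 × Fin 2) × Fin 2) ℂ)
    (d : Fin 2 → ℂ) (h : R1 Y = Matrix.diagonal d) :
    P2 (P3 Y) = Matrix.diagonal (fun z => d z.1.1) := by
  have h' : ∀ i j, ∑ a : Fin 2, ∑ c : Fin 2, Y ((i, a), c) ((j, a), c) =
      if i = j then d i else 0 := by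
    intro i j
    have := congrFun (congrFun h i) j
    simpa [R1, Matrix.sum_apply, Matrix.diagonal_apply] using this
  ext ⟨⟨i, a⟩, c⟩ ⟨⟨j, b⟩, e⟩
  simp only [P2, P3, Matrix.of_apply, Matrix.diagonal_apply, Prod.mk.injEq]
  by_cases h1 : a = b
  · by_cases h2 : c = e
    · subst h1 h2
      simp only [if_true, and_true]
      exact h' i j
    · simp [h2]
  · simp [h1]

theorem P13_eq (Y : Matrix ((Fin 2 × Fin 2) × Fin 2) ((Fin 2 × Fin 2) × Fin 2) ℂ)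
    (d : Fin 2 → ℂ) (h : R2 Y = Matrix.diagonal d) :
    P1 (P3 Y) = Matrix.diagonal (fun z => d z.1.2) := by
  have h' : ∀ i j, ∑ a : Fin 2, ∑ c : Fin 2, Y ((a, i), c) ((a, j), c) =
      if i = j then d i else 0 := by
    intro i j
    have := congrFun (congrFun h i) j
    simpa [R2, Matrix.sum_apply, Matrix.diagonal_apply] using this
  ext ⟨⟨i, a⟩, c⟩ ⟨⟨j, b⟩, e⟩
  simp only [P1, P3, Matrix.of_apply, Matrix.diagonal_apply, Prod.mk.injEq]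
  by_cases h1 : i = j
  · by_cases h2 : c = e
    · subst h1 h2
      simp only [if_true, and_true, true_and]
      exact h' a b
    · simp [h2]
  · simp [h1]

theorem P12_eq (Y : Matrix ((Fin 2 × Fin 2) × Fin 2) ((Fin 2 × Fin 2) × Fin 2) ℂ)
    (d : Fin 2 → ℂ) (h : R3 Y = Matrix.diagonal d) :
    P1 (P2 Y) = Matrix.diagonal (fun z => d z.2) := by
  have h' : ∀ i j, ∑ a : Fin 2, ∑ c : Fin 2, Y ((a, c), i) ((a, c), j) =
      if i = j then d i else 0 := by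
    intro i j
    have := congrFun (congrFun h i) j
    simpa [R3, Matrix.sum_apply, Matrix.diagonal_apply] using this
  ext ⟨⟨i, a⟩, c⟩ ⟨⟨j, b⟩, e⟩
  simp only [P1, P2, Matrix.of_apply, Matrix.diagonal_apply, Prod.mk.injEq]
  by_cases h1 : i = j
  · by_cases h2 : a = b
    · subst h1 h2
      simp only [if_true, true_and]
      exact h' c e
    · simp [h2]
  · simp [h1]

/-- qubits: after a product unitary all three one-site marginals are diagonal, with the smaller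
eigenvalue at index 1. -/
theorem qubit_marginals {X : Matrix ((Fin 2 × Fin 2) × Fin 2) ((Fin 2 × Fin 2) × Fin 2) ℂ}
    (h : X.PosSemidef) (htr : X.trace = 1) :
    ∃ U1 ∈ Matrix.unitaryGroup (Fin 2) ℂ, ∃ U2 ∈ Matrix.unitaryGroup (Fin 2) ℂ,
    ∃ U3 ∈ Matrix.unitaryGroup (Fin 2) ℂ, ∃ e1 e2 e3 : ℝ,
      0 ≤ e1 ∧ e1 ≤ 1 / 2 ∧ 0 ≤ e2 ∧ e2 ≤ 1 / 2 ∧ 0 ≤ e3 ∧ e3 ≤ 1 / 2 ∧
      ∀ X' : Matrix ((Fin 2 × Fin 2) × Fin 2) ((Fin 2 × Fin 2) × Fin 2) ℂ,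
        X' = ((U1 ⊗ₖ U2) ⊗ₖ U3) * X * ((U1 ⊗ₖ U2) ⊗ₖ U3)ᴴ →
        P2 (P3 X') = Matrix.diagonal (fun z => ((if z.1.1 = 0 then 1 - e1 else e1 : ℝ) : ℂ)) ∧
        P1 (P3 X') = Matrix.diagonal (fun z => ((if z.1.2 = 0 then 1 - e2 else e2 : ℝ) : ℂ)) ∧
        P1 (P2 X') = Matrix.diagonal (fun z => ((if z.2 = 0 then 1 - e3 else e3 : ℝ) : ℂ)) := by
  have t1 : (R1 X).trace = 1 := by
    have := R1_tr X 1
    rw [Matrix.mul_one] at this
    rw [this, ← htr]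
    simp
  have t2 : (R2 X).trace = 1 := by
    have := R2_tr X 1
    rw [Matrix.mul_one] at this
    rw [this, ← htr]
    simp
  have t3 : (R3 X).trace = 1 := by
    have := R3_tr X 1
    rw [Matrix.mul_one] at this
    rw [this, ← htr]
    simp
  obtain ⟨U1, hU1, e1, a1, b1, c1⟩ := qubit_diag (R1 X) (R1_psd h) t1
  obtain ⟨U2, hU2, e2, a2, b2, c2⟩ := qubit_diag (R2 X) (R2_psd h) t2
  obtain ⟨U3, hU3, e3, a3, b3, c3⟩ := qubit_diag (R3 X) (R3_psd h) t3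
  have v1 : U1ᴴ * U1 = 1 := Matrix.mem_unitaryGroup_iff'.mp hU1
  have v2 : U2ᴴ * U2 = 1 := Matrix.mem_unitaryGroup_iff'.mp hU2
  have v3 : U3ᴴ * U3 = 1 := Matrix.mem_unitaryGroup_iff'.mp hU3
  refine ⟨U1, hU1, U2, hU2, U3, hU3, e1, e2, e3, a1, b1, a2, b2, a3, b3, ?_⟩
  intro X' hX'
  refine ⟨?_, ?_, ?_⟩
  · apply P23_eq X' (fun i => ((if i = 0 then 1 - e1 else e1 : ℝ) : ℂ))
    rw [hX', R1_cov X v2 v3, c1]
  · apply P13_eq X' (fun i => ((if i = 0 then 1 - e2 else e2 : ℝ) : ℂ))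
    rw [hX', R2_cov X v1 v3, c2]
  · apply P12_eq X' (fun i => ((if i = 0 then 1 - e3 else e3 : ℝ) : ℂ))
    rw [hX', R3_cov X v1 v2, c3]

end Helper611.Dep
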