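import Pool.Agent.Helper611.Dep.Def

open scoped BigOperators Kronecker ComplexOrder
open Matrix

namespace Helper611.Dep



theorem secular_prod {ι : Type} [Fintype ι] [DecidableEq ι] (u v : ι → ℂ) (δ : ι → ℝ) (x y : ι) :
    ((1 - Matrix.vecMulVec u (star v) : Matrix ι ι ℂ)ᴴ *
      Matrix.diagonal (fun x => ((δ x : ℝ) : ℂ)) *
      (1 - Matrix.vecMulVec u (star v) : Matrix ι ι ℂ)) x y =
    (if x = y then ((δ x : ℝ) : ℂ) else 0) - ((δ x : ℝ) : ℂ) * u x * star (v y)
      - v x * star (u y) * ((δ y : ℝ) : ℂ)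
      + v x * star (v y) * ∑ z, ((δ z : ℝ) : ℂ) * (u z * star (u z)) := by
  rw [Matrix.mul_apply]
  have h1 : ∀ z, ((1 - Matrix.vecMulVec u (star v) : Matrix ι ι ℂ)ᴴ *
      Matrix.diagonal (fun x => ((δ x : ℝ) : ℂ)) : Matrix ι ι ℂ) x z *
      (1 - Matrix.vecMulVec u (star v) : Matrix ι ι ℂ) z y =
      (if x = z then (if z = y then ((δ z : ℝ) : ℂ) else 0) else 0)
      - (if x = z then ((δ z : ℝ) : ℂ) * u z * star (v y) else 0)
      - (if z = y then v x * star (u z) * ((δ z : ℝ) : ℂ) else 0)
      + v x * star (v y) * (((δ z : ℝ) : ℂ) * (u z * star (u z))) := by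
    intro z
    rw [Matrix.mul_diagonal, Matrix.conjTranspose_apply]
    simp only [Matrix.sub_apply, Matrix.one_apply, Matrix.vecMulVec_apply, Pi.star_apply,
      star_sub, star_mul, star_star]
    by_cases hxz : x = z
    · subst hxz
      by_cases hxy : x = y
      · simp only [hxy, if_true, star_one]
        ring
      · simp only [hxy, if_true, if_false, star_one]
        ring
    · have hzx : ¬ z = x := fun h => hxz h.symm
      by_cases hzy : z = y
      · simp only [hzy, hxz, hzx, if_true, if_false, star_zero]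
        subst hzy
        simp only [hzx, hxz, if_false, star_zero]
        ring
      · simp only [hzy, hxz, hzx, if_false, star_zero]
        ring
  simp only [h1]
  rw [Finset.sum_add_distrib, Finset.sum_sub_distrib, Finset.sum_sub_distrib, ← Finset.mul_sum]
  simp only [Finset.sum_ite_eq, Finset.sum_ite_eq', Finset.mem_univ, if_true]

/-- rank one perturbation of a negative diagonal matrix: the positive part has trace at most `E`
if the secular sum at `E` is at most one. -/
theorem secular {ι : Type} [Fintype ι] [DecidableEq ι] (v : ι → ℂ) (δ : ι → ℝ) (E : ℝ)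
    (hE : 0 < E) (hδ : ∀ x, 0 ≤ δ x) (hs : ∑ x, ‖v x‖ ^ 2 / (E + δ x) ≤ 1) :
    ∃ T : Matrix ι ι ℂ, T.PosSemidef ∧
      (T - (Matrix.vecMulVec v (star v) - Matrix.diagonal (fun x => ((δ x : ℝ) : ℂ)))).PosSemidef ∧
      T.trace.re ≤ E := by
  have hD : ∀ x, 0 < E + δ x := fun x => by linarith [hδ x]
  have hdiag : (Matrix.diagonal (fun x => ((δ x : ℝ) : ℂ))).PosSemidef :=
    Matrix.PosSemidef.diagonal (fun x => by
      show (0:ℂ) ≤ ((δ x : ℝ) : ℂ)
      exact Complex.zero_le_real.2 (hδ x))
  set u : ι → ℂ := fun x => v x / ((E + δ x : ℝ) : ℂ) with hu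
  have hv : ∀ x, v x = ((E + δ x : ℝ) : ℂ) * u x := by
    intro x
    have h1 : ((E + δ x : ℝ) : ℂ) ≠ 0 := by exact_mod_cast (hD x).ne'
    simp only [hu]
    field_simp
  set n2 : ℝ := ∑ x, ‖u x‖ ^ 2 with hn2
  have hn0 : 0 ≤ n2 := Finset.sum_nonneg fun x _ => sq_nonneg _
  rcases hn0.eq_or_lt with h0 | hpos
  · have hu0 : ∀ x, u x = 0 := by
      intro x
      have h1 := (Finset.sum_eq_zero_iff_of_nonneg (fun x _ => sq_nonneg (‖u x‖))).1 h0.symm x
        (Finset.mem_univ x)
      exact norm_eq_zero.1 (pow_eq_zero_iff (two_ne_zero)|>.1 h1)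
    have hv0 : v = 0 := by
      funext x
      rw [hv x, hu0 x, mul_zero]
      rfl
    refine ⟨0, Matrix.PosSemidef.zero, ?_, ?_⟩
    · rw [hv0]
      simpa using hdiag
    · simpa using hE.le
  · have hnn : ∀ x, u x * star (u x) = ((‖u x‖ ^ 2 : ℝ) : ℂ) := by
      intro x
      rw [← Complex.normSq_eq_norm_sq, ← Complex.mul_conj]
      rfl
    set s : ℝ := ∑ x, δ x * ‖u x‖ ^ 2 with hs'
    set σ : ℝ := E * n2 + s with hσ
    have hσ1 : σ ≤ 1 := by
      refine le_trans (le_of_eq ?_) hs
      rw [hσ, hn2, hs', Finset.mul_sum, ← Finset.sum_add_distrib]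
      refine Finset.sum_congr rfl fun x _ => ?_
      rw [hv x, norm_mul, Complex.norm_real, Real.norm_eq_abs, abs_of_pos (hD x)]
      have := (hD x).ne'
      field_simp
    have hsum : ∑ z, ((δ z : ℝ) : ℂ) * (u z * star (u z)) = ((s : ℝ) : ℂ) := by
      rw [hs']
      push_cast
      refine Finset.sum_congr rfl fun z _ => ?_
      rw [hnn z]
      push_cast
      rfl
    refine ⟨((E / n2 : ℝ) : ℂ) • Matrix.vecMulVec u (star u), ?_, ?_, ?_⟩
    · exact (Matrix.posSemidef_vecMulVec_self_star u).smul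
        (Complex.zero_le_real.2 (by positivity))
    · set w : ι → ℂ := fun x => ((1 / n2 : ℝ) : ℂ) * u x - v x with hw
      have key : ((E / n2 : ℝ) : ℂ) • Matrix.vecMulVec u (star u) -
          (Matrix.vecMulVec v (star v) - Matrix.diagonal (fun x => ((δ x : ℝ) : ℂ))) =
          ((E * n2 : ℝ) : ℂ) • Matrix.vecMulVec w (star w) +
          (1 - Matrix.vecMulVec u (star v) : Matrix ι ι ℂ)ᴴ *
            Matrix.diagonal (fun x => ((δ x : ℝ) : ℂ)) *
            (1 - Matrix.vecMulVec u (star v) : Matrix ι ι ℂ) +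
          ((1 - σ : ℝ) : ℂ) • Matrix.vecMulVec v (star v) := by
        ext x y
        rw [Matrix.add_apply, Matrix.add_apply, secular_prod, hsum]
        simp only [Matrix.sub_apply, Matrix.smul_apply, Matrix.vecMulVec_apply, Pi.star_apply,
          Matrix.diagonal_apply, smul_eq_mul, hw, star_sub, star_mul]
        have e1 : star (((1 / n2 : ℝ) : ℂ)) = ((1 / n2 : ℝ) : ℂ) := Complex.conj_ofReal _
        have e2 : star (v y) = star (u y) * ((E + δ y : ℝ) : ℂ) := by
          rw [hv y, star_mul]
          congr 1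
          exact Complex.conj_ofReal _
        rw [e1, e2, hv x]
        have hn2' : (n2 : ℂ) ≠ 0 := by exact_mod_cast hpos.ne'
        rw [hσ]
        push_cast
        field_simp
        ring
      rw [key]
      refine ((Matrix.PosSemidef.add ?_ ?_).add ?_)
      · exact (Matrix.posSemidef_vecMulVec_self_star w).smul
          (Complex.zero_le_real.2 (by positivity))
      · exact hdiag.conjTranspose_mul_mul_same _
      · exact (Matrix.posSemidef_vecMulVec_self_star v).smul
          (Complex.zero_le_real.2 (by linarith))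
    · rw [Matrix.trace_smul]
      have h1 : (Matrix.vecMulVec u (star u)).trace = ((n2 : ℝ) : ℂ) := by
        rw [Matrix.trace, hn2]
        push_cast
        refine Finset.sum_congr rfl fun x _ => ?_
        rw [Matrix.diag_apply, Matrix.vecMulVec_apply, Pi.star_apply, hnn x]
        push_cast
        rfl
      rw [h1, smul_eq_mul, ← Complex.ofReal_mul, Complex.ofReal_re]
      have := hpos.ne'
      rw [div_mul_cancel₀ _ this]

end Helper611.Dep
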