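import Pool.Agent.Helper611.Dep.Def

open scoped BigOperators Kronecker ComplexOrder
open Matrix

namespace Helper611.Dep



theorem secular_scalar (p000 p100 p010 p001 p011 p101 p110 p111 e1 e2 e3 : ℝ)
    (h000 : 0 ≤ p000) (h100 : 0 ≤ p100) (h010 : 0 ≤ p010) (h001 : 0 ≤ p001) (h011 : 0 ≤ p011)
    (h101 : 0 ≤ p101) (h110 : 0 ≤ p110) (h111 : 0 ≤ p111)
    (hsum : p000 + p100 + p010 + p001 + p011 + p101 + p110 + p111 = 1)
    (he1 : e1 = p100 + p110 + p101 + p111) (he2 : e2 = p010 + p110 + p011 + p111)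
    (he3 : e3 = p001 + p101 + p011 + p111)
    (t1 : e1 ≤ e2 + e3) (t2 : e2 ≤ e1 + e3) (t3 : e3 ≤ e1 + e2) (hE : 0 < e1 + e2 + e3)
    (hE1 : e1 + e2 + e3 < 1) :
    p111 / (e1 + e2 + e3) + p011 / (2 * (e2 + e3)) + p101 / (2 * (e1 + e3))
      + p110 / (2 * (e1 + e2)) + p100 / (1 + 2 * e1) + p010 / (1 + 2 * e2) + p001 / (1 + 2 * e3)
      + p000 / 2 ≤ 1 := by
  have hhalf : ∀ p x : ℝ, 0 ≤ p → (e1 + e2 + e3) ≤ 2 * x → p / (2 * x) ≤ p / (e1 + e2 + e3) :=
    fun p x hp hx => div_le_div_of_nonneg_left hp hE hx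
  have a1 := hhalf p011 (e2 + e3) h011 (by linarith)
  have a2 := hhalf p101 (e1 + e3) h101 (by linarith)
  have a3 := hhalf p110 (e1 + e2) h110 (by linarith)
  have hone : ∀ p x : ℝ, 0 ≤ p → 0 ≤ x → p / (1 + 2 * x) ≤ p := fun p x hp hx =>
    div_le_self hp (by linarith)
  have b1 := hone p100 e1 h100 (by rw [he1]; positivity)
  have b2 := hone p010 e2 h010 (by rw [he2]; positivity)
  have b3 := hone p001 e3 h001 (by rw [he3]; positivity)
  have key : (p111 + p011 + p101 + p110) / (e1 + e2 + e3) ≤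
      (1 - (p100 + p010 + p001) + (p111 + p011 + p101 + p110)) / 2 := by
    rw [div_le_div_iff₀ hE two_pos]
    set K := p100 + p010 + p001 with hK
    set m := p111 + p011 + p101 + p110 with hm
    have hK0 : 0 ≤ K := by positivity
    have hm0 : 0 ≤ m := by positivity
    have hKm : K + m ≤ 1 := by linarith
    have hE2 : K + 2 * m ≤ e1 + e2 + e3 := by
      rw [he1, he2, he3, hK, hm]
      linarith
    have h1 : 0 ≤ 1 - K + m := by linarith
    have h2 : (1 - K + m) * (K + 2 * m) ≤ (1 - K + m) * (e1 + e2 + e3) :=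
      mul_le_mul_of_nonneg_left hE2 h1
    nlinarith [mul_nonneg hK0 (sub_nonneg.2 hKm), sq_nonneg m]
  have hsplit : (p111 + p011 + p101 + p110) / (e1 + e2 + e3) = p111 / (e1 + e2 + e3) +
      p011 / (e1 + e2 + e3) + p101 / (e1 + e2 + e3) + p110 / (e1 + e2 + e3) := by
    rw [add_div, add_div, add_div]
  rw [hsplit] at key
  linarith

end Helper611.Dep
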