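import Pool.Agent.Helper611.Dep.Def

open scoped BigOperators Kronecker ComplexOrder
open Matrix

namespace Helper611.Dep



/-- the one qubit flip -/
theorem flip_one (f : Fin 2 → Fin 2 → ℂ) (x y : Fin 2) :
    (if x = y then ∑ a, f a a else 0) - f x y =
      ((-1 : ℂ) ^ (x : ℕ)) * ((-1 : ℂ) ^ (y : ℕ)) * f (y + 1) (x + 1) := by
  fin_cases x <;> fin_cases y <;> simp [Fin.sum_univ_two]

/-- spin flip identity for three qubits -/
theorem flip_identity (X : Matrix ((Fin 2 × Fin 2) × Fin 2) ((Fin 2 × Fin 2) × Fin 2) ℂ) :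
    comb 1 (-1) (-1) (-1) 1 1 1 (-1) X =
      Matrix.of fun x y => ((-1 : ℂ) ^ ((x.1.1 : ℕ) + (x.1.2 : ℕ) + (x.2 : ℕ))) *
        ((-1 : ℂ) ^ ((y.1.1 : ℕ) + (y.1.2 : ℕ) + (y.2 : ℕ))) *
        X ((y.1.1 + 1, y.1.2 + 1), y.2 + 1) ((x.1.1 + 1, x.1.2 + 1), x.2 + 1) := by
  ext ⟨⟨x1, x2⟩, x3⟩ ⟨⟨y1, y2⟩, y3⟩
  have h3 := flip_one (fun a b => X ((y1 + 1, y2 + 1), a) ((x1 + 1, x2 + 1), b)) x3 y3
  have h2 := fun a b => flip_one (fun p q => X ((y1 + 1, p), a) ((x1 + 1, q), b)) x2 y2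
  have h1 := fun p q a b => flip_one (fun c d => X ((c, p), a) ((d, q), b)) x1 y1
  have e : ((-1 : ℂ) ^ ((x1 : ℕ) + (x2 : ℕ) + (x3 : ℕ))) *
        ((-1 : ℂ) ^ ((y1 : ℕ) + (y2 : ℕ) + (y3 : ℕ))) *
        X ((y1 + 1, y2 + 1), y3 + 1) ((x1 + 1, x2 + 1), x3 + 1) =
      (((-1 : ℂ) ^ (x1 : ℕ)) * ((-1 : ℂ) ^ (y1 : ℕ))) * ((((-1 : ℂ) ^ (x2 : ℕ)) * ((-1 : ℂ) ^ (y2 : ℕ))) *
        ((((-1 : ℂ) ^ (x3 : ℕ)) * ((-1 : ℂ) ^ (y3 : ℕ))) *
        X ((y1 + 1, y2 + 1), y3 + 1) ((x1 + 1, x2 + 1), x3 + 1))) := by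
    rw [pow_add, pow_add, pow_add, pow_add]
    ring
  refine Eq.trans ?_ e.symm
  rw [← h3]
  rw [mul_sub, mul_ite, mul_zero, Finset.mul_sum]
  simp only [← h2]
  rw [mul_sub, mul_ite, mul_zero, Finset.mul_sum]
  simp only [mul_sub, mul_ite, mul_zero, Finset.mul_sum]
  simp only [← h1]
  simp only [comb, P1, P2, P3, Matrix.add_apply, Matrix.smul_apply, Matrix.of_apply,
    Fin.sum_univ_two, smul_eq_mul]
  push_cast
  by_cases hx1 : x1 = y1 <;> by_cases hx2 : x2 = y2 <;> by_cases hx3 : x3 = y3 <;>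
    simp [hx1, hx2, hx3] <;> ring

/-- Bessel type bound for two orthogonal vectors -/
theorem bessel_two {κ : Type} [Fintype κ] [DecidableEq κ] (u v : κ → ℂ) (m : ℝ)
    (horth : ∑ k, u k * star (v k) = 0) (hu : ∑ k, ‖u k‖ ^ 2 ≤ m) (hv : ∑ k, ‖v k‖ ^ 2 ≤ m)
    (w : κ) : ‖u w‖ ^ 2 + ‖v w‖ ^ 2 ≤ m := by
  have horth' : ∑ k, v k * star (u k) = 0 := by
    have h := congrArg star horth
    rw [star_sum, star_zero] at h
    rw [← h]
    apply Finset.sum_congr rfl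
    intro k _
    rw [star_mul', star_star, mul_comm]
  have hsum : ((∑ k, ‖star (u w) * u k + star (v w) * v k‖ ^ 2 : ℝ) : ℂ) =
      ((‖u w‖ ^ 2 * ∑ k, ‖u k‖ ^ 2 + ‖v w‖ ^ 2 * ∑ k, ‖v k‖ ^ 2 : ℝ) : ℂ) := by
    push_cast
    have h1 : ∀ k, ((‖star (u w) * u k + star (v w) * v k‖ : ℂ)) ^ 2 =
        (‖u w‖ : ℂ) ^ 2 * (‖u k‖ : ℂ) ^ 2 + (‖v w‖ : ℂ) ^ 2 * (‖v k‖ : ℂ) ^ 2 +
        star (u w) * v w * (u k * star (v k)) + star (v w) * u w * (v k * star (u k)) := by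
      intro k
      simp only [← Complex.mul_conj']
      simp only [map_add, map_mul, Complex.star_def, Complex.conj_conj]
      ring
    rw [Finset.sum_congr rfl (fun k _ => h1 k), Finset.sum_add_distrib, Finset.sum_add_distrib,
      Finset.sum_add_distrib, ← Finset.mul_sum, ← Finset.mul_sum, ← Finset.mul_sum,
      ← Finset.mul_sum, horth, horth']
    ring
  have hsum' := Complex.ofReal_injective hsum
  have hle : ‖star (u w) * u w + star (v w) * v w‖ ^ 2 ≤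
      ∑ k, ‖star (u w) * u k + star (v w) * v k‖ ^ 2 :=
    Finset.single_le_sum (f := fun k => ‖star (u w) * u k + star (v w) * v k‖ ^ 2)
      (fun k _ => by positivity) (Finset.mem_univ w)
  have hcw : star (u w) * u w + star (v w) * v w = (((‖u w‖ ^ 2 + ‖v w‖ ^ 2 : ℝ)) : ℂ) := by
    push_cast
    simp only [← Complex.mul_conj', Complex.star_def]
    ring
  rw [hcw, Complex.norm_real, Real.norm_eq_abs, sq_abs, hsum'] at hle
  have ha : 0 ≤ ‖u w‖ ^ 2 := by positivity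
  have hb : 0 ≤ ‖v w‖ ^ 2 := by positivity
  have h3 : (‖u w‖ ^ 2 + ‖v w‖ ^ 2) ^ 2 ≤ (‖u w‖ ^ 2 + ‖v w‖ ^ 2) * m := by
    nlinarith [mul_le_mul_of_nonneg_left hu ha, mul_le_mul_of_nonneg_left hv hb]
  have hm : 0 ≤ m := le_trans (Finset.sum_nonneg fun k _ => by positivity) hu
  rcases (add_nonneg ha hb).eq_or_lt with h0 | h0
  · rw [← h0]; exact hm
  · rw [pow_two] at h3
    exact le_of_mul_le_mul_left h3 h0

end Helper611.Dep
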