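import Pool.Agent.Helper611.Dep.Def

open scoped BigOperators Kronecker ComplexOrder
open Matrix

namespace Helper611.Dep



section K6
variable {κ : Type} [Fintype κ] [DecidableEq κ]

/-- `X_1 ⊗ 1 + 1 ⊗ X_2 - X` on `C^2 ⊗ C^κ`. -/
def MM (X : Matrix (Fin 2 × κ) (Fin 2 × κ) ℂ) : Matrix (Fin 2 × κ) (Fin 2 × κ) ℂ :=
  Matrix.of fun x y => (if x.2 = y.2 then ∑ k, X (x.1, k) (y.1, k) else 0)
    + (if x.1 = y.1 then ∑ a, X (a, x.2) (a, y.2) else 0) - X x y


omit [DecidableEq κ] in
theorem H682_R0 (u0 u1 v0 v1 : κ → ℂ) (h : ∑ l, v0 l * star (v1 l) = 0) :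
    ∑ k, ∑ l, Complex.normSq (u0 k * v0 l + u1 k * v1 l)
      = (∑ k, Complex.normSq (u0 k)) * (∑ l, Complex.normSq (v0 l))
        + (∑ k, Complex.normSq (u1 k)) * (∑ l, Complex.normSq (v1 l)) := by
  have hc : ∑ k, ∑ l, 2 * ((u0 k * v0 l) * (starRingEnd ℂ) (u1 k * v1 l)).re = 0 := by
    have h1 : ∀ k, ∑ l, 2 * ((u0 k * v0 l) * (starRingEnd ℂ) (u1 k * v1 l)).re
        = (2 * (u0 k * (starRingEnd ℂ) (u1 k)) * ∑ l, v0 l * star (v1 l)).re := by
      intro k
      rw [Finset.mul_sum, Complex.re_sum]
      apply Finset.sum_congr rfl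
      intro l _
      rw [map_mul]
      have : 2 * (u0 k * (starRingEnd ℂ) (u1 k)) * (v0 l * star (v1 l))
          = ((2:ℝ):ℂ) * ((u0 k * v0 l) * ((starRingEnd ℂ) (u1 k) * (starRingEnd ℂ) (v1 l))) := by
        simp only [Complex.star_def]
        push_cast
        ring
      rw [this, Complex.re_ofReal_mul]
    simp_rw [h1, h]
    simp
  simp_rw [Complex.normSq_add, Finset.sum_add_distrib]
  rw [hc, add_zero]
  simp_rw [Complex.normSq_mul, ← Finset.mul_sum, ← Finset.sum_mul]

omit [DecidableEq κ] in
theorem H682_CS (u v : κ → ℂ) :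
    Complex.normSq (∑ k, u k * v k) ≤ (∑ k, Complex.normSq (u k)) * (∑ k, Complex.normSq (v k)) := by
  simp_rw [Complex.normSq_eq_norm_sq]
  have h1 : ‖∑ k, u k * v k‖ ≤ ∑ k, ‖u k‖ * ‖v k‖ := by
    refine (norm_sum_le _ _).trans (le_of_eq ?_)
    simp
  calc ‖∑ k, u k * v k‖ ^ 2 ≤ (∑ k, ‖u k‖ * ‖v k‖) ^ 2 :=
        pow_le_pow_left₀ (norm_nonneg _) h1 2
    _ ≤ _ := Finset.sum_mul_sq_le_sq_mul_sq _ _ _

omit [DecidableEq κ] in
theorem H682_two (a b : ℂ) : Complex.normSq (a + b) ≤ 2 * (Complex.normSq a + Complex.normSq b) := by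
  simp only [Complex.normSq_apply, Complex.add_re, Complex.add_im]
  nlinarith [sq_nonneg (a.re - b.re), sq_nonneg (a.im - b.im)]

omit [DecidableEq κ] in
theorem H682_R1 (u0 u1 v0 v1 : κ → ℂ) :
    Complex.normSq (∑ k, (u0 k * v0 k + u1 k * v1 k))
      ≤ 2 * ∑ k, ∑ l, Complex.normSq (u0 k * v0 l + u1 k * v1 l) := by
  obtain ⟨c, hc⟩ : ∃ c : ℂ, ∑ l, v0 l * star (v1 l - c * v0 l) = 0 := by
    by_cases h0 : ∑ l, v0 l * star (v0 l) = 0
    · refine ⟨0, ?_⟩
      have hz : ∀ l, v0 l = 0 := by
        have h1 : ∑ l, Complex.normSq (v0 l) = 0 := by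
          have h2 : ((∑ l, Complex.normSq (v0 l) : ℝ) : ℂ) = 0 := by
            push_cast
            rw [← h0]
            apply Finset.sum_congr rfl
            intro l _
            rw [Complex.star_def, Complex.mul_conj]
          exact_mod_cast h2
        rw [Finset.sum_eq_zero_iff_of_nonneg (fun l _ => Complex.normSq_nonneg _)] at h1
        intro l
        exact Complex.normSq_eq_zero.1 (h1 l (Finset.mem_univ l))
      simp [hz]
    · refine ⟨star ((∑ l, v0 l * star (v1 l)) / (∑ l, v0 l * star (v0 l))), ?_⟩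
      have : ∀ l, v0 l * star (v1 l - star ((∑ l, v0 l * star (v1 l)) / (∑ l, v0 l * star (v0 l))) * v0 l)
          = v0 l * star (v1 l) - ((∑ l, v0 l * star (v1 l)) / (∑ l, v0 l * star (v0 l)))
            * (v0 l * star (v0 l)) := by
        intro l
        rw [star_sub, star_mul', star_star]
        ring
      simp_rw [this, Finset.sum_sub_distrib, ← Finset.mul_sum]
      rw [div_mul_cancel₀ _ h0, sub_self]
  have e : ∀ k l, u0 k * v0 l + u1 k * v1 l
      = (u0 k + c * u1 k) * v0 l + u1 k * (v1 l - c * v0 l) := by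
    intro k l; ring
  simp_rw [e]
  rw [H682_R0 (fun k => u0 k + c * u1 k) u1 v0 (fun l => v1 l - c * v0 l) hc, Finset.sum_add_distrib]
  refine (H682_two _ _).trans ?_
  have h1 := H682_CS (fun k => u0 k + c * u1 k) v0
  have h2 := H682_CS u1 (fun l => v1 l - c * v0 l)
  linarith

theorem H682_pure (φ : Fin 2 × κ → ℂ) : (MM (pureSt φ)).PosSemidef := by
  refine Matrix.PosSemidef.of_dotProduct_mulVec_nonneg ?_ ?_
  · ext x y
    simp only [MM, pureSt, Matrix.conjTranspose_apply, Matrix.of_apply, Matrix.vecMulVec_apply,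
      Pi.star_apply, star_sub, star_add, star_mul', star_star]
    have h1 : star (if y.2 = x.2 then ∑ k, φ (y.1, k) * star (φ (x.1, k)) else 0)
        = (if x.2 = y.2 then ∑ k, φ (x.1, k) * star (φ (y.1, k)) else 0) := by
      by_cases h : x.2 = y.2
      · rw [if_pos h, if_pos h.symm, star_sum]
        apply Finset.sum_congr rfl
        intro k _
        rw [star_mul', star_star, mul_comm]
      · rw [if_neg h, if_neg (fun h' => h h'.symm), star_zero]
    have h2 : star (if y.1 = x.1 then ∑ k, φ (k, y.2) * star (φ (k, x.2)) else 0)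
        = (if x.1 = y.1 then ∑ k, φ (k, x.2) * star (φ (k, y.2)) else 0) := by
      by_cases h : x.1 = y.1
      · rw [if_pos h, if_pos h.symm, star_sum]
        apply Finset.sum_congr rfl
        intro k _
        rw [star_mul', star_star, mul_comm]
      · rw [if_neg h, if_neg (fun h' => h h'.symm), star_zero]
    rw [h1, h2]
    ring
  · intro f
    have key : star f ⬝ᵥ (MM (pureSt φ) *ᵥ f)
        = (((∑ k, ∑ l, Complex.normSq (star (f (0, k)) * φ (0, l) + star (f (1, k)) * φ (1, l)))
          + (∑ a, ∑ b, Complex.normSq (∑ k, star (f (a, k)) * φ (b, k)))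
          - Complex.normSq (∑ k, (star (f (0, k)) * φ (0, k) + star (f (1, k)) * φ (1, k))) : ℝ) : ℂ) := by
      have hA : ∑ x, ∑ y, star (f x) * (if x.2 = y.2 then ∑ k, φ (x.1, k) * star (φ (y.1, k))
          else 0) * f y = ∑ k, ∑ l, (star (f (0, k)) * φ (0, l) + star (f (1, k)) * φ (1, l))
            * star (star (f (0, k)) * φ (0, l) + star (f (1, k)) * φ (1, l)) := by
        rw [Fintype.sum_prod_type]
        have inner : ∀ (a : Fin 2) (k : κ), ∑ y : Fin 2 × κ, star (f (a, k)) *
            (if k = y.2 then ∑ l, φ (a, l) * star (φ (y.1, l)) else 0) * f y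
            = ∑ b, star (f (a, k)) * (∑ l, φ (a, l) * star (φ (b, l))) * f (b, k) := by
          intro a k
          rw [Fintype.sum_prod_type]
          apply Finset.sum_congr rfl
          intro b _
          rw [Finset.sum_eq_single k]
          · simp
          · intro l _ hl
            simp [Ne.symm hl]
          · intro h; exact absurd (Finset.mem_univ k) h
        simp only [inner]
        simp only [Fin.sum_univ_two]
        rw [← Finset.sum_add_distrib]
        apply Finset.sum_congr rfl
        intro k _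
        simp only [Finset.mul_sum, Finset.sum_mul]
        rw [← Finset.sum_add_distrib, ← Finset.sum_add_distrib, ← Finset.sum_add_distrib]
        apply Finset.sum_congr rfl
        intro l _
        simp only [star_add, star_mul', star_star]
        ring
      have hB : ∑ x, ∑ y, star (f x) * (if x.1 = y.1 then ∑ a, φ (a, x.2) * star (φ (a, y.2))
          else 0) * f y = ∑ a, ∑ b, (∑ k, star (f (a, k)) * φ (b, k))
            * star (∑ k, star (f (a, k)) * φ (b, k)) := by
        rw [Fintype.sum_prod_type]
        apply Finset.sum_congr rfl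
        intro a _
        have inner : ∀ (k : κ), ∑ y : Fin 2 × κ, star (f (a, k)) *
            (if a = y.1 then ∑ c, φ (c, k) * star (φ (c, y.2)) else 0) * f y
            = ∑ l, star (f (a, k)) * (∑ c, φ (c, k) * star (φ (c, l))) * f (a, l) := by
          intro k
          rw [Fintype.sum_prod_type, Finset.sum_eq_single a]
          · simp
          · intro b _ hb
            simp [Ne.symm hb]
          · intro h; exact absurd (Finset.mem_univ a) h
        simp only [inner]
        simp only [star_sum, Finset.sum_mul_sum]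
        simp only [Fin.sum_univ_two]
        rw [← Finset.sum_add_distrib]
        apply Finset.sum_congr rfl
        intro k _
        rw [← Finset.sum_add_distrib]
        apply Finset.sum_congr rfl
        intro l _
        simp only [star_mul', star_star]
        ring
      have hC : ∑ x, ∑ y, star (f x) * (φ x * star (φ y)) * f y
          = (∑ k, (star (f (0, k)) * φ (0, k) + star (f (1, k)) * φ (1, k)))
            * star (∑ k, (star (f (0, k)) * φ (0, k) + star (f (1, k)) * φ (1, k))) := by
        have e1 : ∑ k, (star (f (0, k)) * φ (0, k) + star (f (1, k)) * φ (1, k))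
            = ∑ x, star (f x) * φ x := by
          rw [Fintype.sum_prod_type, Fin.sum_univ_two, ← Finset.sum_add_distrib]
        rw [e1, star_sum, Finset.sum_mul_sum]
        apply Finset.sum_congr rfl
        intro x _
        apply Finset.sum_congr rfl
        intro y _
        simp only [star_mul', star_star]
        ring
      have hL : star f ⬝ᵥ (MM (pureSt φ) *ᵥ f)
          = ∑ x, ∑ y, star (f x) * (if x.2 = y.2 then ∑ k, φ (x.1, k) * star (φ (y.1, k))
              else 0) * f y
            + ∑ x, ∑ y, star (f x) * (if x.1 = y.1 then ∑ a, φ (a, x.2) * star (φ (a, y.2))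
              else 0) * f y
            - ∑ x, ∑ y, star (f x) * (φ x * star (φ y)) * f y := by
        rw [← Finset.sum_add_distrib, ← Finset.sum_sub_distrib]
        simp only [dotProduct, Matrix.mulVec]
        apply Finset.sum_congr rfl
        intro x _
        rw [← Finset.sum_add_distrib, ← Finset.sum_sub_distrib, Finset.mul_sum]
        apply Finset.sum_congr rfl
        intro y _
        simp only [MM, pureSt, Matrix.of_apply, Matrix.vecMulVec_apply, Pi.star_apply]
        ring
      have nq : ∀ z : ℂ, z * star z = ((Complex.normSq z : ℝ) : ℂ) := by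
        intro z; rw [Complex.star_def, Complex.mul_conj]
      rw [hL, hA, hB, hC]
      simp only [nq]
      push_cast
      rfl
    rw [key]
    have h1 := H682_R1 (fun k => star (f (0, k))) (fun k => star (f (1, k)))
      (fun k => φ (0, k)) (fun k => φ (1, k))
    have h2 := H682_two (∑ k, star (f (0, k)) * φ (0, k)) (∑ k, star (f (1, k)) * φ (1, k))
    rw [← Finset.sum_add_distrib] at h2
    have h3 : Complex.normSq (∑ k, star (f (0, k)) * φ (0, k))
        + Complex.normSq (∑ k, star (f (1, k)) * φ (1, k))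
        ≤ ∑ a, ∑ b, Complex.normSq (∑ k, star (f (a, k)) * φ (b, k)) := by
      simp only [Fin.sum_univ_two]
      have e1 := Complex.normSq_nonneg (∑ k, star (f (0, k)) * φ (1, k))
      have e2 := Complex.normSq_nonneg (∑ k, star (f (1, k)) * φ (0, k))
      linarith
    rw [Complex.zero_le_real]
    linarith

/-- pure case with orthogonal rows -/
theorem MM_pure_orth (φ : Fin 2 × κ → ℂ) (horth : ∑ k, φ (0, k) * star (φ (1, k)) = 0) :
    (MM (pureSt φ)).PosSemidef := H682_pure φ

theorem H682_MM_sum (m : ℕ) (Y : Fin m → Matrix (Fin 2 × κ) (Fin 2 × κ) ℂ) :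
    MM (∑ i, Y i) = ∑ i, MM (Y i) := by
  ext x y
  simp only [MM, Matrix.of_apply, Matrix.sum_apply]
  rw [Finset.sum_sub_distrib, Finset.sum_add_distrib]
  congr 1
  congr 1
  · by_cases h : x.2 = y.2
    · simp only [if_pos h]; exact Finset.sum_comm
    · simp only [if_neg h, Finset.sum_const_zero]
  · by_cases h : x.1 = y.1
    · simp only [if_pos h]; exact Finset.sum_comm
    · simp only [if_neg h, Finset.sum_const_zero]

/-- general case -/
theorem MM_psd {X : Matrix (Fin 2 × κ) (Fin 2 × κ) ℂ} (h : X.PosSemidef) :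
    (MM X).PosSemidef := by
  obtain ⟨m, v, hv⟩ := Matrix.posSemidef_iff_eq_sum_vecMulVec.1 h
  have : X = ∑ i, pureSt (v i) := hv
  rw [this, H682_MM_sum]
  exact Matrix.posSemidef_sum _ (fun i _ => H682_pure (v i))
end K6

end Helper611.Dep
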