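import Pool.Agent.Helper611.Dep.Def

open scoped BigOperators Kronecker ComplexOrder
open Matrix

namespace Helper611.Dep



/-- from pure states to all states -/
theorem pure_to_mixed {ι : Type} [Fintype ι] [DecidableEq ι]
    (F : Matrix ι ι ℂ → Matrix ι ι ℂ)
    (hadd : ∀ X Y, F (X + Y) = F X + F Y) (hsmul : ∀ (c : ℂ) X, F (c • X) = c • F X) (r : ℝ)
    (hpure : ∀ ψ : ι → ℂ, IsUnitVec ψ → ∃ B : Matrix ι ι ℂ, B.PosSemidef ∧
      (B - F (pureSt ψ)).PosSemidef ∧ B.trace.re ≤ r)
    {X : Matrix ι ι ℂ} (h : X.PosSemidef) (htr : X.trace = 1) :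
    ∃ B : Matrix ι ι ℂ, B.PosSemidef ∧ (B - F X).PosSemidef ∧ B.trace.re ≤ r := by
  classical
  have hF0 : F 0 = 0 := by
    have := hsmul 0 0
    simpa using this
  have hsum : ∀ (s : Finset ι) (G : ι → Matrix ι ι ℂ), F (∑ j ∈ s, G j) = ∑ j ∈ s, F (G j) := by
    intro s G
    induction s using Finset.induction_on with
    | empty => simp [hF0]
    | insert a s ha ih => rw [Finset.sum_insert ha, Finset.sum_insert ha, hadd, ih]
  have hH := h.1
  set U : Matrix ι ι ℂ := (hH.eigenvectorUnitary : Matrix ι ι ℂ) with hU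
  have hUU : star U * U = 1 := by
    exact (Matrix.mem_unitaryGroup_iff').1 hH.eigenvectorUnitary.2
  set lam : ι → ℝ := hH.eigenvalues with hlam
  have hlam0 : ∀ j, 0 ≤ lam j := fun j => h.eigenvalues_nonneg j
  have hunit : ∀ j, IsUnitVec (fun i => U i j) := by
    intro j
    have h1 : (star U * U) j j = 1 := by rw [hUU]; simp
    rw [Matrix.mul_apply] at h1
    have h2 : ∑ i, ((‖U i j‖ ^ 2 : ℝ) : ℂ) = 1 := by
      rw [← h1]
      refine Finset.sum_congr rfl ?_
      intro i _
      rw [Matrix.star_apply]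
      have := Complex.conj_mul' (U i j)
      simp only [RCLike.star_def]
      rw [this]
      push_cast
      rfl
    unfold IsUnitVec
    exact_mod_cast h2
  have hX : X = ∑ j, ((lam j : ℝ) : ℂ) • pureSt (fun i => U i j) := by
    have h3 : X = U * Matrix.diagonal (fun j => ((lam j : ℝ) : ℂ)) * star U := by
      have := hH.spectral_theorem
      simpa [Unitary.conjStarAlgAut_apply, Function.comp_def] using this
    ext i k
    rw [Matrix.sum_apply]
    conv_lhs => rw [h3]
    rw [Matrix.mul_apply]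
    refine Finset.sum_congr rfl ?_
    intro j _
    rw [Matrix.mul_diagonal, Matrix.star_apply, Matrix.smul_apply, pureSt, Matrix.vecMulVec_apply]
    simp only [Pi.star_apply, smul_eq_mul]
    ring
  have hsumlam : ∑ j, lam j = 1 := by
    have h4 := hH.trace_eq_sum_eigenvalues
    rw [htr] at h4
    have h5 : (((∑ j, lam j : ℝ)) : ℂ) = 1 := by
      push_cast
      exact h4.symm
    exact_mod_cast h5
  choose! B hB1 hB2 hB3 using hpure
  refine ⟨∑ j, ((lam j : ℝ) : ℂ) • B (fun i => U i j), ?_, ?_, ?_⟩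
  · refine Matrix.posSemidef_sum _ ?_
    intro j _
    exact (hB1 _ (hunit j)).smul (by exact_mod_cast hlam0 j)
  · have h6 : (∑ j, ((lam j : ℝ) : ℂ) • B (fun i => U i j)) - F X
        = ∑ j, ((lam j : ℝ) : ℂ) • (B (fun i => U i j) - F (pureSt (fun i => U i j))) := by
      conv_lhs => rw [hX, hsum]
      rw [← Finset.sum_sub_distrib]
      refine Finset.sum_congr rfl ?_
      intro j _
      rw [hsmul, smul_sub]
    rw [h6]
    refine Matrix.posSemidef_sum _ ?_
    intro j _
    exact (hB2 _ (hunit j)).smul (by exact_mod_cast hlam0 j)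
  · rw [Matrix.trace_sum, Complex.re_sum]
    calc ∑ j, (((lam j : ℝ) : ℂ) • B (fun i => U i j)).trace.re
        = ∑ j, lam j * (B (fun i => U i j)).trace.re := by
          refine Finset.sum_congr rfl ?_
          intro j _
          rw [Matrix.trace_smul, smul_eq_mul, Complex.re_ofReal_mul]
      _ ≤ ∑ j, lam j * r := by
          refine Finset.sum_le_sum ?_
          intro j _
          exact mul_le_mul_of_nonneg_left (hB3 _ (hunit j)) (hlam0 j)
      _ = r := by rw [← Finset.sum_mul, hsumlam, one_mul]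

end Helper611.Dep
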