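import Pool.Agent.Helper611.Dep.Def

open scoped BigOperators Kronecker ComplexOrder
open Matrix

namespace Helper611.Dep



section K8
variable {α β γ : Type} [Fintype α] [Fintype β] [Fintype γ]
  [DecidableEq α] [DecidableEq β] [DecidableEq γ]

theorem one_sub_psd {n : Type} [Fintype n] [DecidableEq n] {r : Matrix n n ℂ} (h : r.PosSemidef)
    (ht : r.trace = 1) : (1 - r).PosSemidef := by
  have he : ∀ i, h.1.eigenvalues i ≤ 1 := by
    intro i
    have h1 : ∑ j, h.1.eigenvalues j = 1 := by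
      have h2 := h.1.trace_eq_sum_eigenvalues
      rw [ht] at h2
      have h3 := congrArg Complex.re h2
      simp only [Complex.re_sum, Complex.one_re] at h3
      rw [h3]
      exact Finset.sum_congr rfl fun j _ => (Complex.ofReal_re _).symm
    rw [← h1]
    exact Finset.single_le_sum (fun j _ => h.eigenvalues_nonneg j) (Finset.mem_univ i)
  have hs := h.1.spectral_theorem
  have h3 : 1 - r = Unitary.conjStarAlgAut ℂ _ h.1.eigenvectorUnitary
      (1 - diagonal (RCLike.ofReal ∘ h.1.eigenvalues)) := by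
    rw [map_sub, map_one, ← hs]
  rw [h3, Unitary.conjStarAlgAut_apply, star_eq_conjTranspose]
  refine PosSemidef.mul_mul_conjTranspose_same ?_ _
  rw [← diagonal_one, diagonal_sub]
  refine PosSemidef.diagonal ?_
  intro i
  have := he i
  simp only [Function.comp, Pi.zero_apply, RCLike.ofReal_eq_complex_ofReal] 
  rw [sub_nonneg]
  exact_mod_cast this

/-- partial trace over the second factor -/
def trR {m n : Type} [Fintype n] (X : Matrix (m × n) (m × n) ℂ) : Matrix m m ℂ :=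
  ∑ b, X.submatrix (fun a => (a, b)) (fun a => (a, b))

/-- partial trace over the first factor -/
def trL {m n : Type} [Fintype m] (X : Matrix (m × n) (m × n) ℂ) : Matrix n n ℂ :=
  ∑ a, X.submatrix (fun b => (a, b)) (fun b => (a, b))

theorem trR_psd {m n : Type} [Fintype n] {X : Matrix (m × n) (m × n) ℂ} (h : X.PosSemidef) :
    (trR X).PosSemidef := posSemidef_sum _ fun _ _ => h.submatrix _

theorem trL_psd {m n : Type} [Fintype m] {X : Matrix (m × n) (m × n) ℂ} (h : X.PosSemidef) :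
    (trL X).PosSemidef := posSemidef_sum _ fun _ _ => h.submatrix _

theorem trR_apply {m n : Type} [Fintype n] (X : Matrix (m × n) (m × n) ℂ) (a a' : m) :
    trR X a a' = ∑ b, X (a, b) (a', b) := by
  simp [trR, Matrix.sum_apply]

theorem trL_apply {m n : Type} [Fintype m] (X : Matrix (m × n) (m × n) ℂ) (b b' : n) :
    trL X b b' = ∑ a, X (a, b) (a, b') := by
  simp [trL, Matrix.sum_apply]

theorem trR_trace {m n : Type} [Fintype m] [Fintype n] (X : Matrix (m × n) (m × n) ℂ) :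
    (trR X).trace = X.trace := by
  simp only [Matrix.trace, Matrix.diag, trR_apply, Fintype.sum_prod_type]

theorem trL_trace {m n : Type} [Fintype m] [Fintype n] (X : Matrix (m × n) (m × n) ℂ) :
    (trL X).trace = X.trace := by
  simp only [Matrix.trace, Matrix.diag, trL_apply, Fintype.sum_prod_type]
  exact Finset.sum_comm

theorem P3_eq (X : Matrix ((α × β) × γ) ((α × β) × γ) ℂ) : P3 X = trR X ⊗ₖ (1 : Matrix γ γ ℂ) := by
  ext x y
  obtain ⟨x1, x3⟩ := x
  obtain ⟨y1, y3⟩ := y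
  simp only [P3, Matrix.of_apply, Matrix.kronecker_apply, trR_apply, Matrix.one_apply]
  by_cases h1 : x3 = y3 <;> simp [h1]

theorem P12_eq_K8 (X : Matrix ((α × β) × γ) ((α × β) × γ) ℂ) :
    P1 (P2 X) = (1 : Matrix (α × β) (α × β) ℂ) ⊗ₖ trL X := by
  ext x y
  obtain ⟨⟨x1, x2⟩, x3⟩ := x
  obtain ⟨⟨y1, y2⟩, y3⟩ := y
  simp only [P1, P2, Matrix.of_apply, Matrix.kronecker_apply, trL_apply, Matrix.one_apply,
    Fintype.sum_prod_type, Prod.mk.injEq]
  by_cases h1 : x1 = y1 <;> by_cases h2 : x2 = y2 <;> simp [h1, h2]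

theorem P23_eq_K8 (X : Matrix ((α × β) × γ) ((α × β) × γ) ℂ) :
    P2 (P3 X) = (trR (trR X) ⊗ₖ (1 : Matrix β β ℂ)) ⊗ₖ (1 : Matrix γ γ ℂ) := by
  ext x y
  obtain ⟨⟨x1, x2⟩, x3⟩ := x
  obtain ⟨⟨y1, y2⟩, y3⟩ := y
  simp only [P3, P2, Matrix.of_apply, Matrix.kronecker_apply, trR_apply, Matrix.one_apply]
  by_cases h1 : x3 = y3 <;> by_cases h2 : x2 = y2 <;> simp [h1, h2]

theorem P13_eq_K8 (X : Matrix ((α × β) × γ) ((α × β) × γ) ℂ) :
    P1 (P3 X) = ((1 : Matrix α α ℂ) ⊗ₖ trL (trR X)) ⊗ₖ (1 : Matrix γ γ ℂ) := by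
  ext x y
  obtain ⟨⟨x1, x2⟩, x3⟩ := x
  obtain ⟨⟨y1, y2⟩, y3⟩ := y
  simp only [P3, P1, Matrix.of_apply, Matrix.kronecker_apply, trR_apply, trL_apply, Matrix.one_apply]
  by_cases h1 : x3 = y3 <;> by_cases h2 : x1 = y1 <;> simp [h1, h2]

/-- products of marginals dominate: `Z - 2 ≤ ρ1 ⊗ ρ2 ⊗ ρ3`. -/
theorem dom_Z {X : Matrix ((α × β) × γ) ((α × β) × γ) ℂ} (h : X.PosSemidef)
    (htr : X.trace = 1) :
    ∃ A : Matrix ((α × β) × γ) ((α × β) × γ) ℂ, A.PosSemidef ∧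
      (A - (P2 (P3 X) + P1 (P3 X) + P1 (P2 X) - (2 : ℂ) • 1)).PosSemidef ∧ A.trace.re ≤ 1 := by
  set r1 := trR (trR X) with hr1
  set r2 := trL (trR X) with hr2
  set r3 := trL X with hr3
  have p1 : r1.PosSemidef := trR_psd (trR_psd h)
  have p2 : r2.PosSemidef := trL_psd (trR_psd h)
  have p3 : r3.PosSemidef := trL_psd h
  have t1 : r1.trace = 1 := by rw [hr1, trR_trace, trR_trace, htr]
  have t2 : r2.trace = 1 := by rw [hr2, trL_trace, trR_trace, htr]
  have t3 : r3.trace = 1 := by rw [hr3, trL_trace, htr]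
  have p12 : (r1 ⊗ₖ r2).PosSemidef := p1.kronecker p2
  have t12 : (r1 ⊗ₖ r2).trace = 1 := by rw [trace_kronecker, t1, t2, one_mul]
  refine ⟨(r1 ⊗ₖ r2) ⊗ₖ r3, p12.kronecker p3, ?_, ?_⟩
  · have e : (r1 ⊗ₖ r2) ⊗ₖ r3 - (P2 (P3 X) + P1 (P3 X) + P1 (P2 X) - (2 : ℂ) • 1)
        = ((1 - r1) ⊗ₖ (1 - r2)) ⊗ₖ (1 : Matrix γ γ ℂ) + (1 - r1 ⊗ₖ r2) ⊗ₖ (1 - r3) := by
      rw [P23_eq_K8, P13_eq_K8, P12_eq_K8, ← hr1, ← hr2, ← hr3]
      ext x y
      obtain ⟨⟨x1, x2⟩, x3⟩ := x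
      obtain ⟨⟨y1, y2⟩, y3⟩ := y
      simp only [Matrix.sub_apply, Matrix.add_apply, Matrix.smul_apply, Matrix.kronecker_apply,
        Matrix.one_apply, Prod.mk.injEq, smul_eq_mul]
      by_cases h1 : x1 = y1 <;> by_cases h2 : x2 = y2 <;> by_cases h3 : x3 = y3 <;>
        simp [h1, h2, h3] <;> ring
    rw [e]
    exact (((one_sub_psd p1 t1).kronecker (one_sub_psd p2 t2)).kronecker PosSemidef.one).add
      ((one_sub_psd p12 t12).kronecker (one_sub_psd p3 t3))
  · rw [trace_kronecker, t12, t3]; simp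

/-- `ρ12 + ρ3 - 1 ≤ ρ12 ⊗ ρ3` and its two permutations. -/
theorem dom_C3 {X : Matrix ((α × β) × γ) ((α × β) × γ) ℂ} (h : X.PosSemidef)
    (htr : X.trace = 1) :
    ∃ A : Matrix ((α × β) × γ) ((α × β) × γ) ℂ, A.PosSemidef ∧
      (A - (P3 X + P1 (P2 X) - 1)).PosSemidef ∧ A.trace.re ≤ 1 := by
  set r12 := trR X with hr12
  set r3 := trL X with hr3
  have p12 : r12.PosSemidef := trR_psd h
  have p3 : r3.PosSemidef := trL_psd h
  have t12 : r12.trace = 1 := by rw [hr12, trR_trace, htr]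
  have t3 : r3.trace = 1 := by rw [hr3, trL_trace, htr]
  refine ⟨r12 ⊗ₖ r3, p12.kronecker p3, ?_, ?_⟩
  · have e : r12 ⊗ₖ r3 - (P3 X + P1 (P2 X) - 1) = (1 - r12) ⊗ₖ (1 - r3) := by
      rw [P3_eq, P12_eq_K8, ← hr12, ← hr3]
      ext x y
      obtain ⟨⟨x1, x2⟩, x3⟩ := x
      obtain ⟨⟨y1, y2⟩, y3⟩ := y
      simp only [Matrix.sub_apply, Matrix.add_apply, Matrix.kronecker_apply,
        Matrix.one_apply, Prod.mk.injEq]
      by_cases h1 : x1 = y1 <;> by_cases h2 : x2 = y2 <;> by_cases h3 : x3 = y3 <;>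
        simp [h1, h2, h3] <;> ring
    rw [e]
    exact (one_sub_psd p12 t12).kronecker (one_sub_psd p3 t3)
  · rw [trace_kronecker, t12, t3]; simp

theorem dom_C2 {X : Matrix ((α × β) × γ) ((α × β) × γ) ℂ} (h : X.PosSemidef)
    (htr : X.trace = 1) :
    ∃ A : Matrix ((α × β) × γ) ((α × β) × γ) ℂ, A.PosSemidef ∧
      (A - (P2 X + P1 (P3 X) - 1)).PosSemidef ∧ A.trace.re ≤ 1 := by
  let e : (α × β) × γ ≃ (α × γ) × β :=
    ⟨fun x => ((x.1.1, x.2), x.1.2), fun x => ((x.1.1, x.2), x.1.2), fun _ => rfl, fun _ => rfl⟩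
  have hX : (X.submatrix e.symm e.symm).PosSemidef := h.submatrix _
  have hXt : (X.submatrix e.symm e.symm).trace = 1 := by
    rw [← htr]; simp only [Matrix.trace, Matrix.diag, Matrix.submatrix_apply]
    exact Equiv.sum_comp e.symm (fun x => X x x)
  obtain ⟨A, hA, hB, hC⟩ := dom_C3 hX hXt
  refine ⟨A.submatrix e e, hA.submatrix _, ?_, ?_⟩
  · have := hB.submatrix e
    convert this using 1
    ext x y
    obtain ⟨⟨x1, x2⟩, x3⟩ := x
    obtain ⟨⟨y1, y2⟩, y3⟩ := y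
    simp only [Matrix.sub_apply, Matrix.add_apply, Matrix.submatrix_apply, P1, P2, P3,
      Matrix.of_apply, Matrix.one_apply, e, Equiv.coe_fn_mk, Equiv.coe_fn_symm_mk, Prod.mk.injEq]
    by_cases h1 : x1 = y1 <;> by_cases h2 : x2 = y2 <;> by_cases h3 : x3 = y3 <;>
        simp [h1, h2, h3]
  · have : (A.submatrix e e).trace = A.trace := by
      simp only [Matrix.trace, Matrix.diag, Matrix.submatrix_apply]
      exact Equiv.sum_comp e (fun x => A x x)
    rw [this]; exact hC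

theorem dom_C1 {X : Matrix ((α × β) × γ) ((α × β) × γ) ℂ} (h : X.PosSemidef)
    (htr : X.trace = 1) :
    ∃ A : Matrix ((α × β) × γ) ((α × β) × γ) ℂ, A.PosSemidef ∧
      (A - (P1 X + P2 (P3 X) - 1)).PosSemidef ∧ A.trace.re ≤ 1 := by
  let e : (α × β) × γ ≃ (β × γ) × α :=
    ⟨fun x => ((x.1.2, x.2), x.1.1), fun x => ((x.2, x.1.1), x.1.2), fun _ => rfl, fun _ => rfl⟩
  have hX : (X.submatrix e.symm e.symm).PosSemidef := h.submatrix _
  have hXt : (X.submatrix e.symm e.symm).trace = 1 := by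
    rw [← htr]; simp only [Matrix.trace, Matrix.diag, Matrix.submatrix_apply]
    exact Equiv.sum_comp e.symm (fun x => X x x)
  obtain ⟨A, hA, hB, hC⟩ := dom_C3 hX hXt
  refine ⟨A.submatrix e e, hA.submatrix _, ?_, ?_⟩
  · have := hB.submatrix e
    convert this using 1
    ext x y
    obtain ⟨⟨x1, x2⟩, x3⟩ := x
    obtain ⟨⟨y1, y2⟩, y3⟩ := y
    simp only [Matrix.sub_apply, Matrix.add_apply, Matrix.submatrix_apply, P1, P2, P3,
      Matrix.of_apply, Matrix.one_apply, e, Equiv.coe_fn_mk, Equiv.coe_fn_symm_mk, Prod.mk.injEq]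
    by_cases h1 : x1 = y1 <;> by_cases h2 : x2 = y2 <;> by_cases h3 : x3 = y3 <;>
        simp [h1, h2, h3]
  · have : (A.submatrix e e).trace = A.trace := by
      simp only [Matrix.trace, Matrix.diag, Matrix.submatrix_apply]
      exact Equiv.sum_comp e (fun x => A x x)
    rw [this]; exact hC
end K8

end Helper611.Dep
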