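import Pool.Agent.Helper611.Dep.Thr
import Pool.Agent.Helper611.Dep.J5a
import Pool.Agent.Helper611.Dep.J5b
import Pool.Agent.Helper611.Dep.J6
import Pool.Agent.Helper611.Dep.J7
import Pool.Agent.Helper611.Dep.J8
import Pool.Agent.Helper611.Dep.J10

open scoped BigOperators Kronecker ComplexOrder
open Matrix

namespace Helper611.Dep

section mainsec
variable {α β γ : Type} [Fintype α] [Fintype β] [Fintype γ]
  [DecidableEq α] [DecidableEq β] [DecidableEq γ]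

theorem thr_all (a0 : α) (b0 : β) (g0 : γ) (t1 t2 t3 : ℝ) (h1 : 0 ≤ t1) (h2 : 0 ≤ t2)
    (h3 : 0 ≤ t3) (hm : t1 ≤ 1 ∨ t2 ≤ 1 ∨ t3 ≤ 1)
    {X : Matrix ((α × β) × γ) ((α × β) × γ) ℂ} (h : X.PosSemidef) (htr : X.trace = 1)
    (z : (α × β) × γ) :
    ∃ Y : Matrix ((α × β) × γ) ((α × β) × γ) ℂ, Y.PosSemidef ∧
      (Y - (comb 1 t1 t2 t3 (t1 * t2) (t1 * t3) (t2 * t3) (t1 * t2 * t3) X
        - ((lamv a0 b0 g0 1 t1 1 t2 1 t3 z : ℝ) : ℂ) •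
          (1 : Matrix ((α × β) × γ) ((α × β) × γ) ℂ))).PosSemidef ∧
      Y.trace.re ≤ ∑ w, max 0 (lamv a0 b0 g0 1 t1 1 t2 1 t3 w - lamv a0 b0 g0 1 t1 1 t2 1 t3 z) := by
  have hs : ∀ s, s = lamv a0 b0 g0 1 t1 1 t2 1 t3 z →
      (s = 1 ∨ s = 1 + t1 ∨ s = 1 + t2 ∨ s = 1 + t3 ∨ s = (1 + t1) * (1 + t2) ∨
      s = (1 + t1) * (1 + t3) ∨ s = (1 + t2) * (1 + t3) ∨ s = (1 + t1) * (1 + t2) * (1 + t3)) := by
    intro s hs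
    unfold lamv at hs
    by_cases c1 : z.1.1 = a0 <;> by_cases c2 : z.1.2 = b0 <;> by_cases c3 : z.2 = g0 <;>
      simp only [c1, c2, c3, if_true, if_false, one_mul, mul_one] at hs <;> simp [hs]
  generalize hsz : lamv a0 b0 g0 1 t1 1 t2 1 t3 z = s
  rcases scalar_SL t1 t2 t3 s h1 h2 h3 hm (hs s hsz.symm) with ha | ⟨hb1, hb2⟩
  · exact thr_a a0 b0 g0 t1 t2 t3 s h1 h2 h3 ha h htr
  · exact thr_b a0 b0 g0 t1 t2 t3 s h1 h2 h3 hb1 hb2 h htr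

theorem norm_bound_t (N : Matrix ((α × β) × γ) ((α × β) × γ) ℂ → ℝ) (hN : IsUINorm N)
    (a0 : α) (b0 : β) (g0 : γ) (t1 t2 t3 : ℝ) (h1 : 0 ≤ t1) (h2 : 0 ≤ t2)
    (h3 : 0 ≤ t3) (hm : t1 ≤ 1 ∨ t2 ≤ 1 ∨ t3 ≤ 1)
    {X : Matrix ((α × β) × γ) ((α × β) × γ) ℂ} (h : X.PosSemidef) (htr : X.trace = 1) :
    N (comb 1 t1 t2 t3 (t1 * t2) (t1 * t3) (t2 * t3) (t1 * t2 * t3) X) ≤
      N (Matrix.diagonal (fun z => ((lamv a0 b0 g0 1 t1 1 t2 1 t3 z : ℝ) : ℂ))) := by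
  have hH : (comb 1 t1 t2 t3 (t1 * t2) (t1 * t3) (t2 * t3) (t1 * t2 * t3) X).IsHermitian :=
    (comb_psd_cp h _ _ _ _ _ _ _ _ zero_le_one h1 h2 h3 (by positivity) (by positivity)
      (by positivity) (by positivity)).isHermitian
  refine norm_le_of_trace N hN _ hH _ ?_
  intro K hK
  refine trace_le_of_thresholds _ hH _ ?_ (thr_all a0 b0 g0 t1 t2 t3 h1 h2 h3 hm h htr) K hK
  rw [trace_comb_re a0 b0 g0 _ _ _ _ _ _ _ _ htr]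
  exact Finset.sum_congr rfl fun z _ => (lamv_eq_pv a0 b0 g0 t1 t2 t3 z).symm

theorem norm_bound_ab (N : Matrix ((α × β) × γ) ((α × β) × γ) ℂ → ℝ) (hN : IsUINorm N)
    (a0 : α) (b0 : β) (g0 : γ) (a1 b1 a2 b2 a3 b3 : ℝ) (ha1 : 0 < a1) (ha2 : 0 < a2)
    (ha3 : 0 < a3) (h1 : 0 ≤ b1) (h2 : 0 ≤ b2)
    (h3 : 0 ≤ b3) (hm : b1 ≤ a1 ∨ b2 ≤ a2 ∨ b3 ≤ a3)
    {X : Matrix ((α × β) × γ) ((α × β) × γ) ℂ} (h : X.PosSemidef) (htr : X.trace = 1) :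
    N (comb (a1 * a2 * a3) (b1 * a2 * a3) (a1 * b2 * a3) (a1 * a2 * b3)
        (b1 * b2 * a3) (b1 * a2 * b3) (a1 * b2 * b3) (b1 * b2 * b3) X) ≤
      N (Matrix.diagonal (fun z => ((lamv a0 b0 g0 a1 b1 a2 b2 a3 b3 z : ℝ) : ℂ))) := by
  obtain ⟨t1, rfl⟩ : ∃ t, b1 = a1 * t := ⟨b1 / a1, by field_simp⟩
  obtain ⟨t2, rfl⟩ : ∃ t, b2 = a2 * t := ⟨b2 / a2, by field_simp⟩
  obtain ⟨t3, rfl⟩ : ∃ t, b3 = a3 * t := ⟨b3 / a3, by field_simp⟩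
  have g1 : 0 ≤ t1 := nonneg_of_mul_nonneg_right h1 ha1
  have g2 : 0 ≤ t2 := nonneg_of_mul_nonneg_right h2 ha2
  have g3 : 0 ≤ t3 := nonneg_of_mul_nonneg_right h3 ha3
  have gm : t1 ≤ 1 ∨ t2 ≤ 1 ∨ t3 ≤ 1 := by
    rcases hm with hm | hm | hm
    · left; by_contra hc; push Not at hc; nlinarith
    · right; left; by_contra hc; push Not at hc; nlinarith
    · right; right; by_contra hc; push Not at hc; nlinarith
  have e1 : comb (a1 * a2 * a3) (a1 * t1 * a2 * a3) (a1 * (a2 * t2) * a3) (a1 * a2 * (a3 * t3))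
        (a1 * t1 * (a2 * t2) * a3) (a1 * t1 * a2 * (a3 * t3)) (a1 * (a2 * t2) * (a3 * t3))
        (a1 * t1 * (a2 * t2) * (a3 * t3)) X =
      ((a1 * a2 * a3 : ℝ) : ℂ) •
        comb 1 t1 t2 t3 (t1 * t2) (t1 * t3) (t2 * t3) (t1 * t2 * t3) X := by
    ext x y
    simp only [comb, Matrix.add_apply, Matrix.smul_apply, smul_eq_mul]
    push_cast
    ring
  have e2 : (Matrix.diagonal (fun z => ((lamv a0 b0 g0 a1 (a1 * t1) a2 (a2 * t2) a3 (a3 * t3) z : ℝ) : ℂ)) :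
      Matrix ((α × β) × γ) ((α × β) × γ) ℂ) =
      ((a1 * a2 * a3 : ℝ) : ℂ) •
        Matrix.diagonal (fun z => ((lamv a0 b0 g0 1 t1 1 t2 1 t3 z : ℝ) : ℂ)) := by
    ext x y
    by_cases hxy : x = y
    · subst hxy
      simp only [Matrix.diagonal_apply_eq, Matrix.smul_apply, smul_eq_mul]
      rw [← Complex.ofReal_mul]
      congr 1
      unfold lamv
      split_ifs <;> ring
    · simp [hxy, Matrix.diagonal_apply_ne]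
  rw [e1, e2, hN.smul, hN.smul]
  exact mul_le_mul_of_nonneg_left
    (norm_bound_t N hN a0 b0 g0 t1 t2 t3 g1 g2 g3 gm h htr) (norm_nonneg _)

theorem card_pos_of_unit {ι : Type} [Fintype ι] (ψ : ι → ℂ) (h : IsUnitVec ψ) : Nonempty ι := by
  by_contra hc
  rw [not_nonempty_iff] at hc
  unfold IsUnitVec at h
  simp at h

theorem T3 (N : Matrix ((α × β) × γ) ((α × β) × γ) ℂ → ℝ) (hN : IsUINorm N)
    (ρ : Matrix ((α × β) × γ) ((α × β) × γ) ℂ) (hρ : IsState ρ)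
    (ψ1 : α → ℂ) (ψ2 : β → ℂ) (ψ3 : γ → ℂ) (u1 : IsUnitVec ψ1) (u2 : IsUnitVec ψ2)
    (u3 : IsUnitVec ψ3)
    (q1 q2 q3 : ℝ) (hq1 : 0 ≤ q1) (hq1' : q1 ≤ 1) (hq2 : 0 ≤ q2) (hq2' : q2 ≤ 1)
    (hq3 : 0 ≤ q3) (hq3' : q3 ≤ 1)
    (hm : q1 * (Fintype.card α + 1) ≤ 1 ∨ q2 * (Fintype.card β + 1) ≤ 1 ∨
      q3 * (Fintype.card γ + 1) ≤ 1) :
    N (tensorMap (tensorMap (depol q1) (depol q2)) (depol q3) ρ) ≤
      N (tensorMap (tensorMap (depol q1) (depol q2)) (depol q3)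
        ((pureSt ψ1 ⊗ₖ pureSt ψ2) ⊗ₖ pureSt ψ3)) := by
  obtain ⟨a0⟩ := card_pos_of_unit ψ1 u1
  obtain ⟨b0⟩ := card_pos_of_unit ψ2 u2
  obtain ⟨g0⟩ := card_pos_of_unit ψ3 u3
  have ca : 0 < (Fintype.card α : ℝ) := by
    exact_mod_cast Fintype.card_pos_iff.mpr ⟨a0⟩
  have cb : 0 < (Fintype.card β : ℝ) := by
    exact_mod_cast Fintype.card_pos_iff.mpr ⟨b0⟩
  have cg : 0 < (Fintype.card γ : ℝ) := by
    exact_mod_cast Fintype.card_pos_iff.mpr ⟨g0⟩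
  refine closure_q N hN ρ _ q1 q2 q3 ?_
  intro ε hε hε1
  have key : ∀ (q c : ℝ), 0 ≤ q → q ≤ 1 → 0 < c →
      0 ≤ (1 - ε) * q ∧ 0 < (1 - (1 - ε) * q) / c ∧
      (q * (c + 1) ≤ 1 → (1 - ε) * q ≤ (1 - (1 - ε) * q) / c) := by
    intro q c hq hq' hc
    have e1 : 0 ≤ (1 - ε) * q := mul_nonneg (by linarith) hq
    have e2 : (1 - ε) * q ≤ q := by nlinarith
    have e3 : (1 - ε) * q < 1 := by nlinarith
    refine ⟨e1, div_pos (by linarith) hc, fun hqc => ?_⟩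
    rw [le_div_iff₀ hc]
    nlinarith
  obtain ⟨k1, k1', k1''⟩ := key q1 _ hq1 hq1' ca
  obtain ⟨k2, k2', k2''⟩ := key q2 _ hq2 hq2' cb
  obtain ⟨k3, k3', k3''⟩ := key q3 _ hq3 hq3' cg
  obtain ⟨V, hV, hVeq⟩ := prod_out a0 b0 g0 ((1 - ε) * q1) ((1 - ε) * q2) ((1 - ε) * q3)
    ψ1 ψ2 ψ3 u1 u2 u3
  rw [hVeq, hN.unitary V Vᴴ _ hV
    (by
      have := Unitary.star_mem hV
      simpa [Matrix.star_eq_conjTranspose] using this)]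
  rw [tensorMap_eq_comb ((1 - ε) * q1) ((1 - ε) * q2) ((1 - ε) * q3) ρ _ _ _ rfl rfl rfl]
  refine norm_bound_ab N hN a0 b0 g0 _ _ _ _ _ _ k1' k2' k3' k1 k2 k3 ?_ hρ.1 hρ.2
  rcases hm with hm | hm | hm
  · left; exact k1'' hm
  · right; left; exact k2'' hm
  · right; right; exact k3'' hm

theorem T2 (N : Matrix (α × β) (α × β) ℂ → ℝ) (hN : IsUINorm N)
    (ρ : Matrix (α × β) (α × β) ℂ) (hρ : IsState ρ)
    (ψ1 : α → ℂ) (ψ2 : β → ℂ) (h1 : IsUnitVec ψ1) (h2 : IsUnitVec ψ2)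
    (q1 q2 : ℝ) (hq1 : 0 ≤ q1) (hq1' : q1 ≤ 1) (hq2 : 0 ≤ q2) (hq2' : q2 ≤ 1) :
    N (tensorMap (depol q1) (depol q2) ρ) ≤
      N (tensorMap (depol q1) (depol q2) (pureSt ψ1 ⊗ₖ pureSt ψ2)) :=
  two_of_three
    (fun N hN ρ hρ ψ1 ψ2 ψ3 u1 u2 u3 q1 q2 q3 a b c d e f hm =>
      T3 N hN ρ hρ ψ1 ψ2 ψ3 u1 u2 u3 q1 q2 q3 a b c d e f hm)
    N hN ρ hρ ψ1 ψ2 h1 h2 q1 q2 hq1 hq1' hq2 hq2'

end mainsec

end Helper611.Dep
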