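import Pool.Agent.Helper611.Dep.Thr
import Pool.Agent.Helper611.Dep.K1
import Pool.Agent.Helper611.Dep.K2
import Pool.Agent.Helper611.Dep.K3
import Pool.Agent.Helper611.Dep.K4
import Pool.Agent.Helper611.Dep.K5
import Pool.Agent.Helper611.Dep.K6
import Pool.Agent.Helper611.Dep.K7
import Pool.Agent.Helper611.Dep.J2b

open scoped BigOperators Kronecker ComplexOrder
open Matrix

namespace Helper611.Dep

theorem diag_psd {ι : Type} [Fintype ι] [DecidableEq ι] (f : ι → ℝ) (hf : ∀ x, 0 ≤ f x) :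
    (Matrix.diagonal (fun x => ((f x : ℝ) : ℂ))).PosSemidef :=
  Matrix.PosSemidef.diagonal (fun z => by simpa using hf z)

abbrev Q3 : Type := (Fin 2 × Fin 2) × Fin 2

theorem q_sum (f : Q3 → ℝ) : ∑ x : Q3, f x =
    f ((0, 0), 0) + f ((0, 0), 1) + f ((0, 1), 0) + f ((0, 1), 1)
      + f ((1, 0), 0) + f ((1, 0), 1) + f ((1, 1), 0) + f ((1, 1), 1) := by
  rw [Fintype.sum_prod_type, Fintype.sum_prod_type]
  simp only [Fin.sum_univ_two]
  ring

/-- numbers attached to a qubit state with diagonal marginals -/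
theorem iii_diag (ψ : Q3 → ℂ) (hψ : IsUnitVec ψ) (e1 e2 e3 : ℝ)
    (he1 : 0 ≤ e1) (he1' : e1 ≤ 1 / 2) (he2 : 0 ≤ e2) (he2' : e2 ≤ 1 / 2)
    (he3 : 0 ≤ e3) (he3' : e3 ≤ 1 / 2)
    (m1 : P2 (P3 (pureSt ψ)) = Matrix.diagonal (fun z : Q3 => ((if z.1.1 = 0 then 1 - e1 else e1 : ℝ) : ℂ)))
    (m2 : P1 (P3 (pureSt ψ)) = Matrix.diagonal (fun z : Q3 => ((if z.1.2 = 0 then 1 - e2 else e2 : ℝ) : ℂ)))
    (m3 : P1 (P2 (pureSt ψ)) = Matrix.diagonal (fun z : Q3 => ((if z.2 = 0 then 1 - e3 else e3 : ℝ) : ℂ))) :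
    ∃ B : Matrix Q3 Q3 ℂ, B.PosSemidef ∧
      (B - (P1 (pureSt ψ) + P2 (pureSt ψ) + P3 (pureSt ψ) - 1)).PosSemidef ∧ B.trace.re ≤ 2 := by
  -- probabilities
  set p : Q3 → ℝ := fun x => ‖ψ x‖ ^ 2 with hp
  have pn : ∀ x, 0 ≤ p x := fun x => by positivity
  have hX : ∀ x y, pureSt ψ x y = ψ x * star (ψ y) := fun x y => rfl
  have hnorm : ∀ x, ψ x * star (ψ x) = ((p x : ℝ) : ℂ) := by
    intro x
    rw [hp]
    simp only [Complex.star_def]
    rw [Complex.mul_conj, Complex.normSq_eq_norm_sq]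
  have hsum : ∑ x, p x = 1 := hψ
  rw [q_sum] at hsum
  -- marginal probabilities
  have d1 := congrFun (congrFun m1 ((1, 0), 0)) ((1, 0), 0)
  have d2 := congrFun (congrFun m2 ((0, 1), 0)) ((0, 1), 0)
  have d3 := congrFun (congrFun m3 ((0, 0), 1)) ((0, 0), 1)
  have o1 := congrFun (congrFun m1 ((0, 0), 0)) ((1, 0), 0)
  have o2 := congrFun (congrFun m2 ((0, 0), 0)) ((0, 1), 0)
  have o3 := congrFun (congrFun m3 ((0, 0), 0)) ((0, 0), 1)
  simp only [P1, P2, P3, Matrix.of_apply, Fin.sum_univ_two, hX, if_true,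
    Matrix.diagonal_apply_eq, hnorm] at d1 d2 d3
  simp only [P1, P2, P3, Matrix.of_apply, Fin.sum_univ_two, hX, if_true] at o1 o2 o3
  rw [Matrix.diagonal_apply_ne _ (by decide)] at o1 o2 o3
  have d1' : p ((1, 0), 0) + p ((1, 1), 0) + p ((1, 0), 1) + p ((1, 1), 1) = e1 := by
    have h := d1
    simp at h
    have h2 : ((p ((1, 0), 0) + p ((1, 0), 1) + (p ((1, 1), 0) + p ((1, 1), 1)) : ℝ) : ℂ) = (e1 : ℂ) := by
      push_cast; exact h
    have h3 := Complex.ofReal_injective h2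
    linarith
  have d2' : p ((0, 1), 0) + p ((1, 1), 0) + p ((0, 1), 1) + p ((1, 1), 1) = e2 := by
    have h := d2
    simp at h
    have h2 : ((p ((0, 1), 0) + p ((0, 1), 1) + (p ((1, 1), 0) + p ((1, 1), 1)) : ℝ) : ℂ) = (e2 : ℂ) := by
      push_cast; exact h
    have h3 := Complex.ofReal_injective h2
    linarith
  have d3' : p ((0, 0), 1) + p ((1, 0), 1) + p ((0, 1), 1) + p ((1, 1), 1) = e3 := by
    have h := d3
    simp at h
    have h2 : ((p ((0, 0), 1) + p ((0, 1), 1) + (p ((1, 0), 1) + p ((1, 1), 1)) : ℝ) : ℂ) = (e3 : ℂ) := by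
      push_cast; exact h
    have h3 := Complex.ofReal_injective h2
    linarith
  -- polygon inequalities
  have b1 := bessel_two (κ := Fin 2 × Fin 2) (fun k => ψ ((0, k.1), k.2)) (fun k => ψ ((1, k.1), k.2))
    (1 - e1)
    (by
      rw [Fintype.sum_prod_type]; simp only [Fin.sum_univ_two]
      exact o1)
    (by
      rw [Fintype.sum_prod_type]; simp only [Fin.sum_univ_two]
      simp only [hp] at hsum d1' d2' d3' ⊢
      linarith)
    (by
      rw [Fintype.sum_prod_type]; simp only [Fin.sum_univ_two]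
      simp only [hp] at hsum d1' d2' d3' ⊢
      linarith) (0, 0)
  have b2 := bessel_two (κ := Fin 2 × Fin 2) (fun k => ψ ((k.1, 0), k.2)) (fun k => ψ ((k.1, 1), k.2))
    (1 - e2)
    (by
      rw [Fintype.sum_prod_type]; simp only [Fin.sum_univ_two]
      exact o2)
    (by
      rw [Fintype.sum_prod_type]; simp only [Fin.sum_univ_two]
      simp only [hp] at hsum d1' d2' d3' ⊢
      linarith)
    (by
      rw [Fintype.sum_prod_type]; simp only [Fin.sum_univ_two]
      simp only [hp] at hsum d1' d2' d3' ⊢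
      linarith) (0, 0)
  have b3 := bessel_two (κ := Fin 2 × Fin 2) (fun k => ψ ((k.1, k.2), 0)) (fun k => ψ ((k.1, k.2), 1))
    (1 - e3)
    (by
      rw [Fintype.sum_prod_type]; simp only [Fin.sum_univ_two]
      exact o3)
    (by
      rw [Fintype.sum_prod_type]; simp only [Fin.sum_univ_two]
      simp only [hp] at hsum d1' d2' d3' ⊢
      linarith)
    (by
      rw [Fintype.sum_prod_type]; simp only [Fin.sum_univ_two]
      simp only [hp] at hsum d1' d2' d3' ⊢
      linarith) (0, 0)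
  have b1' : p ((0, 0), 0) + p ((1, 0), 0) ≤ 1 - e1 := b1
  have b2' : p ((0, 0), 0) + p ((0, 1), 0) ≤ 1 - e2 := b2
  have b3' : p ((0, 0), 0) + p ((0, 0), 1) ≤ 1 - e3 := b3
  have n000 := pn ((0, 0), 0)
  have n001 := pn ((0, 0), 1)
  have n010 := pn ((0, 1), 0)
  have n011 := pn ((0, 1), 1)
  have n100 := pn ((1, 0), 0)
  have n101 := pn ((1, 0), 1)
  have n110 := pn ((1, 1), 0)
  have n111 := pn ((1, 1), 1)
  have t1 : e1 ≤ e2 + e3 := by linarith
  have t2 : e2 ≤ e1 + e3 := by linarith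
  have t3 : e3 ≤ e1 + e2 := by linarith
  -- flipped vector
  set cp : Q3 → Q3 := fun x => ((x.1.1 + 1, x.1.2 + 1), x.2 + 1) with hcp
  set sg : Q3 → ℂ := fun x => (-1 : ℂ) ^ ((x.1.1 : ℕ) + (x.1.2 : ℕ) + (x.2 : ℕ)) with hsg
  have hsgstar : ∀ x, star (sg x) = sg x := by
    intro x; simp [hsg]
  have hsgn : ∀ x, ‖sg x‖ = 1 := by
    intro x; simp [hsg]
  set v : Q3 → ℂ := fun x => sg x * star (ψ (cp x)) with hv
  have hvn : ∀ x, ‖v x‖ ^ 2 = p (cp x) := by
    intro x
    rw [hv]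
    simp only [norm_mul, hsgn, one_mul, norm_star]
    rfl
  have hflip : comb 1 (-1) (-1) (-1) 1 1 1 (-1) (pureSt ψ) = Matrix.vecMulVec v (star v) := by
    rw [flip_identity]
    ext x y
    simp only [Matrix.of_apply, Matrix.vecMulVec_apply, Pi.star_apply, hv, hX]
    rw [star_mul', star_star, hsgstar]
    simp only [hsg, hcp]
    ring
  set zd : Q3 → ℝ := fun x => (if x.1.1 = 0 then 1 - e1 else e1) + (if x.1.2 = 0 then 1 - e2 else e2)
    + (if x.2 = 0 then 1 - e3 else e3) with hzd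
  have htr : (pureSt ψ).trace = 1 := by
    have : (pureSt ψ).trace = ∑ x, ((p x : ℝ) : ℂ) := by
      rw [Matrix.trace]
      refine Finset.sum_congr rfl fun x _ => ?_
      rw [Matrix.diag_apply, hX, hnorm]
    rw [this, ← Complex.ofReal_sum, hψ]
    simp
  have hXpsd : (pureSt ψ).PosSemidef := Matrix.posSemidef_vecMulVec_self_star ψ
  have hmain : P1 (pureSt ψ) + P2 (pureSt ψ) + P3 (pureSt ψ) - 1 =
      pureSt ψ + Matrix.vecMulVec v (star v)
        - Matrix.diagonal (fun x => ((2 - zd x : ℝ) : ℂ)) := by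
    rw [← hflip]
    unfold comb
    rw [P123_one htr, m1, m2, m3]
    ext x y
    by_cases hxy : x = y
    · subst hxy
      simp only [Matrix.sub_apply, Matrix.add_apply, Matrix.smul_apply, smul_eq_mul,
        Matrix.diagonal_apply_eq, Matrix.one_apply_eq, hzd]
      push_cast
      ring
    · simp only [Matrix.sub_apply, Matrix.add_apply, Matrix.smul_apply, smul_eq_mul,
        Matrix.diagonal_apply_ne _ hxy, Matrix.one_apply_ne hxy]
      push_cast
      ring
  -- it suffices to find T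
  have suff : ∀ (a : ℝ) (T : Matrix Q3 Q3 ℂ), 0 ≤ a → T.PosSemidef →
      (T - (Matrix.vecMulVec v (star v)
        - Matrix.diagonal (fun x => ((2 - zd x + (if x = ((0, 0), 0) then a else 0) : ℝ) : ℂ)))).PosSemidef →
      T.trace.re + a ≤ 1 →
      ∃ B : Matrix Q3 Q3 ℂ, B.PosSemidef ∧
      (B - (P1 (pureSt ψ) + P2 (pureSt ψ) + P3 (pureSt ψ) - 1)).PosSemidef ∧ B.trace.re ≤ 2 := by
    intro a T ha hT hTv htrT
    refine ⟨pureSt ψ + Matrix.diagonal (fun x : Q3 => ((if x = ((0, 0), 0) then a else 0 : ℝ) : ℂ)) + T,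
      ?_, ?_, ?_⟩
    · refine (hXpsd.add (diag_psd (fun x : Q3 => (if x = ((0, 0), 0) then a else 0 : ℝ))
        fun x => ?_)).add hT
      by_cases hx : x = ((0, 0), 0)
      · simp only [hx, if_true]; exact ha
      · simp [hx]
    · have key : pureSt ψ + Matrix.diagonal (fun x : Q3 => ((if x = ((0, 0), 0) then a else 0 : ℝ) : ℂ)) + T
          - (P1 (pureSt ψ) + P2 (pureSt ψ) + P3 (pureSt ψ) - 1) =
          T - (Matrix.vecMulVec v (star v)
        - Matrix.diagonal (fun x => ((2 - zd x + (if x = ((0, 0), 0) then a else 0) : ℝ) : ℂ))) := by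
        rw [hmain]
        ext x y
        by_cases hxy : x = y
        · subst hxy
          simp only [Matrix.sub_apply, Matrix.add_apply, Matrix.diagonal_apply_eq]
          push_cast
          ring
        · simp only [Matrix.sub_apply, Matrix.add_apply, Matrix.diagonal_apply_ne _ hxy]
          ring
      rw [key]; exact hTv
    · rw [Matrix.trace_add, Matrix.trace_add, htr, Matrix.trace_diagonal, Complex.add_re,
        Complex.add_re, ← Complex.ofReal_sum, Complex.ofReal_re]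
      have : ∑ x : Q3, (if x = ((0, 0), 0) then a else 0 : ℝ) = a := by simp
      rw [this]
      simp only [Complex.one_re]
      linarith
  have hcp1 : cp ((0, 0), 0) = ((1, 1), 1) := by simp [hcp]
  have hcp2 : cp ((0, 0), 1) = ((1, 1), 0) := by simp [hcp]
  have hcp3 : cp ((0, 1), 0) = ((1, 0), 1) := by simp [hcp]
  have hcp4 : cp ((0, 1), 1) = ((1, 0), 0) := by simp [hcp]
  have hcp5 : cp ((1, 0), 0) = ((0, 1), 1) := by simp [hcp]
  have hcp6 : cp ((1, 0), 1) = ((0, 1), 0) := by simp [hcp]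
  have hcp7 : cp ((1, 1), 0) = ((0, 0), 1) := by simp [hcp]
  have hcp8 : cp ((1, 1), 1) = ((0, 0), 0) := by simp [hcp]
  have z1 : zd ((0, 0), 0) = 3 - e1 - e2 - e3 := by simp [hzd]; ring
  have z2 : zd ((0, 0), 1) = 2 - e1 - e2 + e3 := by simp [hzd]; ring
  have z3 : zd ((0, 1), 0) = 2 - e1 + e2 - e3 := by simp [hzd]; ring
  have z4 : zd ((0, 1), 1) = 1 - e1 + e2 + e3 := by simp [hzd]
  have z5 : zd ((1, 0), 0) = 2 + e1 - e2 - e3 := by simp [hzd]; ring
  have z6 : zd ((1, 0), 1) = 1 + e1 - e2 + e3 := by simp [hzd]; ring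
  have z7 : zd ((1, 1), 0) = 1 + e1 + e2 - e3 := by simp [hzd]; ring
  have z8 : zd ((1, 1), 1) = e1 + e2 + e3 := by simp [hzd]
  have hall : ∀ P : Q3 → Prop, P ((0, 0), 0) → P ((0, 0), 1) → P ((0, 1), 0) → P ((0, 1), 1) →
      P ((1, 0), 0) → P ((1, 0), 1) → P ((1, 1), 0) → P ((1, 1), 1) → ∀ x, P x := by
    intro P a1 a2 a3 a4 a5 a6 a7 a8 x
    obtain ⟨⟨x1, x2⟩, x3⟩ := x
    fin_cases x1 <;> fin_cases x2 <;> fin_cases x3 <;> assumption
  rcases le_or_gt 1 (e1 + e2 + e3) with hE | hE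
  · -- E ≥ 1 : T = v v^*
    refine suff 0 (Matrix.vecMulVec v (star v)) le_rfl (Matrix.posSemidef_vecMulVec_self_star v) ?_ ?_
    · have : Matrix.vecMulVec v (star v) - (Matrix.vecMulVec v (star v)
        - Matrix.diagonal (fun x : Q3 => ((2 - zd x + (if x = ((0, 0), 0) then (0 : ℝ) else 0) : ℝ) : ℂ))) =
        Matrix.diagonal (fun x : Q3 => ((2 - zd x + (if x = ((0, 0), 0) then (0 : ℝ) else 0) : ℝ) : ℂ)) := by
        abel
      rw [this]
      refine diag_psd (fun x : Q3 => (2 - zd x + (if x = ((0, 0), 0) then (0 : ℝ) else 0) : ℝ))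
        fun x => ?_
      have : 0 ≤ 2 - zd x + (if x = ((0, 0), 0) then (0 : ℝ) else 0) := by
        revert x
        apply hall
        · rw [z1]; simp; linarith
        · rw [z2]; simp; linarith
        · rw [z3]; simp; linarith
        · rw [z4]; simp; linarith
        · rw [z5]; simp; linarith
        · rw [z6]; simp; linarith
        · rw [z7]; simp; linarith
        · rw [z8]; simp; linarith
      exact this
    · have : (Matrix.vecMulVec v (star v)).trace = ((∑ x, p (cp x) : ℝ) : ℂ) := by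
        rw [Matrix.trace, Complex.ofReal_sum]
        refine Finset.sum_congr rfl fun x _ => ?_
        rw [Matrix.diag_apply, Matrix.vecMulVec_apply, Pi.star_apply, Complex.star_def,
          Complex.mul_conj, Complex.normSq_eq_norm_sq, hvn]
      rw [this, Complex.ofReal_re, q_sum, hcp1, hcp2, hcp3, hcp4, hcp5, hcp6, hcp7, hcp8]
      linarith
  · rcases (by positivity : 0 ≤ e1 + e2 + e3).eq_or_lt with hE0 | hE0
    · -- E = 0
      have q1 : e1 = 0 := by linarith
      have q2 : e2 = 0 := by linarith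
      have q3 : e3 = 0 := by linarith
      subst q1 q2 q3
      refine suff 1 0 zero_le_one Matrix.PosSemidef.zero ?_ (by simp)
      have hv0 : ∀ x, x ≠ ((1, 1), 1) → v x = 0 := by
        have hz : ∀ x, p (cp x) = 0 → v x = 0 := by
          intro x hx
          have := hvn x
          rw [hx] at this
          exact norm_eq_zero.mp (pow_eq_zero_iff (two_ne_zero) |>.mp this)
        apply hall
        · intro _; apply hz; rw [hcp1]; linarith
        · intro _; apply hz; rw [hcp2]; linarith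
        · intro _; apply hz; rw [hcp3]; linarith
        · intro _; apply hz; rw [hcp4]; linarith
        · intro _; apply hz; rw [hcp5]; linarith
        · intro _; apply hz; rw [hcp6]; linarith
        · intro _; apply hz; rw [hcp7]; linarith
        · intro hh; exact absurd rfl hh
      have hvv : Matrix.vecMulVec v (star v) =
          Matrix.diagonal (fun x => ((p (cp x) : ℝ) : ℂ)) := by
        ext x y
        rw [Matrix.vecMulVec_apply, Pi.star_apply]
        by_cases hxy : x = y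
        · subst hxy
          rw [Matrix.diagonal_apply_eq, Complex.star_def,
          Complex.mul_conj, Complex.normSq_eq_norm_sq, hvn]
        · rw [Matrix.diagonal_apply_ne _ hxy]
          by_cases hx : x = ((1, 1), 1)
          · have hy : y ≠ ((1, 1), 1) := fun h => hxy (hx.trans h.symm)
            rw [hv0 y hy]; simp
          · rw [hv0 x hx]; simp
      rw [hvv]
      have : (0 : Matrix Q3 Q3 ℂ) - (Matrix.diagonal (fun x => ((p (cp x) : ℝ) : ℂ))
        - Matrix.diagonal (fun x : Q3 => ((2 - zd x + (if x = ((0, 0), 0) then (1 : ℝ) else 0) : ℝ) : ℂ))) =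
        Matrix.diagonal (fun x : Q3 => ((2 - zd x + (if x = ((0, 0), 0) then (1 : ℝ) else 0)
          - p (cp x) : ℝ) : ℂ)) := by
        ext x y
        by_cases hxy : x = y
        · subst hxy
          simp only [Matrix.sub_apply, Matrix.zero_apply, Matrix.diagonal_apply_eq]
          push_cast
          ring
        · simp only [Matrix.sub_apply, Matrix.zero_apply, Matrix.diagonal_apply_ne _ hxy]
          ring
      rw [this]
      refine diag_psd (fun x : Q3 => (2 - zd x + (if x = ((0, 0), 0) then (1 : ℝ) else 0)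
          - p (cp x) : ℝ)) fun x => ?_
      have : 0 ≤ 2 - zd x + (if x = ((0, 0), 0) then (1 : ℝ) else 0) - p (cp x) := by
        revert x
        apply hall
        · rw [z1, hcp1]; simp; linarith
        · rw [z2, hcp2]; simp; linarith
        · rw [z3, hcp3]; simp; linarith
        · rw [z4, hcp4]; simp; linarith
        · rw [z5, hcp5]; simp; linarith
        · rw [z6, hcp6]; simp; linarith
        · rw [z7, hcp7]; simp; linarith
        · rw [z8, hcp8]; simp; linarith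
      exact this
    · -- 0 < E < 1
      have hsec := secular_scalar (p ((0, 0), 0)) (p ((1, 0), 0)) (p ((0, 1), 0)) (p ((0, 0), 1))
        (p ((0, 1), 1)) (p ((1, 0), 1)) (p ((1, 1), 0)) (p ((1, 1), 1)) e1 e2 e3
        n000 n100 n010 n001 n011 n101 n110 n111 (by linarith) (by linarith) (by linarith)
        (by linarith) t1 t2 t3 hE0 hE
      obtain ⟨dl, hdl⟩ : ∃ dl : Q3 → ℝ, dl = fun x =>
        2 - zd x + (if x = ((0, 0), 0) then 1 - (e1 + e2 + e3) else 0) := ⟨_, rfl⟩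
      have w1 : dl ((0, 0), 0) = 0 := by rw [hdl]; simp only []; rw [z1]; simp; ring
      have w2 : dl ((0, 0), 1) = e1 + e2 - e3 := by rw [hdl]; simp only []; rw [z2]; simp; ring
      have w3 : dl ((0, 1), 0) = e1 + e3 - e2 := by rw [hdl]; simp only []; rw [z3]; simp; ring
      have w4 : dl ((0, 1), 1) = 1 + e1 - e2 - e3 := by rw [hdl]; simp only []; rw [z4]; simp; ring
      have w5 : dl ((1, 0), 0) = e2 + e3 - e1 := by rw [hdl]; simp only []; rw [z5]; simp; ring
      have w6 : dl ((1, 0), 1) = 1 + e2 - e1 - e3 := by rw [hdl]; simp only []; rw [z6]; simp; ring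
      have w7 : dl ((1, 1), 0) = 1 + e3 - e1 - e2 := by rw [hdl]; simp only []; rw [z7]; simp; ring
      have w8 : dl ((1, 1), 1) = 2 - (e1 + e2 + e3) := by rw [hdl]; simp only []; rw [z8]; simp
      obtain ⟨T, hT, hTv, hTt⟩ := secular v dl (e1 + e2 + e3) hE0
        (by
          apply hall
          · rw [w1]
          · rw [w2]; linarith
          · rw [w3]; linarith
          · rw [w4]; linarith
          · rw [w5]; linarith
          · rw [w6]; linarith
          · rw [w7]; linarith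
          · rw [w8]; linarith)
        (by
          rw [q_sum]
          simp only [hvn, hcp1, hcp2, hcp3, hcp4, hcp5, hcp6, hcp7, hcp8, w1, w2, w3, w4, w5, w6,
            w7, w8]
          refine le_trans (le_of_eq ?_) hsec
          have r1 : e1 + e2 + e3 + 0 = e1 + e2 + e3 := by ring
          have r2 : e1 + e2 + e3 + (e1 + e2 - e3) = 2 * (e1 + e2) := by ring
          have r3 : e1 + e2 + e3 + (e1 + e3 - e2) = 2 * (e1 + e3) := by ring
          have r4 : e1 + e2 + e3 + (1 + e1 - e2 - e3) = 1 + 2 * e1 := by ring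
          have r5 : e1 + e2 + e3 + (e2 + e3 - e1) = 2 * (e2 + e3) := by ring
          have r6 : e1 + e2 + e3 + (1 + e2 - e1 - e3) = 1 + 2 * e2 := by ring
          have r7 : e1 + e2 + e3 + (1 + e3 - e1 - e2) = 1 + 2 * e3 := by ring
          have r8 : e1 + e2 + e3 + (2 - (e1 + e2 + e3)) = 2 := by ring
          rw [r1, r2, r3, r4, r5, r6, r7, r8]
          ring)
      rw [hdl] at hTv
      exact suff (1 - (e1 + e2 + e3)) T (by linarith) hT hTv (by linarith)

section plin
variable {α β γ : Type} [Fintype α] [Fintype β] [Fintype γ]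
  [DecidableEq α] [DecidableEq β] [DecidableEq γ]

theorem P1_add (X Y : Matrix ((α × β) × γ) ((α × β) × γ) ℂ) : P1 (X + Y) = P1 X + P1 Y := by
  ext x y
  simp only [P1, Matrix.of_apply, Matrix.add_apply, Finset.sum_add_distrib]
  split_ifs <;> simp
theorem P2_add (X Y : Matrix ((α × β) × γ) ((α × β) × γ) ℂ) : P2 (X + Y) = P2 X + P2 Y := by
  ext x y
  simp only [P2, Matrix.of_apply, Matrix.add_apply, Finset.sum_add_distrib]
  split_ifs <;> simp
theorem P3_add (X Y : Matrix ((α × β) × γ) ((α × β) × γ) ℂ) : P3 (X + Y) = P3 X + P3 Y := by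
  ext x y
  simp only [P3, Matrix.of_apply, Matrix.add_apply, Finset.sum_add_distrib]
  split_ifs <;> simp
theorem P1_smul (c : ℂ) (X : Matrix ((α × β) × γ) ((α × β) × γ) ℂ) : P1 (c • X) = c • P1 X := by
  ext x y
  simp only [P1, Matrix.of_apply, Matrix.smul_apply, smul_eq_mul, ← Finset.mul_sum]
  split_ifs <;> simp
theorem P2_smul (c : ℂ) (X : Matrix ((α × β) × γ) ((α × β) × γ) ℂ) : P2 (c • X) = c • P2 X := by
  ext x y
  simp only [P2, Matrix.of_apply, Matrix.smul_apply, smul_eq_mul, ← Finset.mul_sum]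
  split_ifs <;> simp
theorem P3_smul (c : ℂ) (X : Matrix ((α × β) × γ) ((α × β) × γ) ℂ) : P3 (c • X) = c • P3 X := by
  ext x y
  simp only [P3, Matrix.of_apply, Matrix.smul_apply, smul_eq_mul, ← Finset.mul_sum]
  split_ifs <;> simp
theorem P1_P1 (X : Matrix ((α × β) × γ) ((α × β) × γ) ℂ) :
    P1 (P1 X) = (Fintype.card α : ℂ) • P1 X := by
  ext x y
  simp only [P1, Matrix.of_apply, Matrix.smul_apply, smul_eq_mul]
  split_ifs <;> simp
theorem P2_P2 (X : Matrix ((α × β) × γ) ((α × β) × γ) ℂ) :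
    P2 (P2 X) = (Fintype.card β : ℂ) • P2 X := by
  ext x y
  simp only [P2, Matrix.of_apply, Matrix.smul_apply, smul_eq_mul]
  split_ifs <;> simp
theorem P3_P3 (X : Matrix ((α × β) × γ) ((α × β) × γ) ℂ) :
    P3 (P3 X) = (Fintype.card γ : ℂ) • P3 X := by
  ext x y
  simp only [P3, Matrix.of_apply, Matrix.smul_apply, smul_eq_mul]
  split_ifs <;> simp
theorem P2_P1 (X : Matrix ((α × β) × γ) ((α × β) × γ) ℂ) : P2 (P1 X) = P1 (P2 X) := by
  ext x y
  simp only [P1, P2, Matrix.of_apply]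
  by_cases h1 : x.1.1 = y.1.1 <;> by_cases h2 : x.1.2 = y.1.2 <;> simp [h1, h2]
  exact Finset.sum_comm
theorem P3_P1 (X : Matrix ((α × β) × γ) ((α × β) × γ) ℂ) : P3 (P1 X) = P1 (P3 X) := by
  ext x y
  simp only [P1, P3, Matrix.of_apply]
  by_cases h1 : x.1.1 = y.1.1 <;> by_cases h2 : x.2 = y.2 <;> simp [h1, h2]
  exact Finset.sum_comm
theorem P3_P2 (X : Matrix ((α × β) × γ) ((α × β) × γ) ℂ) : P3 (P2 X) = P2 (P3 X) := by
  ext x y
  simp only [P2, P3, Matrix.of_apply]
  by_cases h1 : x.1.2 = y.1.2 <;> by_cases h2 : x.2 = y.2 <;> simp [h1, h2]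
  exact Finset.sum_comm
end plin

theorem iii_pure (ψ : Q3 → ℂ) (hψ : IsUnitVec ψ) :
    ∃ B : Matrix Q3 Q3 ℂ, B.PosSemidef ∧
      (B - (P1 (pureSt ψ) + P2 (pureSt ψ) + P3 (pureSt ψ) - 1)).PosSemidef ∧ B.trace.re ≤ 2 := by
  have htr : ∀ φ : Q3 → ℂ, (pureSt φ).trace = ((∑ x, ‖φ x‖ ^ 2 : ℝ) : ℂ) := by
    intro φ
    rw [Matrix.trace, Complex.ofReal_sum]
    refine Finset.sum_congr rfl fun x _ => ?_
    rw [Matrix.diag_apply]
    change φ x * star (φ x) = _
    rw [Complex.star_def, Complex.mul_conj, Complex.normSq_eq_norm_sq]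
  have hXpsd : (pureSt ψ).PosSemidef := Matrix.posSemidef_vecMulVec_self_star ψ
  have hX1 : (pureSt ψ).trace = 1 := by rw [htr, hψ]; simp
  obtain ⟨U1, hU1, U2, hU2, U3, hU3, e1, e2, e3, a1, a2, a3, a4, a5, a6, hM⟩ :=
    qubit_marginals hXpsd hX1
  set W : Matrix Q3 Q3 ℂ := (U1 ⊗ₖ U2) ⊗ₖ U3 with hW
  have hU1' : U1ᴴ * U1 = 1 := by
    simpa [Matrix.star_eq_conjTranspose] using Matrix.mem_unitaryGroup_iff'.mp hU1
  have hU2' : U2ᴴ * U2 = 1 := by
    simpa [Matrix.star_eq_conjTranspose] using Matrix.mem_unitaryGroup_iff'.mp hU2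
  have hU3' : U3ᴴ * U3 = 1 := by
    simpa [Matrix.star_eq_conjTranspose] using Matrix.mem_unitaryGroup_iff'.mp hU3
  have hWW : Wᴴ * W = 1 := by
    rw [hW, Matrix.conjTranspose_kronecker, Matrix.conjTranspose_kronecker,
      ← Matrix.mul_kronecker_mul, ← Matrix.mul_kronecker_mul, hU1', hU2', hU3',
      Matrix.one_kronecker_one, Matrix.one_kronecker_one]
  have hps : pureSt (W.mulVec ψ) = W * pureSt ψ * Wᴴ := by
    unfold pureSt
    rw [Matrix.mul_vecMulVec, Matrix.vecMulVec_mul, Matrix.star_mulVec]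
  obtain ⟨m1, m2, m3⟩ := hM (pureSt (W.mulVec ψ)) hps
  have hunit : IsUnitVec (W.mulVec ψ) := by
    have h1 := htr (W.mulVec ψ)
    rw [hps, Matrix.trace_mul_cycle, hWW, Matrix.one_mul, hX1] at h1
    have h2 : (1 : ℝ) = ∑ x, ‖(W.mulVec ψ) x‖ ^ 2 := by
      have h3 : ((1 : ℝ) : ℂ) = ((∑ x, ‖(W.mulVec ψ) x‖ ^ 2 : ℝ) : ℂ) := by
        rw [← h1]; simp
      exact Complex.ofReal_injective h3
    exact h2.symm
  obtain ⟨B, hB, hBY, hBt⟩ := iii_diag (W.mulVec ψ) hunit e1 e2 e3 a1 a2 a3 a4 a5 a6 m1 m2 m3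
  obtain ⟨c1, c2, c3⟩ := P_cov U1 U2 U3 hU1 hU2 hU3 (pureSt ψ)
  rw [← hW, ← hps] at c1 c2 c3
  refine ⟨Wᴴ * B * W, ?_, ?_, ?_⟩
  · exact hB.conjTranspose_mul_mul_same W
  · have h1 := hBY.conjTranspose_mul_mul_same W
    have h2 : Wᴴ * (B - (P1 (pureSt (W.mulVec ψ)) + P2 (pureSt (W.mulVec ψ))
        + P3 (pureSt (W.mulVec ψ)) - 1)) * W =
        Wᴴ * B * W - (P1 (pureSt ψ) + P2 (pureSt ψ) + P3 (pureSt ψ) - 1) := by
      rw [c1, c2, c3]
      have e : ∀ M : Matrix Q3 Q3 ℂ, Wᴴ * (W * M * Wᴴ) * W = M := by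
        intro M
        calc Wᴴ * (W * M * Wᴴ) * W = (Wᴴ * W) * M * (Wᴴ * W) := by
              simp only [Matrix.mul_assoc]
          _ = M := by rw [hWW]; simp
      rw [Matrix.mul_sub, Matrix.mul_sub, Matrix.mul_add, Matrix.mul_add, Matrix.sub_mul,
        Matrix.sub_mul, Matrix.add_mul, Matrix.add_mul, e, e, e, Matrix.mul_one, hWW]
    rw [h2] at h1
    exact h1
  · rw [Matrix.trace_mul_cycle]
    have hWW' : W * Wᴴ = 1 := mul_eq_one_comm.mp hWW
    rw [hWW', Matrix.one_mul]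
    exact hBt

theorem iii_mixed {X : Matrix Q3 Q3 ℂ} (h : X.PosSemidef) (htr : X.trace = 1) :
    ∃ B : Matrix Q3 Q3 ℂ, B.PosSemidef ∧
      (B - (P1 X + P2 X + P3 X - 1)).PosSemidef ∧ B.trace.re ≤ 2 := by
  have hadd1 : ∀ X Y : Matrix Q3 Q3 ℂ, P1 (X + Y) = P1 X + P1 Y := by
    intro X Y; ext x y
    simp only [P1, Matrix.of_apply, Matrix.add_apply, Finset.sum_add_distrib]
    split_ifs <;> simp
  have hadd2 : ∀ X Y : Matrix Q3 Q3 ℂ, P2 (X + Y) = P2 X + P2 Y := by
    intro X Y; ext x y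
    simp only [P2, Matrix.of_apply, Matrix.add_apply, Finset.sum_add_distrib]
    split_ifs <;> simp
  have hadd3 : ∀ X Y : Matrix Q3 Q3 ℂ, P3 (X + Y) = P3 X + P3 Y := by
    intro X Y; ext x y
    simp only [P3, Matrix.of_apply, Matrix.add_apply, Finset.sum_add_distrib]
    split_ifs <;> simp
  have hs1 : ∀ (c : ℂ) (X : Matrix Q3 Q3 ℂ), P1 (c • X) = c • P1 X := by
    intro c X; ext x y
    simp only [P1, Matrix.of_apply, Matrix.smul_apply, smul_eq_mul, ← Finset.mul_sum]
    split_ifs <;> simp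
  have hs2 : ∀ (c : ℂ) (X : Matrix Q3 Q3 ℂ), P2 (c • X) = c • P2 X := by
    intro c X; ext x y
    simp only [P2, Matrix.of_apply, Matrix.smul_apply, smul_eq_mul, ← Finset.mul_sum]
    split_ifs <;> simp
  have hs3 : ∀ (c : ℂ) (X : Matrix Q3 Q3 ℂ), P3 (c • X) = c • P3 X := by
    intro c X; ext x y
    simp only [P3, Matrix.of_apply, Matrix.smul_apply, smul_eq_mul, ← Finset.mul_sum]
    split_ifs <;> simp
  -- F X = P1 X + P2 X + P3 X - (tr X) 1
  obtain ⟨B, h1, h2, h3⟩ := pure_to_mixed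
    (fun X : Matrix Q3 Q3 ℂ => P1 X + P2 X + P3 X - X.trace • (1 : Matrix Q3 Q3 ℂ))
    (by
      intro X Y
      simp only [hadd1, hadd2, hadd3, Matrix.trace_add, add_smul]
      abel)
    (by
      intro c X
      simp only [hs1, hs2, hs3, Matrix.trace_smul, smul_sub, smul_add, smul_smul, smul_eq_mul])
    2
    (by
      intro ψ hψ
      have htr : (pureSt ψ).trace = 1 := by
        have : (pureSt ψ).trace = ((∑ x, ‖ψ x‖ ^ 2 : ℝ) : ℂ) := by
          rw [Matrix.trace, Complex.ofReal_sum]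
          refine Finset.sum_congr rfl fun x _ => ?_
          rw [Matrix.diag_apply]
          change ψ x * star (ψ x) = _
          rw [Complex.star_def, Complex.mul_conj, Complex.normSq_eq_norm_sq]
        rw [this, hψ]; simp
      simp only [htr, one_smul]
      exact iii_pure ψ hψ) h htr
  refine ⟨B, h1, ?_, h3⟩
  simpa [htr] using h2

theorem flip_psd {X : Matrix Q3 Q3 ℂ} (h : X.PosSemidef) :
    (comb 1 (-1) (-1) (-1) 1 1 1 (-1) X).PosSemidef := by
  have := comb_sign_psd h (-1) (-1) (-1) (Or.inr rfl) (Or.inr rfl) (Or.inr rfl)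
  norm_num at this
  exact this

theorem mm1 {F : Matrix Q3 Q3 ℂ} (hF : F.PosSemidef) : (P2 (P3 F) + P1 F - F).PosSemidef := by
  have hM := MM_psd (hF.submatrix (fun p : Fin 2 × (Fin 2 × Fin 2) => ((p.1, p.2.1), p.2.2)))
  have hM2 := hM.submatrix (fun x : Q3 => (x.1.1, (x.1.2, x.2)))
  convert hM2 using 1
  ext ⟨⟨x1, x2⟩, x3⟩ ⟨⟨y1, y2⟩, y3⟩
  simp only [MM, P1, P2, P3, Matrix.of_apply, Matrix.submatrix_apply, Matrix.add_apply,
    Matrix.sub_apply, Fintype.sum_prod_type, Prod.mk.injEq]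
  by_cases h2 : x2 = y2 <;> by_cases h3 : x3 = y3 <;> simp [h2, h3]

theorem mm2 {F : Matrix Q3 Q3 ℂ} (hF : F.PosSemidef) : (P1 (P3 F) + P2 F - F).PosSemidef := by
  have hM := MM_psd (hF.submatrix (fun p : Fin 2 × (Fin 2 × Fin 2) => ((p.2.1, p.1), p.2.2)))
  have hM2 := hM.submatrix (fun x : Q3 => (x.1.2, (x.1.1, x.2)))
  convert hM2 using 1
  ext ⟨⟨x1, x2⟩, x3⟩ ⟨⟨y1, y2⟩, y3⟩
  simp only [MM, P1, P2, P3, Matrix.of_apply, Matrix.submatrix_apply, Matrix.add_apply,
    Matrix.sub_apply, Fintype.sum_prod_type, Prod.mk.injEq]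
  by_cases h2 : x1 = y1 <;> by_cases h3 : x3 = y3 <;> simp [h2, h3]

theorem mm3 {F : Matrix Q3 Q3 ℂ} (hF : F.PosSemidef) : (P1 (P2 F) + P3 F - F).PosSemidef := by
  have hM := MM_psd (hF.submatrix (fun p : Fin 2 × (Fin 2 × Fin 2) => ((p.2.1, p.2.2), p.1)))
  have hM2 := hM.submatrix (fun x : Q3 => (x.2, (x.1.1, x.1.2)))
  convert hM2 using 1
  ext ⟨⟨x1, x2⟩, x3⟩ ⟨⟨y1, y2⟩, y3⟩
  simp only [MM, P1, P2, P3, Matrix.of_apply, Matrix.submatrix_apply, Matrix.add_apply,
    Matrix.sub_apply, Fintype.sum_prod_type, Prod.mk.injEq]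
  by_cases h2 : x1 = y1 <;> by_cases h3 : x2 = y2 <;> simp [h2, h3]

theorem iv1_qubit {X : Matrix Q3 Q3 ℂ} (h : X.PosSemidef) (htr : X.trace = 1) :
    (1 + X - P3 X - P2 X).PosSemidef := by
  convert mm1 (flip_psd h) using 1
  rw [← P123_one htr]
  simp only [comb, P1_add, P2_add, P3_add, P1_smul, P2_smul, P3_smul, P1_P1, P2_P2, P3_P3,
    P2_P1, P3_P1, P3_P2, Fintype.card_fin]
  ext x y
  simp only [Matrix.sub_apply, Matrix.add_apply, Matrix.smul_apply, smul_eq_mul]
  push_cast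
  ring

theorem iv2_qubit {X : Matrix Q3 Q3 ℂ} (h : X.PosSemidef) (htr : X.trace = 1) :
    (1 + X - P3 X - P1 X).PosSemidef := by
  convert mm2 (flip_psd h) using 1
  rw [← P123_one htr]
  simp only [comb, P1_add, P2_add, P3_add, P1_smul, P2_smul, P3_smul, P1_P1, P2_P2, P3_P3,
    P2_P1, P3_P1, P3_P2, Fintype.card_fin]
  ext x y
  simp only [Matrix.sub_apply, Matrix.add_apply, Matrix.smul_apply, smul_eq_mul]
  push_cast
  ring

theorem iv3_qubit {X : Matrix Q3 Q3 ℂ} (h : X.PosSemidef) (htr : X.trace = 1) :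
    (1 + X - P2 X - P1 X).PosSemidef := by
  convert mm3 (flip_psd h) using 1
  rw [← P123_one htr]
  simp only [comb, P1_add, P2_add, P3_add, P1_smul, P2_smul, P3_smul, P1_P1, P2_P2, P3_P3,
    P2_P1, P3_P1, P3_P2, Fintype.card_fin]
  ext x y
  simp only [Matrix.sub_apply, Matrix.add_apply, Matrix.smul_apply, smul_eq_mul]
  push_cast
  ring

end Helper611.Dep
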