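import Pool.Agent.Helper611.Dep.Thr
import Pool.Agent.Helper611.Dep.K8

open scoped BigOperators Kronecker ComplexOrder
open Matrix

namespace Helper611.Dep

section absec
variable {I : Type} [Fintype I] [DecidableEq I]

theorem psd_smul {M : Matrix I I ℂ} (h : M.PosSemidef) {c : ℝ} (hc : 0 ≤ c) :
    ((c : ℂ) • M).PosSemidef := h.smul (by exact_mod_cast hc)

/-- sorted case, `s = x2 x3`. -/
theorem abs_c1 (R1 R2 R3 R12 R13 R23 R0 A B : Matrix I I ℂ) (t1 t2 t3 : ℝ) (h1 : 0 ≤ t1)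
    (h12 : t1 ≤ t2) (h23 : t2 ≤ t3)
    (n2 : (1 - R2).PosSemidef) (n3 : (1 - R3).PosSemidef) (n23 : (1 - R23).PosSemidef)
    (iv3 : (1 + R0 - R13 - R23).PosSemidef) (hR0 : R0.PosSemidef) (hR0t : R0.trace.re ≤ 1)
    (hA : A.PosSemidef) (hAZ : (A - (R1 + R2 + R3 - (2 : ℂ) • 1)).PosSemidef)
    (hAt : A.trace.re ≤ 1)
    (hB : B.PosSemidef) (hBY : (B - (R12 + R13 + R23 - 1)).PosSemidef)
    (hBt : B.trace.re ≤ 2) :
    ∃ R' : Matrix I I ℂ, R'.PosSemidef ∧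
      (R' - (((1 - (1 + t2) * (1 + t3) : ℝ) : ℂ) • 1 + (t1 : ℂ) • R1 + (t2 : ℂ) • R2
        + (t3 : ℂ) • R3 + ((t1 * t2 : ℝ) : ℂ) • R12 + ((t1 * t3 : ℝ) : ℂ) • R13
        + ((t2 * t3 : ℝ) : ℂ) • R23)).PosSemidef ∧
      R'.trace.re ≤ t1 + t1 * t2 + t1 * t3 := by
  have h2 : 0 ≤ t2 := h1.trans h12
  have h3 : 0 ≤ t3 := h2.trans h23
  refine ⟨(t1 : ℂ) • A + ((t1 * t2 : ℝ) : ℂ) • B + ((t1 * t3 - t1 * t2 : ℝ) : ℂ) • R0, ?_, ?_, ?_⟩
  · exact ((psd_smul hA h1).add (psd_smul hB (by positivity))).add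
      (psd_smul hR0 (by nlinarith))
  · have key : (t1 : ℂ) • A + ((t1 * t2 : ℝ) : ℂ) • B + ((t1 * t3 - t1 * t2 : ℝ) : ℂ) • R0
        - (((1 - (1 + t2) * (1 + t3) : ℝ) : ℂ) • 1 + (t1 : ℂ) • R1 + (t2 : ℂ) • R2
        + (t3 : ℂ) • R3 + ((t1 * t2 : ℝ) : ℂ) • R12 + ((t1 * t3 : ℝ) : ℂ) • R13
        + ((t2 * t3 : ℝ) : ℂ) • R23) =
        (t1 : ℂ) • (A - (R1 + R2 + R3 - (2 : ℂ) • 1)) + ((t2 - t1 : ℝ) : ℂ) • (1 - R2)
        + ((t3 - t1 : ℝ) : ℂ) • (1 - R3) + ((t1 * t2 : ℝ) : ℂ) • (B - (R12 + R13 + R23 - 1))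
        + ((t1 * t3 - t1 * t2 : ℝ) : ℂ) • (1 + R0 - R13 - R23)
        + ((t2 * t3 - t1 * t3 : ℝ) : ℂ) • (1 - R23) := by
      ext x y
      simp only [Matrix.add_apply, Matrix.sub_apply, Matrix.smul_apply, smul_eq_mul]
      push_cast
      ring
    rw [key]
    exact (((((psd_smul hAZ h1).add (psd_smul n2 (by linarith))).add
      (psd_smul n3 (by linarith))).add (psd_smul hBY (by positivity))).add
      (psd_smul iv3 (by nlinarith))).add (psd_smul n23 (by nlinarith))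
  · simp only [Matrix.trace_add, Matrix.trace_smul, Complex.add_re, smul_eq_mul,
      Complex.re_ofReal_mul]
    have a1 := mul_le_mul_of_nonneg_left hAt h1
    have a2 := mul_le_mul_of_nonneg_left hBt (by positivity : 0 ≤ t1 * t2)
    have a3 := mul_le_mul_of_nonneg_left hR0t (by nlinarith : 0 ≤ t1 * t3 - t1 * t2)
    linarith

/-- sorted case, `s = x1 x3`. -/
theorem abs_c2 (R1 R2 R3 R12 R13 R23 R0 A B : Matrix I I ℂ) (t1 t2 t3 : ℝ) (h1 : 0 ≤ t1)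
    (h12 : t1 ≤ t2) (h23 : t2 ≤ t3)
    (n3 : (1 - R3).PosSemidef) (rr23 : (1 - R2 - R3 + R23).PosSemidef)
    (iv3 : (1 + R0 - R13 - R23).PosSemidef) (hR0 : R0.PosSemidef) (hR0t : R0.trace.re ≤ 1)
    (hA : A.PosSemidef) (hAZ : (A - (R1 + R2 + R3 - (2 : ℂ) • 1)).PosSemidef)
    (hAt : A.trace.re ≤ 1)
    (hB : B.PosSemidef) (hBY : (B - (R12 + R13 + R23 - 1)).PosSemidef)
    (hBt : B.trace.re ≤ 2) :
    ∃ R' : Matrix I I ℂ, R'.PosSemidef ∧
      (R' - (((1 - (1 + t1) * (1 + t3) : ℝ) : ℂ) • 1 + (t1 : ℂ) • R1 + (t2 : ℂ) • R2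
        + (t3 : ℂ) • R3 + ((t1 * t2 : ℝ) : ℂ) • R12 + ((t1 * t3 : ℝ) : ℂ) • R13
        + ((t2 * t3 - (t2 - t1) * (1 + t3) : ℝ) : ℂ) • R23)).PosSemidef ∧
      R'.trace.re ≤ t1 + t1 * t2 + t1 * t3 := by
  have h2 : 0 ≤ t2 := h1.trans h12
  have h3 : 0 ≤ t3 := h2.trans h23
  refine ⟨(t1 : ℂ) • A + ((t1 * t2 : ℝ) : ℂ) • B + ((t1 * t3 - t1 * t2 : ℝ) : ℂ) • R0, ?_, ?_, ?_⟩
  · exact ((psd_smul hA h1).add (psd_smul hB (by positivity))).add
      (psd_smul hR0 (by nlinarith))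
  · have key : (t1 : ℂ) • A + ((t1 * t2 : ℝ) : ℂ) • B + ((t1 * t3 - t1 * t2 : ℝ) : ℂ) • R0
        - (((1 - (1 + t1) * (1 + t3) : ℝ) : ℂ) • 1 + (t1 : ℂ) • R1 + (t2 : ℂ) • R2
        + (t3 : ℂ) • R3 + ((t1 * t2 : ℝ) : ℂ) • R12 + ((t1 * t3 : ℝ) : ℂ) • R13
        + ((t2 * t3 - (t2 - t1) * (1 + t3) : ℝ) : ℂ) • R23) =
        (t1 : ℂ) • (A - (R1 + R2 + R3 - (2 : ℂ) • 1)) + ((t3 - t2 : ℝ) : ℂ) • (1 - R3)
        + ((t2 - t1 : ℝ) : ℂ) • (1 - R2 - R3 + R23)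
        + ((t1 * t2 : ℝ) : ℂ) • (B - (R12 + R13 + R23 - 1))
        + ((t1 * t3 - t1 * t2 : ℝ) : ℂ) • (1 + R0 - R13 - R23) := by
      ext x y
      simp only [Matrix.add_apply, Matrix.sub_apply, Matrix.smul_apply, smul_eq_mul]
      push_cast
      ring
    rw [key]
    exact ((((psd_smul hAZ h1).add (psd_smul n3 (by linarith))).add
      (psd_smul rr23 (by linarith))).add (psd_smul hBY (by positivity))).add
      (psd_smul iv3 (by nlinarith))
  · simp only [Matrix.trace_add, Matrix.trace_smul, Complex.add_re, smul_eq_mul,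
      Complex.re_ofReal_mul]
    have a1 := mul_le_mul_of_nonneg_left hAt h1
    have a2 := mul_le_mul_of_nonneg_left hBt (by positivity : 0 ≤ t1 * t2)
    have a3 := mul_le_mul_of_nonneg_left hR0t (by nlinarith : 0 ≤ t1 * t3 - t1 * t2)
    linarith

/-- sorted case, `s = x1 x2 ≥ x3`. -/
theorem abs_c3 (R1 R2 R3 R12 R13 R23 A B C : Matrix I I ℂ) (t1 t2 t3 : ℝ) (h1 : 0 ≤ t1)
    (h12 : t1 ≤ t2) (h23 : t2 ≤ t3) (hx : 1 + t3 ≤ (1 + t1) * (1 + t2))
    (rr13 : (1 - R1 - R3 + R13).PosSemidef) (rr23 : (1 - R2 - R3 + R23).PosSemidef)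
    (hA : A.PosSemidef) (hAZ : (A - (R1 + R2 + R3 - (2 : ℂ) • 1)).PosSemidef)
    (hAt : A.trace.re ≤ 1)
    (hB : B.PosSemidef) (hBY : (B - (R12 + R13 + R23 - 1)).PosSemidef)
    (hBt : B.trace.re ≤ 2)
    (hC : C.PosSemidef) (hCR : (C - (R12 + R3 - 1)).PosSemidef)
    (hCt : C.trace.re ≤ 1) :
    ∃ R' : Matrix I I ℂ, R'.PosSemidef ∧
      (R' - (((1 - (1 + t1) * (1 + t2) : ℝ) : ℂ) • 1 + (t1 : ℂ) • R1 + (t2 : ℂ) • R2
        + (t3 : ℂ) • R3 + ((t1 * t2 : ℝ) : ℂ) • R12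
        + ((t1 * t3 - (1 + t1) * (t3 - t2) : ℝ) : ℂ) • R13
        + ((t2 * t3 - (1 + t2) * (t3 - t1) : ℝ) : ℂ) • R23)).PosSemidef ∧
      R'.trace.re ≤ t1 + t2 - t3 + 2 * (t1 * t2) := by
  have h2 : 0 ≤ t2 := h1.trans h12
  have h3 : 0 ≤ t3 := h2.trans h23
  have h12' : 0 ≤ t1 * t2 := by positivity
  rcases le_total t3 (t1 + t2) with hc | hc
  · refine ⟨((t1 + t2 - t3 : ℝ) : ℂ) • A + ((t1 * t2 : ℝ) : ℂ) • B, ?_, ?_, ?_⟩
    · exact (psd_smul hA (by linarith)).add (psd_smul hB h12')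
    · have key : ((t1 + t2 - t3 : ℝ) : ℂ) • A + ((t1 * t2 : ℝ) : ℂ) • B
          - (((1 - (1 + t1) * (1 + t2) : ℝ) : ℂ) • 1 + (t1 : ℂ) • R1 + (t2 : ℂ) • R2
        + (t3 : ℂ) • R3 + ((t1 * t2 : ℝ) : ℂ) • R12
        + ((t1 * t3 - (1 + t1) * (t3 - t2) : ℝ) : ℂ) • R13
        + ((t2 * t3 - (1 + t2) * (t3 - t1) : ℝ) : ℂ) • R23) =
          ((t1 + t2 - t3 : ℝ) : ℂ) • (A - (R1 + R2 + R3 - (2 : ℂ) • 1))
          + ((t1 * t2 : ℝ) : ℂ) • (B - (R12 + R13 + R23 - 1))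
          + ((t3 - t2 : ℝ) : ℂ) • (1 - R1 - R3 + R13)
          + ((t3 - t1 : ℝ) : ℂ) • (1 - R2 - R3 + R23) := by
        ext x y
        simp only [Matrix.add_apply, Matrix.sub_apply, Matrix.smul_apply, smul_eq_mul]
        push_cast
        ring
      rw [key]
      exact (((psd_smul hAZ (by linarith)).add (psd_smul hBY h12')).add
        (psd_smul rr13 (by linarith))).add (psd_smul rr23 (by linarith))
    · simp only [Matrix.trace_add, Matrix.trace_smul, Complex.add_re, smul_eq_mul,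
        Complex.re_ofReal_mul]
      have a1 := mul_le_mul_of_nonneg_left hAt (by linarith : 0 ≤ t1 + t2 - t3)
      have a2 := mul_le_mul_of_nonneg_left hBt h12'
      linarith
  · have hd : 0 ≤ t3 - t1 - t2 := by linarith
    have hd' : 0 ≤ t1 * t2 - (t3 - t1 - t2) := by nlinarith
    refine ⟨((t1 * t2 - (t3 - t1 - t2) : ℝ) : ℂ) • B + ((t3 - t1 - t2 : ℝ) : ℂ) • C, ?_, ?_, ?_⟩
    · exact (psd_smul hB hd').add (psd_smul hC hd)
    · have key : ((t1 * t2 - (t3 - t1 - t2) : ℝ) : ℂ) • B + ((t3 - t1 - t2 : ℝ) : ℂ) • C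
          - (((1 - (1 + t1) * (1 + t2) : ℝ) : ℂ) • 1 + (t1 : ℂ) • R1 + (t2 : ℂ) • R2
        + (t3 : ℂ) • R3 + ((t1 * t2 : ℝ) : ℂ) • R12
        + ((t1 * t3 - (1 + t1) * (t3 - t2) : ℝ) : ℂ) • R13
        + ((t2 * t3 - (1 + t2) * (t3 - t1) : ℝ) : ℂ) • R23) =
          ((t1 * t2 - (t3 - t1 - t2) : ℝ) : ℂ) • (B - (R12 + R13 + R23 - 1))
          + ((t3 - t1 - t2 : ℝ) : ℂ) • (C - (R12 + R3 - 1))
          + (t1 : ℂ) • (1 - R1 - R3 + R13) + (t2 : ℂ) • (1 - R2 - R3 + R23) := by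
        ext x y
        simp only [Matrix.add_apply, Matrix.sub_apply, Matrix.smul_apply, smul_eq_mul]
        push_cast
        ring
      rw [key]
      exact (((psd_smul hBY hd').add (psd_smul hCR hd)).add (psd_smul rr13 h1)).add
        (psd_smul rr23 h2)
    · simp only [Matrix.trace_add, Matrix.trace_smul, Complex.add_re, smul_eq_mul,
        Complex.re_ofReal_mul]
      have a1 := mul_le_mul_of_nonneg_left hCt hd
      have a2 := mul_le_mul_of_nonneg_left hBt hd'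
      linarith

end absec

section restsec
variable {α β γ : Type} [Fintype α] [Fintype β] [Fintype γ]
  [DecidableEq α] [DecidableEq β] [DecidableEq γ]

theorem thr_from_rest (a0 : α) (b0 : β) (g0 : γ) (t1 t2 t3 s : ℝ) (h1 : 0 ≤ t1) (h2 : 0 ≤ t2)
    (h3 : 0 ≤ t3) {X : Matrix ((α × β) × γ) ((α × β) × γ) ℂ} (h : X.PosSemidef)
    (htr : X.trace = 1) (y12 y13 y23 ex : ℝ) (e12 : 0 ≤ y12) (e13 : 0 ≤ y13) (e23 : 0 ≤ y23)
    (k12 : y12 ≤ max 0 ((1 + t1) * (1 + t2) - s)) (k13 : y13 ≤ max 0 ((1 + t1) * (1 + t3) - s))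
    (k23 : y23 ≤ max 0 ((1 + t2) * (1 + t3) - s))
    (k123 : y12 + y13 + y23 + t1 * t2 * t3 + ex ≤ max 0 ((1 + t1) * (1 + t2) * (1 + t3) - s))
    (R' : Matrix ((α × β) × γ) ((α × β) × γ) ℂ) (hR' : R'.PosSemidef)
    (hrest : (R' - comb (1 - s) t1 t2 t3 (t1 * t2 - y12) (t1 * t3 - y13) (t2 * t3 - y23) 0
      X).PosSemidef) (hR't : R'.trace.re ≤ ex) :
    ∃ Y : Matrix ((α × β) × γ) ((α × β) × γ) ℂ, Y.PosSemidef ∧
      (Y - (comb 1 t1 t2 t3 (t1 * t2) (t1 * t3) (t2 * t3) (t1 * t2 * t3) X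
        - ((s : ℝ) : ℂ) • (1 : Matrix ((α × β) × γ) ((α × β) × γ) ℂ))).PosSemidef ∧
      Y.trace.re ≤ ∑ w, max 0 (lamv a0 b0 g0 1 t1 1 t2 1 t3 w - s) := by
  have h123 : 0 ≤ t1 * t2 * t3 := by positivity
  refine ⟨comb 0 0 0 0 y12 y13 y23 (t1 * t2 * t3) X + R', ?_, ?_, ?_⟩
  · exact (comb_psd_cp h _ _ _ _ _ _ _ _ le_rfl le_rfl le_rfl le_rfl e12 e13 e23 h123).add hR'
  · have key : comb 0 0 0 0 y12 y13 y23 (t1 * t2 * t3) X + R' -
        (comb 1 t1 t2 t3 (t1 * t2) (t1 * t3) (t2 * t3) (t1 * t2 * t3) X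
        - ((s : ℝ) : ℂ) • (1 : Matrix ((α × β) × γ) ((α × β) × γ) ℂ)) =
        R' - comb (1 - s) t1 t2 t3 (t1 * t2 - y12) (t1 * t3 - y13) (t2 * t3 - y23) 0 X := by
      have e1 := P123_one htr
      ext x y
      simp only [comb, e1, Matrix.sub_apply, Matrix.add_apply, Matrix.smul_apply, smul_eq_mul]
      push_cast
      ring
    rw [key]
    exact hrest
  · have e1 : (comb 0 0 0 0 y12 y13 y23 (t1 * t2 * t3 + ex) X).trace.re =
        (comb 0 0 0 0 y12 y13 y23 (t1 * t2 * t3) X).trace.re + ex := by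
      have : comb 0 0 0 0 y12 y13 y23 (t1 * t2 * t3 + ex) X =
          comb 0 0 0 0 y12 y13 y23 (t1 * t2 * t3) X + (ex : ℂ) • X := by
        ext x y
        simp only [comb, Matrix.add_apply, Matrix.smul_apply, smul_eq_mul]
        push_cast
        ring
      rw [this, Matrix.trace_add, Matrix.trace_smul, htr, Complex.add_re]
      simp
    rw [Matrix.trace_add, Complex.add_re]
    have e2 := trace_comb_re a0 b0 g0 0 0 0 0 y12 y13 y23 (t1 * t2 * t3 + ex) htr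
    have e3 : ∑ z : (α × β) × γ, pv a0 b0 g0 0 0 0 0 y12 y13 y23 (t1 * t2 * t3 + ex) z ≤
        ∑ w, max 0 (lamv a0 b0 g0 1 t1 1 t2 1 t3 w - s) := by
      refine Finset.sum_le_sum fun z _ => ?_
      unfold pv lamv
      by_cases c1 : z.1.1 = a0 <;> by_cases c2 : z.1.2 = b0 <;> by_cases c3 : z.2 = g0 <;>
        simp only [c1, c2, c3, if_true, if_false, one_mul, mul_one, add_zero, zero_add]
      · linarith
      · exact k12
      · exact k13
      · exact le_max_left _ _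
      · exact k23
      · exact le_max_left _ _
      · exact le_max_left _ _
      · exact le_max_left _ _
    linarith

/-- the building blocks for a state -/
structure Blocks (X : Matrix ((α × β) × γ) ((α × β) × γ) ℂ) : Prop where
  hB : ∃ B : Matrix ((α × β) × γ) ((α × β) × γ) ℂ, B.PosSemidef ∧
    (B - (P1 X + P2 X + P3 X - 1)).PosSemidef ∧ B.trace.re ≤ 2
  iv1 : (1 + X - P3 X - P2 X).PosSemidef
  iv2 : (1 + X - P3 X - P1 X).PosSemidef
  iv3 : (1 + X - P2 X - P1 X).PosSemidef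

end restsec

section special
variable {α β γ : Type} [Fintype α] [Fintype β] [Fintype γ]
  [DecidableEq α] [DecidableEq β] [DecidableEq γ]

theorem n1_psd {X : Matrix ((α × β) × γ) ((α × β) × γ) ℂ} (h : X.PosSemidef)
    (htr : X.trace = 1) : (1 - P2 (P3 X)).PosSemidef := by
  have e1 := P123_one htr
  have key : 1 - P2 (P3 X) = comb 1 (-1) 0 0 0 0 0 0 X := by
    ext x y
    simp only [comb, e1, Matrix.sub_apply, Matrix.add_apply, Matrix.smul_apply, smul_eq_mul]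
    push_cast
    ring
  rw [key]
  refine comb_psd_of_hat h _ _ _ _ _ _ _ _ ?_
  rintro u v w (rfl | rfl) (rfl | rfl) (rfl | rfl) <;> norm_num

theorem n2_psd {X : Matrix ((α × β) × γ) ((α × β) × γ) ℂ} (h : X.PosSemidef)
    (htr : X.trace = 1) : (1 - P1 (P3 X)).PosSemidef := by
  have e1 := P123_one htr
  have key : 1 - P1 (P3 X) = comb 1 0 (-1) 0 0 0 0 0 X := by
    ext x y
    simp only [comb, e1, Matrix.sub_apply, Matrix.add_apply, Matrix.smul_apply, smul_eq_mul]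
    push_cast
    ring
  rw [key]
  refine comb_psd_of_hat h _ _ _ _ _ _ _ _ ?_
  rintro u v w (rfl | rfl) (rfl | rfl) (rfl | rfl) <;> norm_num

theorem n3_psd {X : Matrix ((α × β) × γ) ((α × β) × γ) ℂ} (h : X.PosSemidef)
    (htr : X.trace = 1) : (1 - P1 (P2 X)).PosSemidef := by
  have e1 := P123_one htr
  have key : 1 - P1 (P2 X) = comb 1 0 0 (-1) 0 0 0 0 X := by
    ext x y
    simp only [comb, e1, Matrix.sub_apply, Matrix.add_apply, Matrix.smul_apply, smul_eq_mul]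
    push_cast
    ring
  rw [key]
  refine comb_psd_of_hat h _ _ _ _ _ _ _ _ ?_
  rintro u v w (rfl | rfl) (rfl | rfl) (rfl | rfl) <;> norm_num

theorem n12_psd {X : Matrix ((α × β) × γ) ((α × β) × γ) ℂ} (h : X.PosSemidef)
    (htr : X.trace = 1) : (1 - P3 X).PosSemidef := by
  have e1 := P123_one htr
  have key : 1 - P3 X = comb 1 0 0 0 (-1) 0 0 0 X := by
    ext x y
    simp only [comb, e1, Matrix.sub_apply, Matrix.add_apply, Matrix.smul_apply, smul_eq_mul]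
    push_cast
    ring
  rw [key]
  refine comb_psd_of_hat h _ _ _ _ _ _ _ _ ?_
  rintro u v w (rfl | rfl) (rfl | rfl) (rfl | rfl) <;> norm_num

theorem rr12_psd {X : Matrix ((α × β) × γ) ((α × β) × γ) ℂ} (h : X.PosSemidef)
    (htr : X.trace = 1) : (1 - P2 (P3 X) - P1 (P3 X) + P3 X).PosSemidef := by
  have e1 := P123_one htr
  have key : 1 - P2 (P3 X) - P1 (P3 X) + P3 X = comb 1 (-1) (-1) 0 1 0 0 0 X := by
    ext x y
    simp only [comb, e1, Matrix.sub_apply, Matrix.add_apply, Matrix.smul_apply, smul_eq_mul]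
    push_cast
    ring
  rw [key]
  refine comb_psd_of_hat h _ _ _ _ _ _ _ _ ?_
  rintro u v w (rfl | rfl) (rfl | rfl) (rfl | rfl) <;> norm_num

theorem n13_psd {X : Matrix ((α × β) × γ) ((α × β) × γ) ℂ} (h : X.PosSemidef)
    (htr : X.trace = 1) : (1 - P2 X).PosSemidef := by
  have e1 := P123_one htr
  have key : 1 - P2 X = comb 1 0 0 0 0 (-1) 0 0 X := by
    ext x y
    simp only [comb, e1, Matrix.sub_apply, Matrix.add_apply, Matrix.smul_apply, smul_eq_mul]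
    push_cast
    ring
  rw [key]
  refine comb_psd_of_hat h _ _ _ _ _ _ _ _ ?_
  rintro u v w (rfl | rfl) (rfl | rfl) (rfl | rfl) <;> norm_num

theorem rr13_psd {X : Matrix ((α × β) × γ) ((α × β) × γ) ℂ} (h : X.PosSemidef)
    (htr : X.trace = 1) : (1 - P2 (P3 X) - P1 (P2 X) + P2 X).PosSemidef := by
  have e1 := P123_one htr
  have key : 1 - P2 (P3 X) - P1 (P2 X) + P2 X = comb 1 (-1) 0 (-1) 0 1 0 0 X := by
    ext x y
    simp only [comb, e1, Matrix.sub_apply, Matrix.add_apply, Matrix.smul_apply, smul_eq_mul]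
    push_cast
    ring
  rw [key]
  refine comb_psd_of_hat h _ _ _ _ _ _ _ _ ?_
  rintro u v w (rfl | rfl) (rfl | rfl) (rfl | rfl) <;> norm_num

theorem n23_psd {X : Matrix ((α × β) × γ) ((α × β) × γ) ℂ} (h : X.PosSemidef)
    (htr : X.trace = 1) : (1 - P1 X).PosSemidef := by
  have e1 := P123_one htr
  have key : 1 - P1 X = comb 1 0 0 0 0 0 (-1) 0 X := by
    ext x y
    simp only [comb, e1, Matrix.sub_apply, Matrix.add_apply, Matrix.smul_apply, smul_eq_mul]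
    push_cast
    ring
  rw [key]
  refine comb_psd_of_hat h _ _ _ _ _ _ _ _ ?_
  rintro u v w (rfl | rfl) (rfl | rfl) (rfl | rfl) <;> norm_num

theorem rr23_psd {X : Matrix ((α × β) × γ) ((α × β) × γ) ℂ} (h : X.PosSemidef)
    (htr : X.trace = 1) : (1 - P1 (P3 X) - P1 (P2 X) + P1 X).PosSemidef := by
  have e1 := P123_one htr
  have key : 1 - P1 (P3 X) - P1 (P2 X) + P1 X = comb 1 0 (-1) (-1) 0 0 1 0 X := by
    ext x y
    simp only [comb, e1, Matrix.sub_apply, Matrix.add_apply, Matrix.smul_apply, smul_eq_mul]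
    push_cast
    ring
  rw [key]
  refine comb_psd_of_hat h _ _ _ _ _ _ _ _ ?_
  rintro u v w (rfl | rfl) (rfl | rfl) (rfl | rfl) <;> norm_num

theorem special_123 (a0 : α) (b0 : β) (g0 : γ) (t1 t2 t3 s : ℝ) (h1 : 0 ≤ t1) (h2 : 0 ≤ t2)
    (h3 : 0 ≤ t3) (hs : (t1 ≤ t2 ∧ t2 ≤ t3 ∧ (s = (1 + t2) * (1 + t3) ∨ s = (1 + t1) * (1 + t3) ∨
        (s = (1 + t1) * (1 + t2) ∧ 1 + t3 ≤ (1 + t1) * (1 + t2)))))
    {X : Matrix ((α × β) × γ) ((α × β) × γ) ℂ} (h : X.PosSemidef) (htr : X.trace = 1)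
    (hb : Blocks X) :
    ∃ Y : Matrix ((α × β) × γ) ((α × β) × γ) ℂ, Y.PosSemidef ∧
      (Y - (comb 1 t1 t2 t3 (t1 * t2) (t1 * t3) (t2 * t3) (t1 * t2 * t3) X
        - ((s : ℝ) : ℂ) • (1 : Matrix ((α × β) × γ) ((α × β) × γ) ℂ))).PosSemidef ∧
      Y.trace.re ≤ ∑ w, max 0 (lamv a0 b0 g0 1 t1 1 t2 1 t3 w - s) := by
  have e1 := P123_one htr
  obtain ⟨o1, o2, hs⟩ := hs
  obtain ⟨A, hA, hAZ, hAt⟩ := dom_Z h htr
  obtain ⟨B, hB, hBY, hBt⟩ := hb.hB
  obtain ⟨C, hC, hCR, hCt⟩ := dom_C3 h htr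
  have hR0t : X.trace.re ≤ 1 := by rw [htr]; simp
  have ivk : (1 + X - P2 X - P1 X).PosSemidef := by
    have := hb.iv3
    have e : 1 + X - P2 X - P1 X = 1 + X - P2 X - P1 X := by abel
    rw [e]; exact this
  have hAZ' : (A - (P2 (P3 X) + P1 (P3 X) + P1 (P2 X) - (2 : ℂ) • 1)).PosSemidef := by
    have e : P2 (P3 X) + P1 (P3 X) + P1 (P2 X) = P2 (P3 X) + P1 (P3 X) + P1 (P2 X) := by abel
    rw [e]; exact hAZ
  have hBY' : (B - (P3 X + P2 X + P1 X - 1)).PosSemidef := by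
    have e : P3 X + P2 X + P1 X = P1 X + P2 X + P3 X := by abel
    rw [e]; exact hBY
  have q12 : 0 ≤ t1 * t2 := by positivity
  have q13 : 0 ≤ t1 * t3 := by positivity
  have q23 : 0 ≤ t2 * t3 := by positivity
  rcases hs with rfl | rfl | ⟨rfl, hx⟩
  · obtain ⟨R', r1, r2, r3⟩ := abs_c1 (P2 (P3 X)) (P1 (P3 X)) (P1 (P2 X)) (P3 X) (P2 X) (P1 X) X A B t1 t2 t3 h1 o1 o2 (n2_psd h htr) (n3_psd h htr) (n23_psd h htr) ivk h hR0t hA hAZ' hAt hB hBY' hBt
    refine thr_from_rest a0 b0 g0 t1 t2 t3 _ h1 h2 h3 h htr (0) (0) (0) (t1 + t1 * t2 + t1 * t3) ?_ ?_ ?_ ?_ ?_ ?_ ?_ R' r1 ?_ ?_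
    · nlinarith
    · nlinarith
    · nlinarith
    · first | exact le_max_left _ _ | exact le_max_of_le_right (by nlinarith)
    · first | exact le_max_left _ _ | exact le_max_of_le_right (by nlinarith)
    · first | exact le_max_left _ _ | exact le_max_of_le_right (by nlinarith)
    · exact le_max_of_le_right (le_of_eq (by ring))
    · convert r2 using 2
      ext x y
      simp only [comb, e1, Matrix.sub_apply, Matrix.add_apply, Matrix.smul_apply, smul_eq_mul]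
      push_cast
      ring
    · exact r3.trans (le_of_eq (by ring))
  · obtain ⟨R', r1, r2, r3⟩ := abs_c2 (P2 (P3 X)) (P1 (P3 X)) (P1 (P2 X)) (P3 X) (P2 X) (P1 X) X A B t1 t2 t3 h1 o1 o2 (n3_psd h htr) (rr23_psd h htr) ivk h hR0t hA hAZ' hAt hB hBY' hBt
    refine thr_from_rest a0 b0 g0 t1 t2 t3 _ h1 h2 h3 h htr (0) (0) ((t2 - t1) * (1 + t3)) (t1 + t1 * t2 + t1 * t3) ?_ ?_ ?_ ?_ ?_ ?_ ?_ R' r1 ?_ ?_
    · nlinarith
    · nlinarith
    · nlinarith
    · first | exact le_max_left _ _ | exact le_max_of_le_right (by nlinarith)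
    · first | exact le_max_left _ _ | exact le_max_of_le_right (by nlinarith)
    · first | exact le_max_left _ _ | exact le_max_of_le_right (by nlinarith)
    · exact le_max_of_le_right (le_of_eq (by ring))
    · convert r2 using 2
      ext x y
      simp only [comb, e1, Matrix.sub_apply, Matrix.add_apply, Matrix.smul_apply, smul_eq_mul]
      push_cast
      ring
    · exact r3.trans (le_of_eq (by ring))
  · obtain ⟨R', r1, r2, r3⟩ := abs_c3 (P2 (P3 X)) (P1 (P3 X)) (P1 (P2 X)) (P3 X) (P2 X) (P1 X) A B C t1 t2 t3 h1 o1 o2 hx (rr13_psd h htr) (rr23_psd h htr) hA hAZ' hAt hB hBY' hBt hC hCR hCt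
    refine thr_from_rest a0 b0 g0 t1 t2 t3 _ h1 h2 h3 h htr (0) ((1 + t1) * (t3 - t2)) ((1 + t2) * (t3 - t1)) (t1 + t2 - t3 + 2 * (t1 * t2)) ?_ ?_ ?_ ?_ ?_ ?_ ?_ R' r1 ?_ ?_
    · nlinarith
    · nlinarith
    · nlinarith
    · first | exact le_max_left _ _ | exact le_max_of_le_right (by nlinarith)
    · first | exact le_max_left _ _ | exact le_max_of_le_right (by nlinarith)
    · first | exact le_max_left _ _ | exact le_max_of_le_right (by nlinarith)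
    · exact le_max_of_le_right (le_of_eq (by ring))
    · convert r2 using 2
      ext x y
      simp only [comb, e1, Matrix.sub_apply, Matrix.add_apply, Matrix.smul_apply, smul_eq_mul]
      push_cast
      ring
    · exact r3.trans (le_of_eq (by ring))

theorem special_132 (a0 : α) (b0 : β) (g0 : γ) (t1 t2 t3 s : ℝ) (h1 : 0 ≤ t1) (h2 : 0 ≤ t2)
    (h3 : 0 ≤ t3) (hs : (t1 ≤ t3 ∧ t3 ≤ t2 ∧ (s = (1 + t3) * (1 + t2) ∨ s = (1 + t1) * (1 + t2) ∨
        (s = (1 + t1) * (1 + t3) ∧ 1 + t2 ≤ (1 + t1) * (1 + t3)))))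
    {X : Matrix ((α × β) × γ) ((α × β) × γ) ℂ} (h : X.PosSemidef) (htr : X.trace = 1)
    (hb : Blocks X) :
    ∃ Y : Matrix ((α × β) × γ) ((α × β) × γ) ℂ, Y.PosSemidef ∧
      (Y - (comb 1 t1 t2 t3 (t1 * t2) (t1 * t3) (t2 * t3) (t1 * t2 * t3) X
        - ((s : ℝ) : ℂ) • (1 : Matrix ((α × β) × γ) ((α × β) × γ) ℂ))).PosSemidef ∧
      Y.trace.re ≤ ∑ w, max 0 (lamv a0 b0 g0 1 t1 1 t2 1 t3 w - s) := by
  have e1 := P123_one htr
  obtain ⟨o1, o2, hs⟩ := hs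
  obtain ⟨A, hA, hAZ, hAt⟩ := dom_Z h htr
  obtain ⟨B, hB, hBY, hBt⟩ := hb.hB
  obtain ⟨C, hC, hCR, hCt⟩ := dom_C2 h htr
  have hR0t : X.trace.re ≤ 1 := by rw [htr]; simp
  have ivk : (1 + X - P3 X - P1 X).PosSemidef := by
    have := hb.iv2
    have e : 1 + X - P3 X - P1 X = 1 + X - P3 X - P1 X := by abel
    rw [e]; exact this
  have hAZ' : (A - (P2 (P3 X) + P1 (P2 X) + P1 (P3 X) - (2 : ℂ) • 1)).PosSemidef := by
    have e : P2 (P3 X) + P1 (P2 X) + P1 (P3 X) = P2 (P3 X) + P1 (P3 X) + P1 (P2 X) := by abel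
    rw [e]; exact hAZ
  have hBY' : (B - (P2 X + P3 X + P1 X - 1)).PosSemidef := by
    have e : P2 X + P3 X + P1 X = P1 X + P2 X + P3 X := by abel
    rw [e]; exact hBY
  have q12 : 0 ≤ t1 * t2 := by positivity
  have q13 : 0 ≤ t1 * t3 := by positivity
  have q23 : 0 ≤ t2 * t3 := by positivity
  rcases hs with rfl | rfl | ⟨rfl, hx⟩
  · obtain ⟨R', r1, r2, r3⟩ := abs_c1 (P2 (P3 X)) (P1 (P2 X)) (P1 (P3 X)) (P2 X) (P3 X) (P1 X) X A B t1 t3 t2 h1 o1 o2 (n3_psd h htr) (n2_psd h htr) (n23_psd h htr) ivk h hR0t hA hAZ' hAt hB hBY' hBt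
    refine thr_from_rest a0 b0 g0 t1 t2 t3 _ h1 h2 h3 h htr (0) (0) (0) (t1 + t1 * t3 + t1 * t2) ?_ ?_ ?_ ?_ ?_ ?_ ?_ R' r1 ?_ ?_
    · nlinarith
    · nlinarith
    · nlinarith
    · first | exact le_max_left _ _ | exact le_max_of_le_right (by nlinarith)
    · first | exact le_max_left _ _ | exact le_max_of_le_right (by nlinarith)
    · first | exact le_max_left _ _ | exact le_max_of_le_right (by nlinarith)
    · exact le_max_of_le_right (le_of_eq (by ring))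
    · convert r2 using 2
      ext x y
      simp only [comb, e1, Matrix.sub_apply, Matrix.add_apply, Matrix.smul_apply, smul_eq_mul]
      push_cast
      ring
    · exact r3.trans (le_of_eq (by ring))
  · obtain ⟨R', r1, r2, r3⟩ := abs_c2 (P2 (P3 X)) (P1 (P2 X)) (P1 (P3 X)) (P2 X) (P3 X) (P1 X) X A B t1 t3 t2 h1 o1 o2 (n2_psd h htr) (by have := rr23_psd h htr; rwa [show (1 : Matrix ((α × β) × γ) ((α × β) × γ) ℂ) - P1 (P2 X) - P1 (P3 X) + P1 X = 1 - P1 (P3 X) - P1 (P2 X) + P1 X from by abel]) ivk h hR0t hA hAZ' hAt hB hBY' hBt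
    refine thr_from_rest a0 b0 g0 t1 t2 t3 _ h1 h2 h3 h htr (0) (0) ((t3 - t1) * (1 + t2)) (t1 + t1 * t3 + t1 * t2) ?_ ?_ ?_ ?_ ?_ ?_ ?_ R' r1 ?_ ?_
    · nlinarith
    · nlinarith
    · nlinarith
    · first | exact le_max_left _ _ | exact le_max_of_le_right (by nlinarith)
    · first | exact le_max_left _ _ | exact le_max_of_le_right (by nlinarith)
    · first | exact le_max_left _ _ | exact le_max_of_le_right (by nlinarith)
    · exact le_max_of_le_right (le_of_eq (by ring))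
    · convert r2 using 2
      ext x y
      simp only [comb, e1, Matrix.sub_apply, Matrix.add_apply, Matrix.smul_apply, smul_eq_mul]
      push_cast
      ring
    · exact r3.trans (le_of_eq (by ring))
  · obtain ⟨R', r1, r2, r3⟩ := abs_c3 (P2 (P3 X)) (P1 (P2 X)) (P1 (P3 X)) (P2 X) (P3 X) (P1 X) A B C t1 t3 t2 h1 o1 o2 hx (rr12_psd h htr) (by have := rr23_psd h htr; rwa [show (1 : Matrix ((α × β) × γ) ((α × β) × γ) ℂ) - P1 (P2 X) - P1 (P3 X) + P1 X = 1 - P1 (P3 X) - P1 (P2 X) + P1 X from by abel]) hA hAZ' hAt hB hBY' hBt hC hCR hCt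
    refine thr_from_rest a0 b0 g0 t1 t2 t3 _ h1 h2 h3 h htr ((1 + t1) * (t2 - t3)) (0) ((1 + t3) * (t2 - t1)) (t1 + t3 - t2 + 2 * (t1 * t3)) ?_ ?_ ?_ ?_ ?_ ?_ ?_ R' r1 ?_ ?_
    · nlinarith
    · nlinarith
    · nlinarith
    · first | exact le_max_left _ _ | exact le_max_of_le_right (by nlinarith)
    · first | exact le_max_left _ _ | exact le_max_of_le_right (by nlinarith)
    · first | exact le_max_left _ _ | exact le_max_of_le_right (by nlinarith)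
    · exact le_max_of_le_right (le_of_eq (by ring))
    · convert r2 using 2
      ext x y
      simp only [comb, e1, Matrix.sub_apply, Matrix.add_apply, Matrix.smul_apply, smul_eq_mul]
      push_cast
      ring
    · exact r3.trans (le_of_eq (by ring))

theorem special_213 (a0 : α) (b0 : β) (g0 : γ) (t1 t2 t3 s : ℝ) (h1 : 0 ≤ t1) (h2 : 0 ≤ t2)
    (h3 : 0 ≤ t3) (hs : (t2 ≤ t1 ∧ t1 ≤ t3 ∧ (s = (1 + t1) * (1 + t3) ∨ s = (1 + t2) * (1 + t3) ∨
        (s = (1 + t2) * (1 + t1) ∧ 1 + t3 ≤ (1 + t2) * (1 + t1)))))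
    {X : Matrix ((α × β) × γ) ((α × β) × γ) ℂ} (h : X.PosSemidef) (htr : X.trace = 1)
    (hb : Blocks X) :
    ∃ Y : Matrix ((α × β) × γ) ((α × β) × γ) ℂ, Y.PosSemidef ∧
      (Y - (comb 1 t1 t2 t3 (t1 * t2) (t1 * t3) (t2 * t3) (t1 * t2 * t3) X
        - ((s : ℝ) : ℂ) • (1 : Matrix ((α × β) × γ) ((α × β) × γ) ℂ))).PosSemidef ∧
      Y.trace.re ≤ ∑ w, max 0 (lamv a0 b0 g0 1 t1 1 t2 1 t3 w - s) := by
  have e1 := P123_one htr
  obtain ⟨o1, o2, hs⟩ := hs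
  obtain ⟨A, hA, hAZ, hAt⟩ := dom_Z h htr
  obtain ⟨B, hB, hBY, hBt⟩ := hb.hB
  obtain ⟨C, hC, hCR, hCt⟩ := dom_C3 h htr
  have hR0t : X.trace.re ≤ 1 := by rw [htr]; simp
  have ivk : (1 + X - P1 X - P2 X).PosSemidef := by
    have := hb.iv3
    have e : 1 + X - P1 X - P2 X = 1 + X - P2 X - P1 X := by abel
    rw [e]; exact this
  have hAZ' : (A - (P1 (P3 X) + P2 (P3 X) + P1 (P2 X) - (2 : ℂ) • 1)).PosSemidef := by
    have e : P1 (P3 X) + P2 (P3 X) + P1 (P2 X) = P2 (P3 X) + P1 (P3 X) + P1 (P2 X) := by abel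
    rw [e]; exact hAZ
  have hBY' : (B - (P3 X + P1 X + P2 X - 1)).PosSemidef := by
    have e : P3 X + P1 X + P2 X = P1 X + P2 X + P3 X := by abel
    rw [e]; exact hBY
  have q12 : 0 ≤ t1 * t2 := by positivity
  have q13 : 0 ≤ t1 * t3 := by positivity
  have q23 : 0 ≤ t2 * t3 := by positivity
  rcases hs with rfl | rfl | ⟨rfl, hx⟩
  · obtain ⟨R', r1, r2, r3⟩ := abs_c1 (P1 (P3 X)) (P2 (P3 X)) (P1 (P2 X)) (P3 X) (P1 X) (P2 X) X A B t2 t1 t3 h2 o1 o2 (n1_psd h htr) (n3_psd h htr) (n13_psd h htr) ivk h hR0t hA hAZ' hAt hB hBY' hBt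
    refine thr_from_rest a0 b0 g0 t1 t2 t3 _ h1 h2 h3 h htr (0) (0) (0) (t2 + t2 * t1 + t2 * t3) ?_ ?_ ?_ ?_ ?_ ?_ ?_ R' r1 ?_ ?_
    · nlinarith
    · nlinarith
    · nlinarith
    · first | exact le_max_left _ _ | exact le_max_of_le_right (by nlinarith)
    · first | exact le_max_left _ _ | exact le_max_of_le_right (by nlinarith)
    · first | exact le_max_left _ _ | exact le_max_of_le_right (by nlinarith)
    · exact le_max_of_le_right (le_of_eq (by ring))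
    · convert r2 using 2
      ext x y
      simp only [comb, e1, Matrix.sub_apply, Matrix.add_apply, Matrix.smul_apply, smul_eq_mul]
      push_cast
      ring
    · exact r3.trans (le_of_eq (by ring))
  · obtain ⟨R', r1, r2, r3⟩ := abs_c2 (P1 (P3 X)) (P2 (P3 X)) (P1 (P2 X)) (P3 X) (P1 X) (P2 X) X A B t2 t1 t3 h2 o1 o2 (n3_psd h htr) (rr13_psd h htr) ivk h hR0t hA hAZ' hAt hB hBY' hBt
    refine thr_from_rest a0 b0 g0 t1 t2 t3 _ h1 h2 h3 h htr (0) ((t1 - t2) * (1 + t3)) (0) (t2 + t2 * t1 + t2 * t3) ?_ ?_ ?_ ?_ ?_ ?_ ?_ R' r1 ?_ ?_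
    · nlinarith
    · nlinarith
    · nlinarith
    · first | exact le_max_left _ _ | exact le_max_of_le_right (by nlinarith)
    · first | exact le_max_left _ _ | exact le_max_of_le_right (by nlinarith)
    · first | exact le_max_left _ _ | exact le_max_of_le_right (by nlinarith)
    · exact le_max_of_le_right (le_of_eq (by ring))
    · convert r2 using 2
      ext x y
      simp only [comb, e1, Matrix.sub_apply, Matrix.add_apply, Matrix.smul_apply, smul_eq_mul]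
      push_cast
      ring
    · exact r3.trans (le_of_eq (by ring))
  · obtain ⟨R', r1, r2, r3⟩ := abs_c3 (P1 (P3 X)) (P2 (P3 X)) (P1 (P2 X)) (P3 X) (P1 X) (P2 X) A B C t2 t1 t3 h2 o1 o2 hx (rr23_psd h htr) (rr13_psd h htr) hA hAZ' hAt hB hBY' hBt hC hCR hCt
    refine thr_from_rest a0 b0 g0 t1 t2 t3 _ h1 h2 h3 h htr (0) ((1 + t1) * (t3 - t2)) ((1 + t2) * (t3 - t1)) (t2 + t1 - t3 + 2 * (t2 * t1)) ?_ ?_ ?_ ?_ ?_ ?_ ?_ R' r1 ?_ ?_
    · nlinarith
    · nlinarith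
    · nlinarith
    · first | exact le_max_left _ _ | exact le_max_of_le_right (by nlinarith)
    · first | exact le_max_left _ _ | exact le_max_of_le_right (by nlinarith)
    · first | exact le_max_left _ _ | exact le_max_of_le_right (by nlinarith)
    · exact le_max_of_le_right (le_of_eq (by ring))
    · convert r2 using 2
      ext x y
      simp only [comb, e1, Matrix.sub_apply, Matrix.add_apply, Matrix.smul_apply, smul_eq_mul]
      push_cast
      ring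
    · exact r3.trans (le_of_eq (by ring))

theorem special_231 (a0 : α) (b0 : β) (g0 : γ) (t1 t2 t3 s : ℝ) (h1 : 0 ≤ t1) (h2 : 0 ≤ t2)
    (h3 : 0 ≤ t3) (hs : (t2 ≤ t3 ∧ t3 ≤ t1 ∧ (s = (1 + t3) * (1 + t1) ∨ s = (1 + t2) * (1 + t1) ∨
        (s = (1 + t2) * (1 + t3) ∧ 1 + t1 ≤ (1 + t2) * (1 + t3)))))
    {X : Matrix ((α × β) × γ) ((α × β) × γ) ℂ} (h : X.PosSemidef) (htr : X.trace = 1)
    (hb : Blocks X) :
    ∃ Y : Matrix ((α × β) × γ) ((α × β) × γ) ℂ, Y.PosSemidef ∧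
      (Y - (comb 1 t1 t2 t3 (t1 * t2) (t1 * t3) (t2 * t3) (t1 * t2 * t3) X
        - ((s : ℝ) : ℂ) • (1 : Matrix ((α × β) × γ) ((α × β) × γ) ℂ))).PosSemidef ∧
      Y.trace.re ≤ ∑ w, max 0 (lamv a0 b0 g0 1 t1 1 t2 1 t3 w - s) := by
  have e1 := P123_one htr
  obtain ⟨o1, o2, hs⟩ := hs
  obtain ⟨A, hA, hAZ, hAt⟩ := dom_Z h htr
  obtain ⟨B, hB, hBY, hBt⟩ := hb.hB
  obtain ⟨C, hC, hCR, hCt⟩ := dom_C1 h htr
  have hR0t : X.trace.re ≤ 1 := by rw [htr]; simp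
  have ivk : (1 + X - P3 X - P2 X).PosSemidef := by
    have := hb.iv1
    have e : 1 + X - P3 X - P2 X = 1 + X - P3 X - P2 X := by abel
    rw [e]; exact this
  have hAZ' : (A - (P1 (P3 X) + P1 (P2 X) + P2 (P3 X) - (2 : ℂ) • 1)).PosSemidef := by
    have e : P1 (P3 X) + P1 (P2 X) + P2 (P3 X) = P2 (P3 X) + P1 (P3 X) + P1 (P2 X) := by abel
    rw [e]; exact hAZ
  have hBY' : (B - (P1 X + P3 X + P2 X - 1)).PosSemidef := by
    have e : P1 X + P3 X + P2 X = P1 X + P2 X + P3 X := by abel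
    rw [e]; exact hBY
  have q12 : 0 ≤ t1 * t2 := by positivity
  have q13 : 0 ≤ t1 * t3 := by positivity
  have q23 : 0 ≤ t2 * t3 := by positivity
  rcases hs with rfl | rfl | ⟨rfl, hx⟩
  · obtain ⟨R', r1, r2, r3⟩ := abs_c1 (P1 (P3 X)) (P1 (P2 X)) (P2 (P3 X)) (P1 X) (P3 X) (P2 X) X A B t2 t3 t1 h2 o1 o2 (n3_psd h htr) (n1_psd h htr) (n13_psd h htr) ivk h hR0t hA hAZ' hAt hB hBY' hBt
    refine thr_from_rest a0 b0 g0 t1 t2 t3 _ h1 h2 h3 h htr (0) (0) (0) (t2 + t2 * t3 + t2 * t1) ?_ ?_ ?_ ?_ ?_ ?_ ?_ R' r1 ?_ ?_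
    · nlinarith
    · nlinarith
    · nlinarith
    · first | exact le_max_left _ _ | exact le_max_of_le_right (by nlinarith)
    · first | exact le_max_left _ _ | exact le_max_of_le_right (by nlinarith)
    · first | exact le_max_left _ _ | exact le_max_of_le_right (by nlinarith)
    · exact le_max_of_le_right (le_of_eq (by ring))
    · convert r2 using 2
      ext x y
      simp only [comb, e1, Matrix.sub_apply, Matrix.add_apply, Matrix.smul_apply, smul_eq_mul]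
      push_cast
      ring
    · exact r3.trans (le_of_eq (by ring))
  · obtain ⟨R', r1, r2, r3⟩ := abs_c2 (P1 (P3 X)) (P1 (P2 X)) (P2 (P3 X)) (P1 X) (P3 X) (P2 X) X A B t2 t3 t1 h2 o1 o2 (n1_psd h htr) (by have := rr13_psd h htr; rwa [show (1 : Matrix ((α × β) × γ) ((α × β) × γ) ℂ) - P1 (P2 X) - P2 (P3 X) + P2 X = 1 - P2 (P3 X) - P1 (P2 X) + P2 X from by abel]) ivk h hR0t hA hAZ' hAt hB hBY' hBt
    refine thr_from_rest a0 b0 g0 t1 t2 t3 _ h1 h2 h3 h htr (0) ((t3 - t2) * (1 + t1)) (0) (t2 + t2 * t3 + t2 * t1) ?_ ?_ ?_ ?_ ?_ ?_ ?_ R' r1 ?_ ?_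
    · nlinarith
    · nlinarith
    · nlinarith
    · first | exact le_max_left _ _ | exact le_max_of_le_right (by nlinarith)
    · first | exact le_max_left _ _ | exact le_max_of_le_right (by nlinarith)
    · first | exact le_max_left _ _ | exact le_max_of_le_right (by nlinarith)
    · exact le_max_of_le_right (le_of_eq (by ring))
    · convert r2 using 2
      ext x y
      simp only [comb, e1, Matrix.sub_apply, Matrix.add_apply, Matrix.smul_apply, smul_eq_mul]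
      push_cast
      ring
    · exact r3.trans (le_of_eq (by ring))
  · obtain ⟨R', r1, r2, r3⟩ := abs_c3 (P1 (P3 X)) (P1 (P2 X)) (P2 (P3 X)) (P1 X) (P3 X) (P2 X) A B C t2 t3 t1 h2 o1 o2 hx (by have := rr12_psd h htr; rwa [show (1 : Matrix ((α × β) × γ) ((α × β) × γ) ℂ) - P1 (P3 X) - P2 (P3 X) + P3 X = 1 - P2 (P3 X) - P1 (P3 X) + P3 X from by abel]) (by have := rr13_psd h htr; rwa [show (1 : Matrix ((α × β) × γ) ((α × β) × γ) ℂ) - P1 (P2 X) - P2 (P3 X) + P2 X = 1 - P2 (P3 X) - P1 (P2 X) + P2 X from by abel]) hA hAZ' hAt hB hBY' hBt hC hCR hCt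
    refine thr_from_rest a0 b0 g0 t1 t2 t3 _ h1 h2 h3 h htr ((1 + t2) * (t1 - t3)) ((1 + t3) * (t1 - t2)) (0) (t2 + t3 - t1 + 2 * (t2 * t3)) ?_ ?_ ?_ ?_ ?_ ?_ ?_ R' r1 ?_ ?_
    · nlinarith
    · nlinarith
    · nlinarith
    · first | exact le_max_left _ _ | exact le_max_of_le_right (by nlinarith)
    · first | exact le_max_left _ _ | exact le_max_of_le_right (by nlinarith)
    · first | exact le_max_left _ _ | exact le_max_of_le_right (by nlinarith)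
    · exact le_max_of_le_right (le_of_eq (by ring))
    · convert r2 using 2
      ext x y
      simp only [comb, e1, Matrix.sub_apply, Matrix.add_apply, Matrix.smul_apply, smul_eq_mul]
      push_cast
      ring
    · exact r3.trans (le_of_eq (by ring))

theorem special_312 (a0 : α) (b0 : β) (g0 : γ) (t1 t2 t3 s : ℝ) (h1 : 0 ≤ t1) (h2 : 0 ≤ t2)
    (h3 : 0 ≤ t3) (hs : (t3 ≤ t1 ∧ t1 ≤ t2 ∧ (s = (1 + t1) * (1 + t2) ∨ s = (1 + t3) * (1 + t2) ∨
        (s = (1 + t3) * (1 + t1) ∧ 1 + t2 ≤ (1 + t3) * (1 + t1)))))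
    {X : Matrix ((α × β) × γ) ((α × β) × γ) ℂ} (h : X.PosSemidef) (htr : X.trace = 1)
    (hb : Blocks X) :
    ∃ Y : Matrix ((α × β) × γ) ((α × β) × γ) ℂ, Y.PosSemidef ∧
      (Y - (comb 1 t1 t2 t3 (t1 * t2) (t1 * t3) (t2 * t3) (t1 * t2 * t3) X
        - ((s : ℝ) : ℂ) • (1 : Matrix ((α × β) × γ) ((α × β) × γ) ℂ))).PosSemidef ∧
      Y.trace.re ≤ ∑ w, max 0 (lamv a0 b0 g0 1 t1 1 t2 1 t3 w - s) := by
  have e1 := P123_one htr
  obtain ⟨o1, o2, hs⟩ := hs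
  obtain ⟨A, hA, hAZ, hAt⟩ := dom_Z h htr
  obtain ⟨B, hB, hBY, hBt⟩ := hb.hB
  obtain ⟨C, hC, hCR, hCt⟩ := dom_C2 h htr
  have hR0t : X.trace.re ≤ 1 := by rw [htr]; simp
  have ivk : (1 + X - P1 X - P3 X).PosSemidef := by
    have := hb.iv2
    have e : 1 + X - P1 X - P3 X = 1 + X - P3 X - P1 X := by abel
    rw [e]; exact this
  have hAZ' : (A - (P1 (P2 X) + P2 (P3 X) + P1 (P3 X) - (2 : ℂ) • 1)).PosSemidef := by
    have e : P1 (P2 X) + P2 (P3 X) + P1 (P3 X) = P2 (P3 X) + P1 (P3 X) + P1 (P2 X) := by abel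
    rw [e]; exact hAZ
  have hBY' : (B - (P2 X + P1 X + P3 X - 1)).PosSemidef := by
    have e : P2 X + P1 X + P3 X = P1 X + P2 X + P3 X := by abel
    rw [e]; exact hBY
  have q12 : 0 ≤ t1 * t2 := by positivity
  have q13 : 0 ≤ t1 * t3 := by positivity
  have q23 : 0 ≤ t2 * t3 := by positivity
  rcases hs with rfl | rfl | ⟨rfl, hx⟩
  · obtain ⟨R', r1, r2, r3⟩ := abs_c1 (P1 (P2 X)) (P2 (P3 X)) (P1 (P3 X)) (P2 X) (P1 X) (P3 X) X A B t3 t1 t2 h3 o1 o2 (n1_psd h htr) (n2_psd h htr) (n12_psd h htr) ivk h hR0t hA hAZ' hAt hB hBY' hBt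
    refine thr_from_rest a0 b0 g0 t1 t2 t3 _ h1 h2 h3 h htr (0) (0) (0) (t3 + t3 * t1 + t3 * t2) ?_ ?_ ?_ ?_ ?_ ?_ ?_ R' r1 ?_ ?_
    · nlinarith
    · nlinarith
    · nlinarith
    · first | exact le_max_left _ _ | exact le_max_of_le_right (by nlinarith)
    · first | exact le_max_left _ _ | exact le_max_of_le_right (by nlinarith)
    · first | exact le_max_left _ _ | exact le_max_of_le_right (by nlinarith)
    · exact le_max_of_le_right (le_of_eq (by ring))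
    · convert r2 using 2
      ext x y
      simp only [comb, e1, Matrix.sub_apply, Matrix.add_apply, Matrix.smul_apply, smul_eq_mul]
      push_cast
      ring
    · exact r3.trans (le_of_eq (by ring))
  · obtain ⟨R', r1, r2, r3⟩ := abs_c2 (P1 (P2 X)) (P2 (P3 X)) (P1 (P3 X)) (P2 X) (P1 X) (P3 X) X A B t3 t1 t2 h3 o1 o2 (n2_psd h htr) (rr12_psd h htr) ivk h hR0t hA hAZ' hAt hB hBY' hBt
    refine thr_from_rest a0 b0 g0 t1 t2 t3 _ h1 h2 h3 h htr ((t1 - t3) * (1 + t2)) (0) (0) (t3 + t3 * t1 + t3 * t2) ?_ ?_ ?_ ?_ ?_ ?_ ?_ R' r1 ?_ ?_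
    · nlinarith
    · nlinarith
    · nlinarith
    · first | exact le_max_left _ _ | exact le_max_of_le_right (by nlinarith)
    · first | exact le_max_left _ _ | exact le_max_of_le_right (by nlinarith)
    · first | exact le_max_left _ _ | exact le_max_of_le_right (by nlinarith)
    · exact le_max_of_le_right (le_of_eq (by ring))
    · convert r2 using 2
      ext x y
      simp only [comb, e1, Matrix.sub_apply, Matrix.add_apply, Matrix.smul_apply, smul_eq_mul]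
      push_cast
      ring
    · exact r3.trans (le_of_eq (by ring))
  · obtain ⟨R', r1, r2, r3⟩ := abs_c3 (P1 (P2 X)) (P2 (P3 X)) (P1 (P3 X)) (P2 X) (P1 X) (P3 X) A B C t3 t1 t2 h3 o1 o2 hx (by have := rr23_psd h htr; rwa [show (1 : Matrix ((α × β) × γ) ((α × β) × γ) ℂ) - P1 (P2 X) - P1 (P3 X) + P1 X = 1 - P1 (P3 X) - P1 (P2 X) + P1 X from by abel]) (rr12_psd h htr) hA hAZ' hAt hB hBY' hBt hC hCR hCt
    refine thr_from_rest a0 b0 g0 t1 t2 t3 _ h1 h2 h3 h htr ((1 + t1) * (t2 - t3)) (0) ((1 + t3) * (t2 - t1)) (t3 + t1 - t2 + 2 * (t3 * t1)) ?_ ?_ ?_ ?_ ?_ ?_ ?_ R' r1 ?_ ?_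
    · nlinarith
    · nlinarith
    · nlinarith
    · first | exact le_max_left _ _ | exact le_max_of_le_right (by nlinarith)
    · first | exact le_max_left _ _ | exact le_max_of_le_right (by nlinarith)
    · first | exact le_max_left _ _ | exact le_max_of_le_right (by nlinarith)
    · exact le_max_of_le_right (le_of_eq (by ring))
    · convert r2 using 2
      ext x y
      simp only [comb, e1, Matrix.sub_apply, Matrix.add_apply, Matrix.smul_apply, smul_eq_mul]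
      push_cast
      ring
    · exact r3.trans (le_of_eq (by ring))

theorem special_321 (a0 : α) (b0 : β) (g0 : γ) (t1 t2 t3 s : ℝ) (h1 : 0 ≤ t1) (h2 : 0 ≤ t2)
    (h3 : 0 ≤ t3) (hs : (t3 ≤ t2 ∧ t2 ≤ t1 ∧ (s = (1 + t2) * (1 + t1) ∨ s = (1 + t3) * (1 + t1) ∨
        (s = (1 + t3) * (1 + t2) ∧ 1 + t1 ≤ (1 + t3) * (1 + t2)))))
    {X : Matrix ((α × β) × γ) ((α × β) × γ) ℂ} (h : X.PosSemidef) (htr : X.trace = 1)
    (hb : Blocks X) :
    ∃ Y : Matrix ((α × β) × γ) ((α × β) × γ) ℂ, Y.PosSemidef ∧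
      (Y - (comb 1 t1 t2 t3 (t1 * t2) (t1 * t3) (t2 * t3) (t1 * t2 * t3) X
        - ((s : ℝ) : ℂ) • (1 : Matrix ((α × β) × γ) ((α × β) × γ) ℂ))).PosSemidef ∧
      Y.trace.re ≤ ∑ w, max 0 (lamv a0 b0 g0 1 t1 1 t2 1 t3 w - s) := by
  have e1 := P123_one htr
  obtain ⟨o1, o2, hs⟩ := hs
  obtain ⟨A, hA, hAZ, hAt⟩ := dom_Z h htr
  obtain ⟨B, hB, hBY, hBt⟩ := hb.hB
  obtain ⟨C, hC, hCR, hCt⟩ := dom_C1 h htr
  have hR0t : X.trace.re ≤ 1 := by rw [htr]; simp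
  have ivk : (1 + X - P2 X - P3 X).PosSemidef := by
    have := hb.iv1
    have e : 1 + X - P2 X - P3 X = 1 + X - P3 X - P2 X := by abel
    rw [e]; exact this
  have hAZ' : (A - (P1 (P2 X) + P1 (P3 X) + P2 (P3 X) - (2 : ℂ) • 1)).PosSemidef := by
    have e : P1 (P2 X) + P1 (P3 X) + P2 (P3 X) = P2 (P3 X) + P1 (P3 X) + P1 (P2 X) := by abel
    rw [e]; exact hAZ
  have hBY' : (B - (P1 X + P2 X + P3 X - 1)).PosSemidef := by
    have e : P1 X + P2 X + P3 X = P1 X + P2 X + P3 X := by abel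
    rw [e]; exact hBY
  have q12 : 0 ≤ t1 * t2 := by positivity
  have q13 : 0 ≤ t1 * t3 := by positivity
  have q23 : 0 ≤ t2 * t3 := by positivity
  rcases hs with rfl | rfl | ⟨rfl, hx⟩
  · obtain ⟨R', r1, r2, r3⟩ := abs_c1 (P1 (P2 X)) (P1 (P3 X)) (P2 (P3 X)) (P1 X) (P2 X) (P3 X) X A B t3 t2 t1 h3 o1 o2 (n2_psd h htr) (n1_psd h htr) (n12_psd h htr) ivk h hR0t hA hAZ' hAt hB hBY' hBt
    refine thr_from_rest a0 b0 g0 t1 t2 t3 _ h1 h2 h3 h htr (0) (0) (0) (t3 + t3 * t2 + t3 * t1) ?_ ?_ ?_ ?_ ?_ ?_ ?_ R' r1 ?_ ?_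
    · nlinarith
    · nlinarith
    · nlinarith
    · first | exact le_max_left _ _ | exact le_max_of_le_right (by nlinarith)
    · first | exact le_max_left _ _ | exact le_max_of_le_right (by nlinarith)
    · first | exact le_max_left _ _ | exact le_max_of_le_right (by nlinarith)
    · exact le_max_of_le_right (le_of_eq (by ring))
    · convert r2 using 2
      ext x y
      simp only [comb, e1, Matrix.sub_apply, Matrix.add_apply, Matrix.smul_apply, smul_eq_mul]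
      push_cast
      ring
    · exact r3.trans (le_of_eq (by ring))
  · obtain ⟨R', r1, r2, r3⟩ := abs_c2 (P1 (P2 X)) (P1 (P3 X)) (P2 (P3 X)) (P1 X) (P2 X) (P3 X) X A B t3 t2 t1 h3 o1 o2 (n1_psd h htr) (by have := rr12_psd h htr; rwa [show (1 : Matrix ((α × β) × γ) ((α × β) × γ) ℂ) - P1 (P3 X) - P2 (P3 X) + P3 X = 1 - P2 (P3 X) - P1 (P3 X) + P3 X from by abel]) ivk h hR0t hA hAZ' hAt hB hBY' hBt
    refine thr_from_rest a0 b0 g0 t1 t2 t3 _ h1 h2 h3 h htr ((t2 - t3) * (1 + t1)) (0) (0) (t3 + t3 * t2 + t3 * t1) ?_ ?_ ?_ ?_ ?_ ?_ ?_ R' r1 ?_ ?_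
    · nlinarith
    · nlinarith
    · nlinarith
    · first | exact le_max_left _ _ | exact le_max_of_le_right (by nlinarith)
    · first | exact le_max_left _ _ | exact le_max_of_le_right (by nlinarith)
    · first | exact le_max_left _ _ | exact le_max_of_le_right (by nlinarith)
    · exact le_max_of_le_right (le_of_eq (by ring))
    · convert r2 using 2
      ext x y
      simp only [comb, e1, Matrix.sub_apply, Matrix.add_apply, Matrix.smul_apply, smul_eq_mul]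
      push_cast
      ring
    · exact r3.trans (le_of_eq (by ring))
  · obtain ⟨R', r1, r2, r3⟩ := abs_c3 (P1 (P2 X)) (P1 (P3 X)) (P2 (P3 X)) (P1 X) (P2 X) (P3 X) A B C t3 t2 t1 h3 o1 o2 hx (by have := rr13_psd h htr; rwa [show (1 : Matrix ((α × β) × γ) ((α × β) × γ) ℂ) - P1 (P2 X) - P2 (P3 X) + P2 X = 1 - P2 (P3 X) - P1 (P2 X) + P2 X from by abel]) (by have := rr12_psd h htr; rwa [show (1 : Matrix ((α × β) × γ) ((α × β) × γ) ℂ) - P1 (P3 X) - P2 (P3 X) + P3 X = 1 - P2 (P3 X) - P1 (P3 X) + P3 X from by abel]) hA hAZ' hAt hB hBY' hBt hC hCR hCt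
    refine thr_from_rest a0 b0 g0 t1 t2 t3 _ h1 h2 h3 h htr ((1 + t2) * (t1 - t3)) ((1 + t3) * (t1 - t2)) (0) (t3 + t2 - t1 + 2 * (t3 * t2)) ?_ ?_ ?_ ?_ ?_ ?_ ?_ R' r1 ?_ ?_
    · nlinarith
    · nlinarith
    · nlinarith
    · first | exact le_max_left _ _ | exact le_max_of_le_right (by nlinarith)
    · first | exact le_max_left _ _ | exact le_max_of_le_right (by nlinarith)
    · first | exact le_max_left _ _ | exact le_max_of_le_right (by nlinarith)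
    · exact le_max_of_le_right (le_of_eq (by ring))
    · convert r2 using 2
      ext x y
      simp only [comb, e1, Matrix.sub_apply, Matrix.add_apply, Matrix.smul_apply, smul_eq_mul]
      push_cast
      ring
    · exact r3.trans (le_of_eq (by ring))

end special
end Helper611.Dep
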