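import Pool.Agent.Helper611.Dep.Main
import Pool.Agent.Helper611.Dep.Special
import Pool.Agent.Helper611.Dep.Qubit
import Pool.Agent.Helper611.Dep.K9

open scoped BigOperators Kronecker ComplexOrder
open Matrix

namespace Helper611.Dep

theorem blocks_qubit {X : Matrix Q3 Q3 ℂ} (h : X.PosSemidef) (htr : X.trace = 1) : Blocks X where
  hB := iii_mixed h htr
  iv1 := iv1_qubit h htr
  iv2 := iv2_qubit h htr
  iv3 := iv3_qubit h htr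

section main3
variable {α β γ : Type} [Fintype α] [Fintype β] [Fintype γ]
  [DecidableEq α] [DecidableEq β] [DecidableEq γ]

theorem thr_blocks (a0 : α) (b0 : β) (g0 : γ) (t1 t2 t3 : ℝ) (h1 : 0 ≤ t1) (h2 : 0 ≤ t2)
    (h3 : 0 ≤ t3)
    {X : Matrix ((α × β) × γ) ((α × β) × γ) ℂ} (h : X.PosSemidef) (htr : X.trace = 1)
    (hb : Blocks X) (z : (α × β) × γ) :
    ∃ Y : Matrix ((α × β) × γ) ((α × β) × γ) ℂ, Y.PosSemidef ∧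
      (Y - (comb 1 t1 t2 t3 (t1 * t2) (t1 * t3) (t2 * t3) (t1 * t2 * t3) X
        - ((lamv a0 b0 g0 1 t1 1 t2 1 t3 z : ℝ) : ℂ) •
          (1 : Matrix ((α × β) × γ) ((α × β) × γ) ℂ))).PosSemidef ∧
      Y.trace.re ≤ ∑ w, max 0 (lamv a0 b0 g0 1 t1 1 t2 1 t3 w - lamv a0 b0 g0 1 t1 1 t2 1 t3 z) := by
  have hs : ∀ s, s = lamv a0 b0 g0 1 t1 1 t2 1 t3 z →
      (s = 1 ∨ s = 1 + t1 ∨ s = 1 + t2 ∨ s = 1 + t3 ∨ s = (1 + t1) * (1 + t2) ∨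
      s = (1 + t1) * (1 + t3) ∨ s = (1 + t2) * (1 + t3) ∨ s = (1 + t1) * (1 + t2) * (1 + t3)) := by
    intro s hs
    unfold lamv at hs
    by_cases c1 : z.1.1 = a0 <;> by_cases c2 : z.1.2 = b0 <;> by_cases c3 : z.2 = g0 <;>
      simp only [c1, c2, c3, if_true, if_false, one_mul, mul_one] at hs <;> simp [hs]
  generalize hsz : lamv a0 b0 g0 1 t1 1 t2 1 t3 z = s
  rcases scalar_SL3 t1 t2 t3 s h1 h2 h3 (hs s hsz.symm) with ha | ⟨hb1, hb2⟩ | hc | hc | hc | hc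
    | hc | hc
  · exact thr_a a0 b0 g0 t1 t2 t3 s h1 h2 h3 ha h htr
  · exact thr_b a0 b0 g0 t1 t2 t3 s h1 h2 h3 hb1 hb2 h htr
  · exact special_123 a0 b0 g0 t1 t2 t3 s h1 h2 h3 hc h htr hb
  · exact special_132 a0 b0 g0 t1 t2 t3 s h1 h2 h3 hc h htr hb
  · exact special_213 a0 b0 g0 t1 t2 t3 s h1 h2 h3 hc h htr hb
  · exact special_231 a0 b0 g0 t1 t2 t3 s h1 h2 h3 hc h htr hb
  · exact special_312 a0 b0 g0 t1 t2 t3 s h1 h2 h3 hc h htr hb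
  · exact special_321 a0 b0 g0 t1 t2 t3 s h1 h2 h3 hc h htr hb

theorem norm_bound_t' (N : Matrix ((α × β) × γ) ((α × β) × γ) ℂ → ℝ) (hN : IsUINorm N)
    (a0 : α) (b0 : β) (g0 : γ) (t1 t2 t3 : ℝ) (h1 : 0 ≤ t1) (h2 : 0 ≤ t2)
    (h3 : 0 ≤ t3)
    {X : Matrix ((α × β) × γ) ((α × β) × γ) ℂ} (h : X.PosSemidef) (htr : X.trace = 1)
    (hb : Blocks X) :
    N (comb 1 t1 t2 t3 (t1 * t2) (t1 * t3) (t2 * t3) (t1 * t2 * t3) X) ≤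
      N (Matrix.diagonal (fun z => ((lamv a0 b0 g0 1 t1 1 t2 1 t3 z : ℝ) : ℂ))) := by
  have hH : (comb 1 t1 t2 t3 (t1 * t2) (t1 * t3) (t2 * t3) (t1 * t2 * t3) X).IsHermitian :=
    (comb_psd_cp h _ _ _ _ _ _ _ _ zero_le_one h1 h2 h3 (by positivity) (by positivity)
      (by positivity) (by positivity)).isHermitian
  refine norm_le_of_trace N hN _ hH _ ?_
  intro K hK
  refine trace_le_of_thresholds _ hH _ ?_ (thr_blocks a0 b0 g0 t1 t2 t3 h1 h2 h3 h htr hb) K hK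
  rw [trace_comb_re a0 b0 g0 _ _ _ _ _ _ _ _ htr]
  exact Finset.sum_congr rfl fun z _ => (lamv_eq_pv a0 b0 g0 t1 t2 t3 z).symm

theorem norm_bound_ab' (N : Matrix ((α × β) × γ) ((α × β) × γ) ℂ → ℝ) (hN : IsUINorm N)
    (a0 : α) (b0 : β) (g0 : γ) (a1 b1 a2 b2 a3 b3 : ℝ) (ha1 : 0 < a1) (ha2 : 0 < a2)
    (ha3 : 0 < a3) (h1 : 0 ≤ b1) (h2 : 0 ≤ b2) (h3 : 0 ≤ b3)
    {X : Matrix ((α × β) × γ) ((α × β) × γ) ℂ} (h : X.PosSemidef) (htr : X.trace = 1)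
    (hb : Blocks X) :
    N (comb (a1 * a2 * a3) (b1 * a2 * a3) (a1 * b2 * a3) (a1 * a2 * b3)
        (b1 * b2 * a3) (b1 * a2 * b3) (a1 * b2 * b3) (b1 * b2 * b3) X) ≤
      N (Matrix.diagonal (fun z => ((lamv a0 b0 g0 a1 b1 a2 b2 a3 b3 z : ℝ) : ℂ))) := by
  obtain ⟨t1, rfl⟩ : ∃ t, b1 = a1 * t := ⟨b1 / a1, by field_simp⟩
  obtain ⟨t2, rfl⟩ : ∃ t, b2 = a2 * t := ⟨b2 / a2, by field_simp⟩
  obtain ⟨t3, rfl⟩ : ∃ t, b3 = a3 * t := ⟨b3 / a3, by field_simp⟩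
  have g1 : 0 ≤ t1 := nonneg_of_mul_nonneg_right h1 ha1
  have g2 : 0 ≤ t2 := nonneg_of_mul_nonneg_right h2 ha2
  have g3 : 0 ≤ t3 := nonneg_of_mul_nonneg_right h3 ha3
  have e1 : comb (a1 * a2 * a3) (a1 * t1 * a2 * a3) (a1 * (a2 * t2) * a3) (a1 * a2 * (a3 * t3))
        (a1 * t1 * (a2 * t2) * a3) (a1 * t1 * a2 * (a3 * t3)) (a1 * (a2 * t2) * (a3 * t3))
        (a1 * t1 * (a2 * t2) * (a3 * t3)) X =
      ((a1 * a2 * a3 : ℝ) : ℂ) •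
        comb 1 t1 t2 t3 (t1 * t2) (t1 * t3) (t2 * t3) (t1 * t2 * t3) X := by
    ext x y
    simp only [comb, Matrix.add_apply, Matrix.smul_apply, smul_eq_mul]
    push_cast
    ring
  have e2 : (Matrix.diagonal (fun z => ((lamv a0 b0 g0 a1 (a1 * t1) a2 (a2 * t2) a3 (a3 * t3) z : ℝ) : ℂ)) :
      Matrix ((α × β) × γ) ((α × β) × γ) ℂ) =
      ((a1 * a2 * a3 : ℝ) : ℂ) •
        Matrix.diagonal (fun z => ((lamv a0 b0 g0 1 t1 1 t2 1 t3 z : ℝ) : ℂ)) := by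
    ext x y
    by_cases hxy : x = y
    · subst hxy
      simp only [Matrix.diagonal_apply_eq, Matrix.smul_apply, smul_eq_mul]
      rw [← Complex.ofReal_mul]
      congr 1
      unfold lamv
      split_ifs <;> ring
    · simp [hxy, Matrix.diagonal_apply_ne]
  rw [e1, e2, hN.smul, hN.smul]
  exact mul_le_mul_of_nonneg_left
    (norm_bound_t' N hN a0 b0 g0 t1 t2 t3 g1 g2 g3 h htr hb) (norm_nonneg _)

/-- the bound for three factors for any state having the building blocks -/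
theorem T3' (N : Matrix ((α × β) × γ) ((α × β) × γ) ℂ → ℝ) (hN : IsUINorm N)
    (ρ : Matrix ((α × β) × γ) ((α × β) × γ) ℂ) (hρ : IsState ρ) (hb : Blocks ρ)
    (ψ1 : α → ℂ) (ψ2 : β → ℂ) (ψ3 : γ → ℂ) (u1 : IsUnitVec ψ1) (u2 : IsUnitVec ψ2)
    (u3 : IsUnitVec ψ3)
    (q1 q2 q3 : ℝ) (hq1 : 0 ≤ q1) (hq1' : q1 ≤ 1) (hq2 : 0 ≤ q2) (hq2' : q2 ≤ 1)
    (hq3 : 0 ≤ q3) (hq3' : q3 ≤ 1) :
    N (tensorMap (tensorMap (depol q1) (depol q2)) (depol q3) ρ) ≤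
      N (tensorMap (tensorMap (depol q1) (depol q2)) (depol q3)
        ((pureSt ψ1 ⊗ₖ pureSt ψ2) ⊗ₖ pureSt ψ3)) := by
  obtain ⟨a0⟩ := card_pos_of_unit ψ1 u1
  obtain ⟨b0⟩ := card_pos_of_unit ψ2 u2
  obtain ⟨g0⟩ := card_pos_of_unit ψ3 u3
  have ca : 0 < (Fintype.card α : ℝ) := by
    exact_mod_cast Fintype.card_pos_iff.mpr ⟨a0⟩
  have cb : 0 < (Fintype.card β : ℝ) := by
    exact_mod_cast Fintype.card_pos_iff.mpr ⟨b0⟩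
  have cg : 0 < (Fintype.card γ : ℝ) := by
    exact_mod_cast Fintype.card_pos_iff.mpr ⟨g0⟩
  refine closure_q N hN ρ _ q1 q2 q3 ?_
  intro ε hε hε1
  have key : ∀ (q c : ℝ), 0 ≤ q → q ≤ 1 → 0 < c →
      0 ≤ (1 - ε) * q ∧ 0 < (1 - (1 - ε) * q) / c := by
    intro q c hq hq' hc
    have e1 : 0 ≤ (1 - ε) * q := mul_nonneg (by linarith) hq
    have e3 : (1 - ε) * q < 1 := by nlinarith
    exact ⟨e1, div_pos (by linarith) hc⟩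
  obtain ⟨k1, k1'⟩ := key q1 _ hq1 hq1' ca
  obtain ⟨k2, k2'⟩ := key q2 _ hq2 hq2' cb
  obtain ⟨k3, k3'⟩ := key q3 _ hq3 hq3' cg
  obtain ⟨V, hV, hVeq⟩ := prod_out a0 b0 g0 ((1 - ε) * q1) ((1 - ε) * q2) ((1 - ε) * q3)
    ψ1 ψ2 ψ3 u1 u2 u3
  rw [hVeq, hN.unitary V Vᴴ _ hV
    (by
      have := Unitary.star_mem hV
      simpa [Matrix.star_eq_conjTranspose] using this)]
  rw [tensorMap_eq_comb ((1 - ε) * q1) ((1 - ε) * q2) ((1 - ε) * q3) ρ _ _ _ rfl rfl rfl]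
  exact norm_bound_ab' N hN a0 b0 g0 _ _ _ _ _ _ k1' k2' k3' k1 k2 k3 hρ.1 hρ.2 hb

end main3

end Helper611.Dep
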