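import Pool.Agent.Helper611.Dep.J1
import Pool.Agent.Helper611.Dep.J2c
import Pool.Agent.Helper611.Dep.J3
import Pool.Agent.Helper611.Dep.J3b
import Pool.Agent.Helper611.Dep.J4
import Pool.Agent.Helper611.Dep.J9

open scoped BigOperators Kronecker ComplexOrder
open Matrix

namespace Helper611.Dep

section asm
variable {α β γ : Type} [Fintype α] [Fintype β] [Fintype γ]
  [DecidableEq α] [DecidableEq β] [DecidableEq γ]

theorem comb_psd_cp {X : Matrix ((α × β) × γ) ((α × β) × γ) ℂ} (h : X.PosSemidef)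
    (c0 c1 c2 c3 c12 c13 c23 c123 : ℝ) (h0 : 0 ≤ c0) (h1 : 0 ≤ c1) (h2 : 0 ≤ c2) (h3 : 0 ≤ c3)
    (h12 : 0 ≤ c12) (h13 : 0 ≤ c13) (h23 : 0 ≤ c23) (h123 : 0 ≤ c123) :
    (comb c0 c1 c2 c3 c12 c13 c23 c123 X).PosSemidef := by
  have sm : ∀ (c : ℝ) (M : Matrix ((α × β) × γ) ((α × β) × γ) ℂ), 0 ≤ c → M.PosSemidef →
      ((c : ℂ) • M).PosSemidef := by
    intro c M hc hM
    exact hM.smul (by exact_mod_cast hc)
  unfold comb
  refine (((((((sm _ _ h0 ?_).add (sm _ _ h1 ?_)).add (sm _ _ h2 ?_)).add (sm _ _ h3 ?_)).add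
    (sm _ _ h12 ?_)).add (sm _ _ h13 ?_)).add (sm _ _ h23 ?_)).add (sm _ _ h123 ?_)
  · exact P1_psd (P2_psd (P3_psd h))
  · exact P2_psd (P3_psd h)
  · exact P1_psd (P3_psd h)
  · exact P1_psd (P2_psd h)
  · exact P3_psd h
  · exact P2_psd h
  · exact P1_psd h
  · exact h

theorem P123_one {X : Matrix ((α × β) × γ) ((α × β) × γ) ℂ} (htr : X.trace = 1) :
    P1 (P2 (P3 X)) = 1 := by
  ext x y
  have hx : (∑ a : α, ∑ b : β, ∑ c : γ, X ((a, b), c) ((a, b), c)) = 1 := by
    rw [← htr, Matrix.trace, Fintype.sum_prod_type, Fintype.sum_prod_type]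
    rfl
  simp only [P1, P2, P3, Matrix.of_apply, Matrix.one_apply]
  by_cases h1 : x.1.1 = y.1.1
  · by_cases h2 : x.1.2 = y.1.2
    · by_cases h3 : x.2 = y.2
      · have : x = y := Prod.ext (Prod.ext h1 h2) h3
        simp [this, hx]
      · have : x ≠ y := fun h => h3 (by rw [h])
        simp [h3, this]
    · have : x ≠ y := fun h => h2 (by rw [h])
      simp [h2, this]
  · have : x ≠ y := fun h => h1 (by rw [h])
    simp [h1, this]

theorem comb_sub_one {X : Matrix ((α × β) × γ) ((α × β) × γ) ℂ} (htr : X.trace = 1)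
    (c0 c1 c2 c3 c12 c13 c23 c123 d0 d1 d2 d3 d12 d13 d23 d123 s : ℝ) :
    comb c0 c1 c2 c3 c12 c13 c23 c123 X - (comb d0 d1 d2 d3 d12 d13 d23 d123 X - (s : ℂ) • 1) =
    comb (c0 - d0 + s) (c1 - d1) (c2 - d2) (c3 - d3) (c12 - d12) (c13 - d13) (c23 - d23)
      (c123 - d123) X := by
  have h1 := P123_one htr
  ext x y
  simp only [comb, h1, Matrix.sub_apply, Matrix.add_apply, Matrix.smul_apply, smul_eq_mul]
  push_cast
  ring

/-- the pattern value of a family of coefficients -/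
noncomputable def pv (a0 : α) (b0 : β) (g0 : γ) (c0 c1 c2 c3 c12 c13 c23 c123 : ℝ)
    (z : (α × β) × γ) : ℝ :=
  (c0 + (if z.1.1 = a0 then c1 else 0) + (if z.1.2 = b0 then c2 else 0)
        + (if z.2 = g0 then c3 else 0)
        + (if z.1.1 = a0 then (if z.1.2 = b0 then c12 else 0) else 0)
        + (if z.1.1 = a0 then (if z.2 = g0 then c13 else 0) else 0)
        + (if z.1.2 = b0 then (if z.2 = g0 then c23 else 0) else 0)
        + (if z.1.1 = a0 then (if z.1.2 = b0 then (if z.2 = g0 then c123 else 0) else 0) else 0))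

theorem trace_comb_re (a0 : α) (b0 : β) (g0 : γ) (c0 c1 c2 c3 c12 c13 c23 c123 : ℝ)
    {X : Matrix ((α × β) × γ) ((α × β) × γ) ℂ} (htr : X.trace = 1) :
    (comb c0 c1 c2 c3 c12 c13 c23 c123 X).trace.re =
      ∑ z : (α × β) × γ, pv a0 b0 g0 c0 c1 c2 c3 c12 c13 c23 c123 z := by
  rw [trace_comb a0 b0 g0 c0 c1 c2 c3 c12 c13 c23 c123 htr, Complex.ofReal_re]
  rfl

omit [Fintype α] [Fintype β] [Fintype γ] in
/-- normalized eigenvalues -/
theorem lamv_eq_pv (a0 : α) (b0 : β) (g0 : γ) (t1 t2 t3 : ℝ) (z : (α × β) × γ) :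
    lamv a0 b0 g0 1 t1 1 t2 1 t3 z =
      pv a0 b0 g0 1 t1 t2 t3 (t1 * t2) (t1 * t3) (t2 * t3) (t1 * t2 * t3) z := by
  unfold lamv pv
  split_ifs <;> ring

theorem thr_a (a0 : α) (b0 : β) (g0 : γ) (t1 t2 t3 s : ℝ) (h1 : 0 ≤ t1) (h2 : 0 ≤ t2)
    (h3 : 0 ≤ t3) (hs : s ≤ 1 + t1 + t2 ∧ s ≤ 1 + t1 + t3 ∧ s ≤ 1 + t2 + t3)
    {X : Matrix ((α × β) × γ) ((α × β) × γ) ℂ} (h : X.PosSemidef) (htr : X.trace = 1) :
    ∃ Y : Matrix ((α × β) × γ) ((α × β) × γ) ℂ, Y.PosSemidef ∧
      (Y - (comb 1 t1 t2 t3 (t1 * t2) (t1 * t3) (t2 * t3) (t1 * t2 * t3) X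
        - ((s : ℝ) : ℂ) • (1 : Matrix ((α × β) × γ) ((α × β) × γ) ℂ))).PosSemidef ∧
      Y.trace.re ≤ ∑ w, max 0 (lamv a0 b0 g0 1 t1 1 t2 1 t3 w - s) := by
  obtain ⟨W, hW, p, q, r, hp, hq, hr, hp1, hq1, hr1, e0, e1, e2, e3⟩ := marginals_diag h htr
  have hWW : W * Wᴴ = 1 := by
    have := (Matrix.mem_unitaryGroup_iff.mp hW); simpa [Matrix.star_eq_conjTranspose] using this
  set l : (α × β) × γ → ℝ := fun z => 1 + t1 * p z.1.1 + t2 * q z.1.2 + t3 * r z.2 with hl
  set Z : Matrix ((α × β) × γ) ((α × β) × γ) ℂ :=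
    W * Matrix.diagonal (fun z => ((max 0 (s - l z) : ℝ) : ℂ)) * Wᴴ with hZ
  have diagpsd : ∀ f : (α × β) × γ → ℝ, (∀ z, 0 ≤ f z) →
      (W * Matrix.diagonal (fun z => ((f z : ℝ) : ℂ)) * Wᴴ).PosSemidef := by
    intro f hf
    refine Matrix.PosSemidef.mul_mul_conjTranspose_same ?_ W
    exact Matrix.PosSemidef.diagonal (fun z => by simpa using hf z)
  have hZpsd : Z.PosSemidef := diagpsd _ (fun z => le_max_left _ _)
  have hLdiag : comb 1 t1 t2 t3 0 0 0 0 X = W * Matrix.diagonal (fun z => ((l z : ℝ) : ℂ)) * Wᴴ := by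
    have hd : (Matrix.diagonal (fun z => ((l z : ℝ) : ℂ)) : Matrix ((α × β) × γ) ((α × β) × γ) ℂ)
        = 1 + (t1 : ℂ) • Matrix.diagonal (fun z => ((p z.1.1 : ℝ) : ℂ))
          + (t2 : ℂ) • Matrix.diagonal (fun z => ((q z.1.2 : ℝ) : ℂ))
          + (t3 : ℂ) • Matrix.diagonal (fun z => ((r z.2 : ℝ) : ℂ)) := by
      ext x y
      by_cases hxy : x = y
      · subst hxy
        simp [hl]
      · simp [hxy, Matrix.diagonal_apply_ne]
    rw [hd]
    unfold comb
    rw [e0, e1, e2, e3]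
    simp only [Matrix.mul_add, Matrix.add_mul, Matrix.mul_one,
      Matrix.mul_smul, Matrix.smul_mul, hWW]
    simp
  -- Z - (s - L) PSD
  have hZL : (Z - ((s : ℂ) • 1 - comb 1 t1 t2 t3 0 0 0 0 X)).PosSemidef := by
    have : Z - ((s : ℂ) • 1 - comb 1 t1 t2 t3 0 0 0 0 X) =
        W * Matrix.diagonal (fun z => ((max 0 (s - l z) - (s - l z) : ℝ) : ℂ)) * Wᴴ := by
      rw [hLdiag, hZ]
      have hd : (Matrix.diagonal (fun z => ((max 0 (s - l z) - (s - l z) : ℝ) : ℂ)) :
          Matrix ((α × β) × γ) ((α × β) × γ) ℂ) =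
          Matrix.diagonal (fun z => ((max 0 (s - l z) : ℝ) : ℂ)) - (s : ℂ) • 1
            + Matrix.diagonal (fun z => ((l z : ℝ) : ℂ)) := by
        ext x y
        by_cases hxy : x = y
        · subst hxy
          simp only [Matrix.diagonal_apply_eq, Matrix.add_apply, Matrix.sub_apply,
            Matrix.smul_apply, Matrix.one_apply_eq, smul_eq_mul, mul_one]
          push_cast
          ring
        · simp [hxy, Matrix.diagonal_apply_ne]
      rw [hd, Matrix.mul_add, Matrix.mul_sub, Matrix.add_mul, Matrix.sub_mul, Matrix.mul_smul,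
        Matrix.smul_mul, Matrix.mul_one, hWW]
      abel
    rw [this]
    exact diagpsd _ (fun z => by
      have := le_max_right 0 (s - l z)
      linarith)
  have hXL : (comb 0 0 0 0 (t1 * t2) (t1 * t3) (t2 * t3) (t1 * t2 * t3) X).PosSemidef :=
    comb_psd_cp h _ _ _ _ _ _ _ _ le_rfl le_rfl le_rfl le_rfl (by positivity) (by positivity)
      (by positivity) (by positivity)
  have hsplit : comb 1 t1 t2 t3 (t1 * t2) (t1 * t3) (t2 * t3) (t1 * t2 * t3) X =
      comb 1 t1 t2 t3 0 0 0 0 X + comb 0 0 0 0 (t1 * t2) (t1 * t3) (t2 * t3) (t1 * t2 * t3) X := by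
    simp only [comb]
    simp
    abel
  refine ⟨comb 1 t1 t2 t3 (t1 * t2) (t1 * t3) (t2 * t3) (t1 * t2 * t3) X
        - ((s : ℝ) : ℂ) • (1 : Matrix ((α × β) × γ) ((α × β) × γ) ℂ) + Z, ?_, ?_, ?_⟩
  · have : comb 1 t1 t2 t3 (t1 * t2) (t1 * t3) (t2 * t3) (t1 * t2 * t3) X
        - ((s : ℝ) : ℂ) • (1 : Matrix ((α × β) × γ) ((α × β) × γ) ℂ) + Z =
        (Z - ((s : ℂ) • 1 - comb 1 t1 t2 t3 0 0 0 0 X))
          + comb 0 0 0 0 (t1 * t2) (t1 * t3) (t2 * t3) (t1 * t2 * t3) X := by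
      rw [hsplit]; abel
    rw [this]
    exact hZL.add hXL
  · have : comb 1 t1 t2 t3 (t1 * t2) (t1 * t3) (t2 * t3) (t1 * t2 * t3) X
        - ((s : ℝ) : ℂ) • (1 : Matrix ((α × β) × γ) ((α × β) × γ) ℂ) + Z
        - (comb 1 t1 t2 t3 (t1 * t2) (t1 * t3) (t2 * t3) (t1 * t2 * t3) X
        - ((s : ℝ) : ℂ) • (1 : Matrix ((α × β) × γ) ((α × β) × γ) ℂ)) = Z := by abel
    rw [this]
    exact hZpsd
  · have hZtr : Z.trace.re = ∑ z, max 0 (s - l z) := by
      have : Z.trace = ∑ z, ((max 0 (s - l z) : ℝ) : ℂ) := by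
        rw [hZ, Matrix.trace_mul_cycle, ← Matrix.star_eq_conjTranspose]
        have hW2 : star W * W = 1 := Matrix.mem_unitaryGroup_iff'.mp hW
        rw [hW2, Matrix.one_mul, Matrix.trace_diagonal]
      rw [this, ← Complex.ofReal_sum, Complex.ofReal_re]
    have hXtr := trace_comb_re a0 b0 g0 1 t1 t2 t3 (t1 * t2) (t1 * t3) (t2 * t3) (t1 * t2 * t3) htr
    have hone : ((((s : ℝ) : ℂ) • (1 : Matrix ((α × β) × γ) ((α × β) × γ) ℂ)).trace).re
        = ∑ _z : (α × β) × γ, s := by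
      rw [Matrix.trace_smul, Matrix.trace_one]
      simp [mul_comm]
    rw [Matrix.trace_add, Matrix.trace_sub, Complex.add_re, Complex.sub_re, hXtr, hone, hZtr]
    have hJ := commuting_scalar a0 b0 g0 t1 t2 t3 s p q r hp hq hr hp1 hq1 hr1
    have hJ' : ∑ z, max 0 (s - l z) ≤ ∑ z : (α × β) × γ,
        max 0 (s - (1 + (if z.1.1 = a0 then t1 else 0)
      + (if z.1.2 = b0 then t2 else 0) + (if z.2 = g0 then t3 else 0))) := by
      refine le_trans (le_of_eq ?_) hJ
      rfl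
    have hfin : ∑ z : (α × β) × γ,
        max 0 (s - (1 + (if z.1.1 = a0 then t1 else 0)
      + (if z.1.2 = b0 then t2 else 0) + (if z.2 = g0 then t3 else 0))) ≤
        ∑ z : (α × β) × γ, (max 0 (lamv a0 b0 g0 1 t1 1 t2 1 t3 z - s)
          - (pv a0 b0 g0 1 t1 t2 t3 (t1 * t2) (t1 * t3) (t2 * t3) (t1 * t2 * t3) z - s)) := by
      refine Finset.sum_le_sum fun z _ => ?_
      rw [lamv_eq_pv]
      have h12 : 0 ≤ t1 * t2 := by positivity
      have h13 : 0 ≤ t1 * t3 := by positivity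
      have h23 : 0 ≤ t2 * t3 := by positivity
      have h123 : 0 ≤ t1 * t2 * t3 := by positivity
      obtain ⟨s1, s2, s3⟩ := hs
      have key : ∀ v V : ℝ, (V = v ∨ (s ≤ v ∧ s ≤ V)) → max 0 (s - v) ≤ max 0 (V - s) - (V - s) := by
        intro v V hv
        rcases hv with rfl | ⟨hv1, hv2⟩
        · rcases le_total s V with hh | hh
          · rw [max_eq_left (by linarith), max_eq_right (by linarith)]; linarith
          · rw [max_eq_right (by linarith), max_eq_left (by linarith)]; linarith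
        · rw [max_eq_left (by linarith), max_eq_right (by linarith)]; linarith
      apply key
      unfold pv
      by_cases c1 : z.1.1 = a0 <;> by_cases c2 : z.1.2 = b0 <;> by_cases c3 : z.2 = g0 <;>
        simp only [c1, c2, c3, if_true, if_false]
      · right; constructor <;> linarith
      · right; constructor <;> linarith
      · right; constructor <;> linarith
      · left; ring
      · right; constructor <;> linarith
      · left; ring
      · left; ring
      · left; ring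
    have h4 := hJ'.trans hfin
    rw [Finset.sum_sub_distrib, Finset.sum_sub_distrib] at h4
    linarith

set_option maxHeartbeats 4000000 in
theorem thr_b (a0 : α) (b0 : β) (g0 : γ) (t1 t2 t3 s : ℝ) (h1 : 0 ≤ t1) (h2 : 0 ≤ t2)
    (h3 : 0 ≤ t3)
    (hy : 0 ≤ max 0 ((1 + t1) * (1 + t2) * (1 + t3) - s) - max 0 ((1 + t1) * (1 + t2) - s)
        - max 0 ((1 + t1) * (1 + t3) - s) - max 0 ((1 + t2) * (1 + t3) - s)
        + max 0 (1 + t1 - s) + max 0 (1 + t2 - s) + max 0 (1 + t3 - s) - max 0 (1 - s))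
    (hz : 0 ≤ 8 * max 0 (s - 1) - 4 * (max 0 (s - (1 + t1)) + max 0 (s - (1 + t2)) + max 0 (s - (1 + t3)))
        + 2 * (max 0 (s - (1 + t1) * (1 + t2)) + max 0 (s - (1 + t1) * (1 + t3))
          + max 0 (s - (1 + t2) * (1 + t3))) - max 0 (s - (1 + t1) * (1 + t2) * (1 + t3)))
    {X : Matrix ((α × β) × γ) ((α × β) × γ) ℂ} (h : X.PosSemidef) (htr : X.trace = 1) :
    ∃ Y : Matrix ((α × β) × γ) ((α × β) × γ) ℂ, Y.PosSemidef ∧
      (Y - (comb 1 t1 t2 t3 (t1 * t2) (t1 * t3) (t2 * t3) (t1 * t2 * t3) X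
        - ((s : ℝ) : ℂ) • (1 : Matrix ((α × β) × γ) ((α × β) × γ) ℂ))).PosSemidef ∧
      Y.trace.re ≤ ∑ w, max 0 (lamv a0 b0 g0 1 t1 1 t2 1 t3 w - s) := by
  have h12 : 0 ≤ t1 * t2 := by positivity
  have h13 : 0 ≤ t1 * t3 := by positivity
  have h23 : 0 ≤ t2 * t3 := by positivity
  have h123 : 0 ≤ t1 * t2 * t3 := by positivity
  -- values of the positive parts
  obtain ⟨f0, e0, e0', f0n, g0n⟩ : ∃ f, f = max 0 (1 - s) ∧ max 0 (s - 1) = f - (1 - s) ∧ 0 ≤ f ∧
      0 ≤ f - (1 - s) := by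
    refine ⟨_, rfl, ?_, le_max_left _ _, ?_⟩
    · rcases le_total s 1 with hh | hh
      · rw [max_eq_left (by linarith), max_eq_right (by linarith)]; ring
      · rw [max_eq_right (by linarith), max_eq_left (by linarith)]; ring
    · have := le_max_right 0 (1 - s); linarith
  have gen : ∀ v : ℝ, ∃ f, f = max 0 (v - s) ∧ max 0 (s - v) = f - (v - s) ∧ 0 ≤ f ∧
      0 ≤ f - (v - s) := by
    intro v
    refine ⟨_, rfl, ?_, le_max_left _ _, ?_⟩
    · rcases le_total s v with hh | hh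
      · rw [max_eq_left (by linarith), max_eq_right (by linarith)]; ring
      · rw [max_eq_right (by linarith), max_eq_left (by linarith)]; ring
    · have := le_max_right 0 (v - s); linarith
  obtain ⟨f1, e1, e1', f1n, g1n⟩ := gen (1 + t1)
  obtain ⟨f2, e2, e2', f2n, g2n⟩ := gen (1 + t2)
  obtain ⟨f3, e3, e3', f3n, g3n⟩ := gen (1 + t3)
  obtain ⟨f12, e12, e12', f12n, g12n⟩ := gen ((1 + t1) * (1 + t2))
  obtain ⟨f13, e13, e13', f13n, g13n⟩ := gen ((1 + t1) * (1 + t3))
  obtain ⟨f23, e23, e23', f23n, g23n⟩ := gen ((1 + t2) * (1 + t3))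
  obtain ⟨f123, e123, e123', f123n, g123n⟩ := gen ((1 + t1) * (1 + t2) * (1 + t3))
  rw [← e123, ← e12, ← e13, ← e23, ← e1, ← e2, ← e3, ← e0] at hy
  rw [e0', e1', e2', e3', e12', e13', e23', e123'] at hz
  -- monotonicity
  have mono : ∀ u v : ℝ, u ≤ v → max 0 (u - s) ≤ max 0 (v - s) := fun u v huv =>
    max_le_max le_rfl (by linarith)
  have monog : ∀ u v : ℝ, u ≤ v → max 0 (v - s) - (v - s) ≤ max 0 (u - s) - (u - s) := by
    intro u v huv
    rcases le_total s u with hh | hh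
    · rw [max_eq_right (by linarith), max_eq_right (by linarith)]; linarith
    · rw [max_eq_left (a := 0) (b := u - s) (by linarith)]
      rcases le_total s v with hh' | hh'
      · rw [max_eq_right (by linarith)]; linarith
      · rw [max_eq_left (by linarith)]; linarith
  have cvx : ∀ u v w x : ℝ, u ≤ v → u ≤ w → v ≤ x → w ≤ x → v + w ≤ u + x →
      max 0 (v - s) + max 0 (w - s) ≤ max 0 (u - s) + max 0 (x - s) := by
    intro u v w x a b c d e
    rcases le_total s u with h1' | h1'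
    · rw [max_eq_right (by linarith), max_eq_right (by linarith), max_eq_right (by linarith),
        max_eq_right (by linarith)]; linarith
    · rw [max_eq_left (a := 0) (b := u - s) (by linarith)]
      rcases le_total s v with h2' | h2' <;> rcases le_total s w with h3' | h3'
      · rw [max_eq_right (by linarith), max_eq_right (by linarith), max_eq_right (by linarith)]
        linarith
      · rw [max_eq_right (by linarith), max_eq_left (a := 0) (b := w - s) (by linarith),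
          max_eq_right (by linarith)]
        linarith
      · rw [max_eq_left (a := 0) (b := v - s) (by linarith), max_eq_right (by linarith),
          max_eq_right (by linarith)]
        linarith
      · rw [max_eq_left (a := 0) (b := v - s) (by linarith),
          max_eq_left (a := 0) (b := w - s) (by linarith)]
        have := le_max_left 0 (x - s)
        linarith
  have m01 := mono 1 (1 + t1) (by linarith)
  have m02 := mono 1 (1 + t2) (by linarith)
  have m03 := mono 1 (1 + t3) (by linarith)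
  have k12 := cvx 1 (1 + t1) (1 + t2) ((1 + t1) * (1 + t2)) (by linarith) (by linarith)
    (by nlinarith) (by nlinarith) (by nlinarith)
  have k13 := cvx 1 (1 + t1) (1 + t3) ((1 + t1) * (1 + t3)) (by linarith) (by linarith)
    (by nlinarith) (by nlinarith) (by nlinarith)
  have k23 := cvx 1 (1 + t2) (1 + t3) ((1 + t2) * (1 + t3)) (by linarith) (by linarith)
    (by nlinarith) (by nlinarith) (by nlinarith)
  rw [← e0, ← e1] at m01
  rw [← e0, ← e2] at m02
  rw [← e0, ← e3] at m03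
  rw [← e0, ← e1, ← e2, ← e12] at k12
  rw [← e0, ← e1, ← e3, ← e13] at k13
  rw [← e0, ← e2, ← e3, ← e23] at k23
  have n1_12 := monog (1 + t1) ((1 + t1) * (1 + t2)) (by nlinarith)
  have n2_12 := monog (1 + t2) ((1 + t1) * (1 + t2)) (by nlinarith)
  have n1_13 := monog (1 + t1) ((1 + t1) * (1 + t3)) (by nlinarith)
  have n3_13 := monog (1 + t3) ((1 + t1) * (1 + t3)) (by nlinarith)
  have n2_23 := monog (1 + t2) ((1 + t2) * (1 + t3)) (by nlinarith)
  have n3_23 := monog (1 + t3) ((1 + t2) * (1 + t3)) (by nlinarith)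
  have n12 := monog ((1 + t1) * (1 + t2)) ((1 + t1) * (1 + t2) * (1 + t3)) (by nlinarith)
  have n13 := monog ((1 + t1) * (1 + t3)) ((1 + t1) * (1 + t2) * (1 + t3)) (by nlinarith)
  have n23 := monog ((1 + t2) * (1 + t3)) ((1 + t1) * (1 + t2) * (1 + t3)) (by nlinarith)
  rw [← e1, ← e12] at n1_12
  rw [← e2, ← e12] at n2_12
  rw [← e1, ← e13] at n1_13
  rw [← e3, ← e13] at n3_13
  rw [← e2, ← e23] at n2_23
  rw [← e3, ← e23] at n3_23
  rw [← e12, ← e123] at n12
  rw [← e13, ← e123] at n13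
  rw [← e23, ← e123] at n23
  refine ⟨comb f0 (f1 - f0) (f2 - f0) (f3 - f0) (f12 - f1 - f2 + f0) (f13 - f1 - f3 + f0)
    (f23 - f2 - f3 + f0) (f123 - f12 - f13 - f23 + f1 + f2 + f3 - f0) X, ?_, ?_, ?_⟩
  · exact comb_psd_cp h _ _ _ _ _ _ _ _ f0n (by linarith) (by linarith) (by linarith)
      (by linarith) (by linarith) (by linarith) hy
  · rw [comb_sub_one htr]
    refine comb_psd_of_hat h _ _ _ _ _ _ _ _ ?_
    rintro u v w (rfl | rfl) (rfl | rfl) (rfl | rfl) <;> linarith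
  · rw [trace_comb_re a0 b0 g0 _ _ _ _ _ _ _ _ htr]
    refine Finset.sum_le_sum fun z _ => ?_
    unfold pv lamv
    by_cases c1 : z.1.1 = a0 <;> by_cases c2 : z.1.2 = b0 <;> by_cases c3 : z.2 = g0 <;>
        simp only [c1, c2, c3, if_true, if_false, one_mul, mul_one]
    · rw [← e123]; linarith
    · rw [← e12]; linarith
    · rw [← e13]; linarith
    · rw [← e1]; linarith
    · rw [← e23]; linarith
    · rw [← e2]; linarith
    · rw [← e3]; linarith
    · rw [← e0]; linarith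
end asm

end Helper611.Dep
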